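import Pool.Agent.Lib.MP_6bd702_percD.Defs
import Pool.Agent.Lib.MP_6bd702_percw.Targets

/-!
# Part D: the finite volume estimates (statements) and the trace target
-/

set_option autoImplicit false

namespace Pool.Agent.Perc

open Filter Topology MeasureTheory TopologicalSpace

/-- `v` is a vertex of the box at distance at least `r` from its boundary. -/
def Bulk (n : ℕ) (r : ℝ) (v : ℤ × ℤ) : Prop :=
  r ≤ v.1 ∧ (v.1 : ℝ) ≤ n - r ∧ r ≤ v.2 ∧ (v.2 : ℝ) ≤ n - r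

/-- B1: a small box is rarely met by the outer perimeter of a large cluster. -/
def TargetB1 : Prop := ∀ k₀ : ℝ, 0 < k₀ → ∃ C : ℝ, ∀ n : ℕ, 1 ≤ n → ∀ v : ℤ × ℤ, ∀ d w : ℝ,
  1 ≤ d → d ≤ w → w ≤ k₀ * n / 16 → Bulk n (2 * w) v →
    prB n {T | ∃ u, k₀ * n ≤ Metric.diam (clS T u) ∧
      ∃ x ∈ OutV T u, |(x.1 : ℝ) - v.1| ≤ d ∧ |(x.2 : ℝ) - v.2| ≤ d} ≤ C * (d / w) ^ (1 / 4 : ℝ)

/-- B2: the two point function in the bulk. -/
def TargetB2 : Prop := ∀ κ k₀ : ℝ, 0 < κ → 0 < k₀ → ∃ C : ℝ, ∀ n : ℕ, 1 ≤ n → ∀ v w : ℤ × ℤ,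
  Bulk n (κ * n) v → Bulk n (κ * n) w →
    prB n {T | ∃ u, k₀ * n ≤ Metric.diam (clS T u) ∧ v ∈ OutV T u ∧ w ∈ OutV T u} ≤
      C * ((1 + dist (toC v) (toC w)) * n) ^ (-(1 / 4) : ℝ)

/-- B3: with high probability the outer perimeter of the largest cluster has many vertices in the
bulk. -/
def TargetB3 : Prop := ∀ ε : ℝ, 0 < ε → ∃ κ k₀ c : ℝ, 0 < κ ∧ 0 < k₀ ∧ 0 < c ∧
  ∀ sel : ℕ → Finset Edg → ℤ × ℤ, (∀ n, IsSel n (sel n)) → ∀ᶠ n : ℕ in atTop,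
    prB n {T | ¬ (k₀ * n ≤ Metric.diam (clS T (sel n T)) ∧
      c * (n : ℝ) ^ (7 / 4 : ℝ) ≤ ({v | v ∈ OutV T (sel n T) ∧ Bulk n (κ * n) v}).ncard)} ≤ ε

/-- Weak convergence of the laws of the rescaled outer perimeters along `φ` to `ν`. -/
def LimitLaw [MeasurableSpace (NonemptyCompacts ℂ)] (sel : ℕ → Finset Edg → ℤ × ℤ) (φ : ℕ → ℕ)
    (ν : Measure (NonemptyCompacts ℂ)) : Prop :=
  ∀ F : BoundedContinuousFunction (NonemptyCompacts ℂ) ℝ,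
    Tendsto (fun k => exB (φ k) fun T => F (perK (φ k) T (sel (φ k) T))) atTop (𝓝 (∫ K, F K ∂ν))

/-- Target D at the level of the traces: almost surely for every subsequential limit law the
Hausdorff dimension is `7 / 4`. -/
def TargetTrace : Prop := ∀ [MeasurableSpace (NonemptyCompacts ℂ)] [BorelSpace (NonemptyCompacts ℂ)]
  (sel : ℕ → Finset Edg → ℤ × ℤ) (φ : ℕ → ℕ) (ν : Measure (NonemptyCompacts ℂ))
  [IsProbabilityMeasure ν], (∀ n, IsSel n (sel n)) → StrictMono φ → LimitLaw sel φ ν →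
    ∀ᵐ K : NonemptyCompacts ℂ ∂ν, dimH (K : Set ℂ) = 7 / 4

end Pool.Agent.Perc
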