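import Pool.Agent.Lib.MP_6bd702_percD.Lower

/-!
# No efficient covers with high probability
-/

set_option autoImplicit false

namespace Pool.Agent.Perc.PercD

open Finset Filter Topology Pool.Agent.PercD

open Classical in
theorem ncard_bulk {n : ℕ} {r : ℝ} (hr : 0 ≤ r) (T : Finset Edg) (u : ℤ × ℤ) :
    ({v | v ∈ OutV T u ∧ Bulk n r v} : Set (ℤ × ℤ)).ncard =
      ((bulkF n r).filter (fun v => v ∈ OutV T u)).card := by
  rw [← Set.ncard_coe_finset]
  congr 1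
  ext v
  simp only [bulkF, coe_filter, mem_filter, Set.mem_ofPred_eq]
  constructor
  · rintro ⟨h1, h2⟩
    refine ⟨⟨?_, h2⟩, h1⟩
    obtain ⟨a, b, c, d⟩ := h2
    unfold Box
    rw [mem_product, mem_Icc, mem_Icc]
    have a1 : (0 : ℝ) ≤ v.1 := hr.trans a
    have b1 : (v.1 : ℝ) ≤ n := by linarith
    have c1 : (0 : ℝ) ≤ v.2 := hr.trans c
    have d1 : (v.2 : ℝ) ≤ n := by linarith
    exact ⟨⟨by exact_mod_cast a1, by exact_mod_cast b1⟩, by exact_mod_cast c1, by exact_mod_cast d1⟩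
  · rintro ⟨⟨_, h2⟩, h1⟩
    exact ⟨h1, h2⟩

open Classical in
/-- Many outer vertices with small energy exclude efficient covers. -/
theorem not_cov {s κ c A : ℝ} (hs0 : 0 ≤ s) (hc : 0 < c) (hA : 0 < A) {n : ℕ}
    (hn : 1 ≤ n) {T : Finset Edg} {u : ℤ × ℤ}
    (hcard : c * (n : ℝ) ^ (7 / 4 : ℝ) ≤ ((bulkF n (κ * n)).filter (fun v => v ∈ OutV T u)).card)
    (hen : enF s κ n T u ≤ A * (n : ℝ) ^ (7 / 2 - s)) {K : Set ℂ}
    (hK : ∀ v ∈ OutV T u, toC v / n ∈ K) : ¬ Cov s (1 / n) (c ^ 2 / (2 * A)) K := by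
  intro hcov
  have hn0 : (0 : ℝ) < n := by exact_mod_cast hn
  set I := (bulkF n (κ * n)).filter (fun v => v ∈ OutV T u) with hI
  have h1 := hcov.energy hs0 (by positivity : (0 : ℝ) < 1 / n) I (fun v => toC v / n) (by
    intro v hv
    rw [hI, mem_filter] at hv
    exact hK v hv.2)
  have h2 : ∀ v w : ℤ × ℤ, (max (dist (toC v / n) (toC w / n)) (1 / n)) ^ (-s) =
      (n : ℝ) ^ s * (max (dist (toC v) (toC w)) 1) ^ (-s) := by
    intro v w
    have e : dist (toC v / n) (toC w / n) = dist (toC v) (toC w) / n := by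
      rw [dist_eq_norm, dist_eq_norm, ← sub_div, norm_div, Complex.norm_natCast]
    rw [e, max_div_div_right hn0.le, Real.div_rpow (le_trans zero_le_one (le_max_right _ _)) hn0.le,
      Real.rpow_neg hn0.le s, div_inv_eq_mul, mul_comm]
  simp only [h2] at h1
  simp only [← mul_sum] at h1
  have h3 : ∑ i ∈ I, ∑ j ∈ I, (max (dist (toC i) (toC j)) 1) ^ (-s) = enF s κ n T u := rfl
  rw [h3] at h1
  have h4 : (c * (n : ℝ) ^ (7 / 4 : ℝ)) ^ 2 ≤ (I.card : ℝ) ^ 2 :=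
    pow_le_pow_left₀ (by positivity) hcard 2
  have h5 : c ^ 2 / (2 * A) * ((n : ℝ) ^ s * enF s κ n T u) ≤
      c ^ 2 / (2 * A) * ((n : ℝ) ^ s * (A * (n : ℝ) ^ (7 / 2 - s))) := by
    refine mul_le_mul_of_nonneg_left ?_ (by positivity)
    exact mul_le_mul_of_nonneg_left hen (Real.rpow_nonneg hn0.le _)
  have h6 : (n : ℝ) ^ s * (A * (n : ℝ) ^ (7 / 2 - s)) = A * (n : ℝ) ^ (7 / 2 : ℝ) := by
    rw [mul_left_comm, ← Real.rpow_add hn0]; congr 2; ring
  have h7 : (c * (n : ℝ) ^ (7 / 4 : ℝ)) ^ 2 = c ^ 2 * (n : ℝ) ^ (7 / 2 : ℝ) := by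
    rw [mul_pow, ← Real.rpow_natCast ((n : ℝ) ^ (7 / 4 : ℝ)), ← Real.rpow_mul hn0.le]
    norm_num
  rw [h6] at h5
  rw [h7] at h4
  have h8 : c ^ 2 / (2 * A) * (A * (n : ℝ) ^ (7 / 2 : ℝ)) = c ^ 2 * (n : ℝ) ^ (7 / 2 : ℝ) / 2 := by
    field_simp
  have h9 : 0 < c ^ 2 * (n : ℝ) ^ (7 / 2 : ℝ) := by positivity
  linarith

/-- With high probability there are no efficient covers at the scale of the lattice. -/
theorem lower_cov (h2 : TargetB2) (h3 : TargetB3) {s : ℝ} (hs0 : 0 ≤ s) (hs : s < 7 / 4)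
    {sel : ℕ → Finset Edg → ℤ × ℤ} (hsel : ∀ n, IsSel n (sel n))
    {KK : ℕ → Finset Edg → Set ℂ}
    (hK : ∀ n, ∀ T ⊆ boxE n, ∀ v ∈ OutV T (sel n T), toC v / n ∈ KK n T) {ε : ℝ} (hε : 0 < ε) :
    ∃ η : ℝ, 0 < η ∧ ∀ᶠ n : ℕ in atTop, prB n {T | Cov s (1 / n) η (KK n T)} ≤ ε := by
  classical
  obtain ⟨κ, k₀, c, hκ, hk₀, hc, h3⟩ := h3 (ε / 2) (by positivity)
  obtain ⟨C, hC0, hC⟩ := energy_bound h2 hs0 hs hκ hk₀
  set A : ℝ := 2 * C / ε + 1 with hA
  have hA0 : 0 < A := by positivity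
  refine ⟨c ^ 2 / (2 * A), by positivity, ?_⟩
  filter_upwards [h3 sel hsel, eventually_ge_atTop 1] with n hn hn1
  have hn0 : (0 : ℝ) < n := by exact_mod_cast hn1
  set X : Set (Finset Edg) := {T | ¬ (k₀ * n ≤ Metric.diam (clS T (sel n T)) ∧
      c * (n : ℝ) ^ (7 / 4 : ℝ) ≤ ({v | v ∈ OutV T (sel n T) ∧ Bulk n (κ * n) v}).ncard)} with hX
  set Y : Set (Finset Edg) := {T | A * (n : ℝ) ^ (7 / 2 - s) ≤
    if k₀ * n ≤ Metric.diam (clS T (sel n T)) then enF s κ n T (sel n T) else 0} with hY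
  have hY1 : prB n Y ≤ ε / 2 := by
    have h5 := prB_markov (n := n) (g := fun T => if k₀ * n ≤ Metric.diam (clS T (sel n T)) then
      enF s κ n T (sel n T) else 0) (t := A * (n : ℝ) ^ (7 / 2 - s)) (A := Y) (by
        intro T _
        split_ifs
        · exact sum_nonneg fun v _ => sum_nonneg fun w _ =>
            Real.rpow_nonneg (le_trans zero_le_one (le_max_right _ _)) _
        · exact le_rfl) (by positivity) (fun T _ hT => hT)
    refine h5.trans ?_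
    rw [div_le_iff₀ (by positivity)]
    refine (hC sel n hn1).trans ?_
    have h6 : C ≤ ε / 2 * A := by
      rw [hA]
      have : ε / 2 * (2 * C / ε + 1) = C + ε / 2 := by field_simp
      rw [this]; linarith
    calc C * (n : ℝ) ^ (7 / 2 - s) ≤ (ε / 2 * A) * (n : ℝ) ^ (7 / 2 - s) :=
          mul_le_mul_of_nonneg_right h6 (Real.rpow_nonneg hn0.le _)
      _ = ε / 2 * (A * (n : ℝ) ^ (7 / 2 - s)) := by ring
  have h7 := prB_union (n := n) X Y {T | Cov s (1 / n) (c ^ 2 / (2 * A)) (KK n T)} (by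
    intro T hTb hT
    by_contra hcon
    push Not at hcon
    obtain ⟨hx, hy⟩ := hcon
    rw [hX, Set.mem_ofPred_eq, not_not] at hx
    rw [hY, Set.mem_ofPred_eq, not_le, if_pos hx.1] at hy
    rw [ncard_bulk (by positivity)] at hx
    exact not_cov hs0 hc hA0 hn1 hx.2 hy.le (hK n T hTb) hT)
  linarith

end Pool.Agent.Perc.PercD
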