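import Pool.Agent.Lib.MP_6bd702_percD.UpperB
import Pool.Agent.Lib.MP_6bd702_percD.LowerB

/-!
# Every subsequential limit has Hausdorff dimension `7 / 4`, from the finite volume estimates
-/

set_option autoImplicit false

namespace Pool.Agent.Perc.PercD

open Filter Topology MeasureTheory TopologicalSpace Pool.Agent.PercD BoxAux
open scoped ENNReal NNReal

section law

theorem two_pow_ne_zero (c : ℕ) : (2 : ℝ≥0∞) ^ c ≠ 0 := by positivity

theorem two_pow_ne_top (c : ℕ) : (2 : ℝ≥0∞) ^ c ≠ ∞ := ENNReal.pow_ne_top (by norm_num)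

variable [MeasurableSpace (NonemptyCompacts ℂ)]

/-- The law of `K T` for a uniform configuration `T` of the box. -/
noncomputable def lawM (n : ℕ) (K : Finset Edg → NonemptyCompacts ℂ) :
    Measure (NonemptyCompacts ℂ) :=
  ∑ T ∈ (boxE n).powerset, ((2 : ℝ≥0∞) ^ (boxE n).card)⁻¹ • Measure.dirac (K T)

instance isProb_lawM (n : ℕ) (K : Finset Edg → NonemptyCompacts ℂ) :
    IsProbabilityMeasure (lawM n K) := by
  constructor
  unfold lawM
  rw [Measure.finsetSum_apply]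
  simp only [Measure.smul_apply, measure_univ, smul_eq_mul, mul_one]
  rw [Finset.sum_const, Finset.card_powerset, nsmul_eq_mul]
  push_cast
  exact ENNReal.mul_inv_cancel (two_pow_ne_zero _) (two_pow_ne_top _)

theorem integral_lawM [BorelSpace (NonemptyCompacts ℂ)] (n : ℕ)
    (K : Finset Edg → NonemptyCompacts ℂ)
    (F : BoundedContinuousFunction (NonemptyCompacts ℂ) ℝ) :
    ∫ x, F x ∂(lawM n K) = exB n (fun T => F (K T)) := by
  unfold lawM exB
  rw [integral_finsetSum_measure]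
  · simp only [integral_smul_measure]
    rw [Finset.sum_div]
    refine Finset.sum_congr rfl fun T _ => ?_
    rw [integral_dirac' _ _ F.continuous.stronglyMeasurable]
    rw [ENNReal.toReal_inv, ENNReal.toReal_pow, ENNReal.toReal_ofNat, smul_eq_mul]
    ring
  · intro T _
    refine Integrable.smul_measure ?_ (ENNReal.inv_ne_top.2 (two_pow_ne_zero _))
    exact F.integrable _

theorem lawM_apply (n : ℕ) (K : Finset Edg → NonemptyCompacts ℂ)
    {A : Set (NonemptyCompacts ℂ)} (hA : MeasurableSet A) :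
    lawM n K A = ENNReal.ofReal (prB n {T | K T ∈ A}) := by
  classical
  unfold lawM prB
  rw [Measure.finsetSum_apply]
  simp only [Measure.smul_apply, Measure.dirac_apply' _ hA, smul_eq_mul]
  rw [← Finset.mul_sum]
  have h1 : ∑ T ∈ (boxE n).powerset, A.indicator (1 : NonemptyCompacts ℂ → ℝ≥0∞) (K T) =
      (((boxE n).powerset.filter fun T => T ∈ {T | K T ∈ A}).card : ℝ≥0∞) := by
    rw [Finset.card_filter]
    push_cast
    refine Finset.sum_congr rfl fun T _ => ?_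
    simp [Set.indicator_apply]
  rw [h1, ENNReal.ofReal_div_of_pos (by positivity), ENNReal.ofReal_natCast,
    ENNReal.ofReal_pow (by norm_num), ENNReal.ofReal_ofNat, div_eq_mul_inv, mul_comm]

end law

/-- The set of configurations is irrelevant outside the box. -/
theorem prB_congr {n : ℕ} {A B : Set (Finset Edg)} (h : ∀ T ⊆ boxE n, T ∈ A ↔ T ∈ B) :
    prB n A = prB n B :=
  le_antisymm (prB_mono fun T hT hA => (h T hT).1 hA) (prB_mono fun T hT hB => (h T hT).2 hB)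

variable [MeasurableSpace (NonemptyCompacts ℂ)] [BorelSpace (NonemptyCompacts ℂ)]

/-- The main theorem for random compact sets which are close to the set of the outer vertices. -/
theorem dimH_limit (h1 : TargetB1) (h2 : TargetB2) (h3 : TargetB3)
    {sel : ℕ → Finset Edg → ℤ × ℤ} (hsel : ∀ n, IsSel n (sel n))
    (KK : ℕ → Finset Edg → NonemptyCompacts ℂ)
    (hK1 : ∀ n, ∀ T ⊆ boxE n, ∀ v ∈ OutV T (sel n T), toC v / n ∈ KK n T)
    (hK2 : ∀ n, 1 ≤ n → ∀ T ⊆ boxE n, 0 < Metric.diam (clS T (sel n T)) → ∀ ζ ∈ KK n T,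
      ∃ v ∈ OutV T (sel n T), ‖ζ - toC v / n‖ ≤ 1 / n)
    (hK3 : ∀ n, 1 ≤ n → ∀ T ⊆ boxE n, (KK n T : Set ℂ) ⊆ unitSq)
    {φ : ℕ → ℕ} (hφ : Tendsto φ atTop atTop) (ν : Measure (NonemptyCompacts ℂ))
    [IsProbabilityMeasure ν]
    (hν : ∀ F : BoundedContinuousFunction (NonemptyCompacts ℂ) ℝ,
      Tendsto (fun k => exB (φ k) fun T => F (KK (φ k) T)) atTop (𝓝 (∫ K, F K ∂ν))) :
    ∀ᵐ K : NonemptyCompacts ℂ ∂ν, dimH (K : Set ℂ) = 7 / 4 := by
  set μs : ℕ → ProbabilityMeasure (NonemptyCompacts ℂ) :=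
    fun k => ⟨lawM (φ k) (KK (φ k)), isProb_lawM _ _⟩ with hμs
  set ν' : ProbabilityMeasure (NonemptyCompacts ℂ) := ⟨ν, inferInstance⟩ with hν'
  have hlim : Tendsto μs atTop (𝓝 ν') := by
    rw [ProbabilityMeasure.tendsto_iff_forall_integral_tendsto]
    intro F
    have := hν F
    simp only [hμs, hν', ProbabilityMeasure.coe_mk]
    simp only [integral_lawM]
    exact this
  -- upper bounds
  have hup : ∀ s : ℝ≥0, (7 / 4 : ℝ) < s →
      ∀ᵐ K : NonemptyCompacts ℂ ∂ν, dimH (K : Set ℂ) ≤ s := by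
    intro s hs
    refine dimH_le_ae (ν := ν') hlim ?_ ?_
    · filter_upwards [hφ.eventually_ge_atTop 1] with k hk
      have hm : MeasurableSet {K : NonemptyCompacts ℂ | ¬ (K : Set ℂ) ⊆ unitSq} :=
        (NonemptyCompacts.isClosed_subsets_of_isClosed isClosed_unitSq).isOpen_compl.measurableSet
      have e : prB (φ k) {T | KK (φ k) T ∈ {K : NonemptyCompacts ℂ | ¬ (K : Set ℂ) ⊆ unitSq}} = 0 := by
        refine le_antisymm ?_ (prB_nonneg _)
        have h4 : prB (φ k) {T | KK (φ k) T ∈ {K : NonemptyCompacts ℂ | ¬ (K : Set ℂ) ⊆ unitSq}} ≤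
            prB (φ k) ∅ := prB_mono fun T hT hT' => hT' (hK3 (φ k) hk T hT)
        refine h4.trans (le_of_eq ?_)
        unfold prB; simp
      change lawM (φ k) (KK (φ k)) _ = 0
      rw [lawM_apply _ _ hm, e, ENNReal.ofReal_zero]
    · intro ε hε
      obtain ⟨lam, hlam⟩ := upper_S h1 h3 hs hsel (KK := fun n T => (KK n T : Set ℂ)) hK2 hε
      refine ⟨lam, fun M => ?_⟩
      filter_upwards [hφ.eventually (hlam M)] with k hk
      change lawM (φ k) (KK (φ k)) _ ≤ _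
      rw [lawM_apply _ _ (isOpen_Sm _ _ _).measurableSet]
      exact ENNReal.ofReal_le_ofReal hk
  -- lower bounds
  have hlow : ∀ s : ℝ≥0, 0 < s → (s : ℝ) < 7 / 4 →
      ∀ᵐ K : NonemptyCompacts ℂ ∂ν, (s : ℝ≥0∞) ≤ dimH (K : Set ℂ) := by
    intro s hs0 hs
    refine le_dimH_ae (ν := ν') hs0 hlim (ρ := fun k => 1 / (φ k : ℝ)) ?_ ?_
    · exact (tendsto_one_div_atTop_nhds_zero_nat (𝕜 := ℝ)).comp hφ
    · intro ε hε
      obtain ⟨η, hη, hev⟩ := lower_cov h2 h3 s.coe_nonneg hs hsel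
        (KK := fun n T => (KK n T : Set ℂ)) hK1 hε
      refine ⟨η, hη, ?_⟩
      filter_upwards [hφ.eventually hev] with k hk
      change lawM (φ k) (KK (φ k)) _ ≤ _
      rw [lawM_apply _ _ (isOpen_Cov _ _ _).measurableSet]
      exact ENNReal.ofReal_le_ofReal hk
  -- conclusion
  have hup' : ∀ᵐ K : NonemptyCompacts ℂ ∂ν, ∀ m : ℕ,
      dimH (K : Set ℂ) ≤ ((7 / 4 + 1 / ((m : ℝ≥0) + 1) : ℝ≥0) : ℝ≥0∞) := by
    rw [ae_all_iff]
    intro m
    refine hup _ ?_
    push_cast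
    have : (0 : ℝ) < 1 / ((m : ℝ) + 1) := by positivity
    linarith
  have hlow' : ∀ᵐ K : NonemptyCompacts ℂ ∂ν, ∀ m : ℕ,
      ((7 / 4 - 1 / ((m : ℝ≥0) + 1) : ℝ≥0) : ℝ≥0∞) ≤ dimH (K : Set ℂ) := by
    rw [ae_all_iff]
    intro m
    have h5 : (1 : ℝ≥0) / ((m : ℝ≥0) + 1) ≤ 1 := by
      rw [div_le_one (by positivity)]; exact le_add_of_nonneg_left (zero_le)
    have h6 : (1 : ℝ≥0) / ((m : ℝ≥0) + 1) < 7 / 4 := by
      refine lt_of_le_of_lt h5 ?_
      rw [lt_div_iff₀ (by norm_num)]; norm_num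
    refine hlow _ (tsub_pos_of_lt h6) ?_
    rw [NNReal.coe_sub h6.le]
    push_cast
    have : (0 : ℝ) < 1 / ((m : ℝ) + 1) := by positivity
    linarith
  filter_upwards [hup', hlow'] with K hKu hKl
  have hlim0 : Tendsto (fun m : ℕ => (1 : ℝ≥0) / ((m : ℝ≥0) + 1)) atTop (𝓝 0) :=
    tendsto_one_div_add_atTop_nhds_zero_nat
  have e74 : ((7 / 4 : ℝ≥0) : ℝ≥0∞) = 7 / 4 := by
    rw [ENNReal.coe_div (by norm_num)]; norm_num
  apply le_antisymm
  · have h7 : Tendsto (fun m : ℕ => ((7 / 4 + 1 / ((m : ℝ≥0) + 1) : ℝ≥0) : ℝ≥0∞)) atTop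
        (𝓝 ((7 / 4 + 0 : ℝ≥0) : ℝ≥0∞)) :=
      ENNReal.tendsto_coe.2 (tendsto_const_nhds.add hlim0)
    rw [add_zero, e74] at h7
    exact ge_of_tendsto' h7 hKu
  · have h7 : Tendsto (fun m : ℕ => ((7 / 4 - 1 / ((m : ℝ≥0) + 1) : ℝ≥0) : ℝ≥0∞)) atTop
        (𝓝 ((7 / 4 - 0 : ℝ≥0) : ℝ≥0∞)) :=
      ENNReal.tendsto_coe.2 (tendsto_const_nhds.sub hlim0)
    rw [tsub_zero, e74] at h7
    exact le_of_tendsto' h7 hKl

omit [MeasurableSpace (NonemptyCompacts ℂ)] [BorelSpace (NonemptyCompacts ℂ)] in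
theorem clS_sub {n : ℕ} {T : Finset Edg} (hT : T ⊆ boxE n) {u : ℤ × ℤ} (hu : u ∈ Box n) {z : ℂ}
    (hz : z ∈ clS T u) : 0 ≤ z.re ∧ z.re ≤ n ∧ 0 ≤ z.im ∧ z.im ≤ n := by
  have hv : ∀ v ∈ Box n, 0 ≤ (toC v).re ∧ (toC v).re ≤ n ∧ 0 ≤ (toC v).im ∧ (toC v).im ≤ n := by
    intro v hv
    unfold Box at hv
    rw [Finset.mem_product, Finset.mem_Icc, Finset.mem_Icc] at hv
    obtain ⟨⟨a, b⟩, c, d⟩ := hv
    have e1 : (toC v).re = v.1 := by simp [toC]
    have e2 : (toC v).im = v.2 := by simp [toC]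
    rw [e1, e2]
    exact ⟨by exact_mod_cast a, by exact_mod_cast b, by exact_mod_cast c, by exact_mod_cast d⟩
  rw [mem_clS] at hz
  rcases hz with ⟨w, hw, rfl⟩ | ⟨e, he, _, hseg⟩
  · exact hv w (clV_subset_box hT hu hw)
  · obtain ⟨ht, hh⟩ := mem_boxE.1 (hT he)
    obtain ⟨a1, a2, a3, a4⟩ := hv _ ht
    obtain ⟨b1, b2, b3, b4⟩ := hv _ hh
    obtain ⟨x, y, hx, hy, hxy, rfl⟩ := hseg
    simp only [Complex.add_re, Complex.add_im, Complex.real_smul, Complex.mul_re, Complex.mul_im,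
      Complex.ofReal_re, Complex.ofReal_im, zero_mul, sub_zero, add_zero]
    refine ⟨by positivity, ?_, by positivity, ?_⟩
    · nlinarith
    · nlinarith

omit [MeasurableSpace (NonemptyCompacts ℂ)] [BorelSpace (NonemptyCompacts ℂ)] in
/-- The trace theorem. -/
theorem targetTrace_of (h1 : TargetB1) (h2 : TargetB2) (h3 : TargetB3) : TargetTrace := by
  intro _ _ sel φ ν _ hsel hφ hν
  refine dimH_limit h1 h2 h3 hsel (fun n T => perK n T (sel n T)) ?_ ?_ ?_ hφ.tendsto_atTop ν hν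
  · intro n T _ v hv
    exact ⟨toC v, toC_mem_frontier hv, rfl⟩
  · intro n hn T _ hd ζ hζ
    obtain ⟨z, hz, rfl⟩ := hζ
    obtain ⟨v, hv, hvz⟩ := exists_outV hd hz
    refine ⟨v, hv, ?_⟩
    have hn0 : (0 : ℝ) < n := by exact_mod_cast hn
    simp only
    rw [← sub_div, norm_div, Complex.norm_natCast]
    exact div_le_div_of_nonneg_right hvz hn0.le
  · intro n hn T hT ζ hζ
    obtain ⟨z, hz, rfl⟩ := hζ
    have hn0 : (0 : ℝ) < n := by exact_mod_cast hn
    obtain ⟨a, b, c, d⟩ := clS_sub hT (hsel n T hT).1 (frontier_outU_sub T _ hz)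
    simp only [unitSq, Set.mem_ofPred_eq, Complex.div_natCast_re, Complex.div_natCast_im]
    exact ⟨by positivity, by rw [div_le_one hn0]; exact b, by positivity,
      by rw [div_le_one hn0]; exact d⟩

end Pool.Agent.Perc.PercD
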