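import Mathlib

/-!
# Truncated contents of compact sets and weak limits: lower bound of the Hausdorff dimension
-/

set_option autoImplicit false

namespace Pool.Agent.PercD

open Set Filter Topology MeasureTheory TopologicalSpace
open scoped ENNReal NNReal

/-- `K` has a finite cover by open sets `U i` of diameter at most `d i` with
`∑ (max (d i) r) ^ s < η`. -/
def Cov (s r η : ℝ) (K : Set ℂ) : Prop :=
  ∃ (F : Finset ℕ) (U : ℕ → Set ℂ) (d : ℕ → ℝ), (∀ i, IsOpen (U i)) ∧ (∀ i, 0 ≤ d i) ∧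
    (∀ i, ∀ x ∈ U i, ∀ y ∈ U i, dist x y ≤ d i) ∧ K ⊆ ⋃ i ∈ F, U i ∧
    ∑ i ∈ F, (max (d i) r) ^ s < η

theorem isOpen_Cov (s r η : ℝ) : IsOpen {K : NonemptyCompacts ℂ | Cov s r η (K : Set ℂ)} := by
  rw [isOpen_iff_forall_mem_open]
  rintro K ⟨F, U, d, hU, hd0, hd, hK, hs⟩
  refine ⟨{K : NonemptyCompacts ℂ | (K : Set ℂ) ⊆ ⋃ i ∈ F, U i}, ?_,
    NonemptyCompacts.isOpen_subsets_of_isOpen (isOpen_biUnion fun i _ => hU i), hK⟩
  intro K' hK'
  exact ⟨F, U, d, hU, hd0, hd, hK', hs⟩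

theorem Cov.mono {s r r' η : ℝ} (hs : 0 ≤ s) (h : r' ≤ r) {K : Set ℂ} (hK : Cov s r η K) :
    Cov s r' η K := by
  obtain ⟨F, U, d, hU, hd0, hd, hc, hsum⟩ := hK
  refine ⟨F, U, d, hU, hd0, hd, hc, lt_of_le_of_lt (Finset.sum_le_sum fun i _ => ?_) hsum⟩
  exact Real.rpow_le_rpow ((hd0 i).trans (le_max_left _ _)) (max_le_max le_rfl h) hs

theorem Cov.mono_right {s r η η' : ℝ} (h : η ≤ η') {K : Set ℂ} (hK : Cov s r η K) :
    Cov s r η' K := by
  obtain ⟨F, U, d, hU, hd0, hd, hc, hsum⟩ := hK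
  exact ⟨F, U, d, hU, hd0, hd, hc, hsum.trans_le h⟩

/-- Points with small truncated energy exclude efficient covers. -/
theorem Cov.energy {s r η : ℝ} (hs : 0 ≤ s) (hr : 0 < r) {K : Set ℂ} (hc : Cov s r η K)
    {ι : Type*} (I : Finset ι) (x : ι → ℂ) (hx : ∀ i ∈ I, x i ∈ K) :
    (I.card : ℝ) ^ 2 ≤ η * ∑ i ∈ I, ∑ j ∈ I, (max (dist (x i) (x j)) r) ^ (-s) := by
  classical
  obtain ⟨F, U, d, hU, hd0, hd, hK, hsum⟩ := hc
  have h1 : ∀ i ∈ I, ∃ k ∈ F, x i ∈ U k := by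
    intro i hi
    have := hK (hx i hi)
    simpa using this
  have h2 : ∀ i : ι, ∃ k, i ∈ I → k ∈ F ∧ x i ∈ U k := by
    intro i
    by_cases hi : i ∈ I
    · obtain ⟨k, hk, hk'⟩ := h1 i hi
      exact ⟨k, fun _ => ⟨hk, hk'⟩⟩
    · exact ⟨0, fun h => absurd h hi⟩
  choose c hc using h2
  set w : ℕ → ℝ := fun k => (max (d k) r) ^ s with hw
  have hwpos : ∀ k, 0 < w k := fun k => Real.rpow_pos_of_pos (lt_max_of_lt_right hr) _
  set n : ℕ → ℝ := fun k => ((I.filter fun i => c i = k).card : ℝ) with hn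
  have hcard : (I.card : ℝ) = ∑ k ∈ F, n k := by
    rw [Finset.card_eq_sum_card_fiberwise (f := c) (t := F) (fun i hi => (hc i hi).1)]
    push_cast
    rfl
  have hcs : (∑ k ∈ F, n k) ^ 2 ≤ (∑ k ∈ F, w k) * ∑ k ∈ F, n k ^ 2 / w k := by
    apply Finset.sum_sq_le_sum_mul_sum_of_sq_le_mul
    · exact fun k _ => (hwpos k).le
    · exact fun k _ => div_nonneg (sq_nonneg _) (hwpos k).le
    · intro k _
      rw [mul_div_cancel₀ _ (hwpos k).ne']
  have hE : ∑ k ∈ F, n k ^ 2 / w k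
      ≤ ∑ i ∈ I, ∑ j ∈ I, (max (dist (x i) (x j)) r) ^ (-s) := by
    have h3 : ∀ k ∈ F, n k ^ 2 / w k ≤
        ∑ i ∈ I.filter (fun i => c i = k), ∑ j ∈ I, (max (dist (x i) (x j)) r) ^ (-s) := by
      intro k _
      have h4 : ∀ i ∈ I.filter (fun i => c i = k),
          n k / w k ≤ ∑ j ∈ I, (max (dist (x i) (x j)) r) ^ (-s) := by
        intro i hi
        rw [Finset.mem_filter] at hi
        calc n k / w k = ∑ j ∈ I.filter (fun i => c i = k), (w k)⁻¹ := by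
              rw [Finset.sum_const, nsmul_eq_mul, div_eq_mul_inv]
          _ ≤ ∑ j ∈ I.filter (fun i => c i = k), (max (dist (x i) (x j)) r) ^ (-s) := by
              refine Finset.sum_le_sum fun j hj => ?_
              rw [Finset.mem_filter] at hj
              have hij : dist (x i) (x j) ≤ d k := by
                apply hd k
                · have := (hc i hi.1).2; rwa [hi.2] at this
                · have := (hc j hj.1).2; rwa [hj.2] at this
              have hm : max (dist (x i) (x j)) r ≤ max (d k) r := max_le_max hij le_rfl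
              have hm0 : 0 < max (dist (x i) (x j)) r := lt_max_of_lt_right hr
              rw [Real.rpow_neg hm0.le]
              exact inv_anti₀ (Real.rpow_pos_of_pos hm0 _) (Real.rpow_le_rpow hm0.le hm hs)
          _ ≤ ∑ j ∈ I, (max (dist (x i) (x j)) r) ^ (-s) := by
              refine Finset.sum_le_sum_of_subset_of_nonneg (Finset.filter_subset _ _) ?_
              intro j _ _
              exact Real.rpow_nonneg (hr.le.trans (le_max_right _ _)) _
      calc n k ^ 2 / w k = ∑ i ∈ I.filter (fun i => c i = k), n k / w k := by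
            rw [Finset.sum_const, nsmul_eq_mul, sq]
            simp only [hn]
            ring
        _ ≤ _ := Finset.sum_le_sum h4
    refine (Finset.sum_le_sum h3).trans (le_of_eq ?_)
    rw [Finset.sum_fiberwise_of_maps_to (fun i hi => (hc i hi).1)]
  have hE0 : 0 ≤ ∑ i ∈ I, ∑ j ∈ I, (max (dist (x i) (x j)) r) ^ (-s) :=
    Finset.sum_nonneg fun i _ => Finset.sum_nonneg fun j _ =>
      Real.rpow_nonneg (hr.le.trans (le_max_right _ _)) _
  have hw0 : 0 ≤ ∑ k ∈ F, w k := Finset.sum_nonneg fun k _ => (hwpos k).le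
  calc (I.card : ℝ) ^ 2 = (∑ k ∈ F, n k) ^ 2 := by rw [hcard]
    _ ≤ (∑ k ∈ F, w k) * ∑ k ∈ F, n k ^ 2 / w k := hcs
    _ ≤ (∑ k ∈ F, w k) * ∑ i ∈ I, ∑ j ∈ I, (max (dist (x i) (x j)) r) ^ (-s) :=
        mul_le_mul_of_nonneg_left hE hw0
    _ ≤ _ := mul_le_mul_of_nonneg_right hsum.le hE0

/-- A compact set of Hausdorff dimension less than `s` has efficient covers. -/
theorem cov_of_dimH_lt {s : ℝ≥0} (hs : 0 < s) {K : Set ℂ} (hK : IsCompact K) (h : dimH K < s)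
    {η : ℝ} (hη : 0 < η) : ∃ m : ℕ, Cov s (1 / ((m : ℝ) + 1)) η K := by
  have hsR : (0 : ℝ) < (s : ℝ) := by exact_mod_cast hs
  have h0 : (μH[(s : ℝ)] : Measure ℂ) K = 0 := hausdorffMeasure_of_dimH_lt h
  -- a countable cover
  have h1 : ∃ t : ℕ → Set ℂ, K ⊆ ⋃ n, t n ∧ (∀ n, Metric.ediam (t n) ≤ 1) ∧
      ∑' n, ⨆ _ : (t n).Nonempty, Metric.ediam (t n) ^ (s : ℝ) < ENNReal.ofReal (η / 4) := by
    rw [Measure.hausdorffMeasure_apply] at h0
    have h2 : (⨅ (t : ℕ → Set ℂ) (_ : K ⊆ ⋃ n, t n) (_ : ∀ n, Metric.ediam (t n) ≤ 1),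
        ∑' n, ⨆ _ : (t n).Nonempty, Metric.ediam (t n) ^ (s : ℝ)) = 0 := by
      rw [← nonpos_iff_eq_zero, ← h0]
      exact le_iSup₂_of_le (1 : ℝ≥0∞) one_pos le_rfl
    have h3 : (⨅ (t : ℕ → Set ℂ) (_ : K ⊆ ⋃ n, t n) (_ : ∀ n, Metric.ediam (t n) ≤ 1),
        ∑' n, ⨆ _ : (t n).Nonempty, Metric.ediam (t n) ^ (s : ℝ)) < ENNReal.ofReal (η / 4) := by
      rw [h2]; exact ENNReal.ofReal_pos.2 (by positivity)
    simp only [iInf_lt_iff] at h3
    obtain ⟨t, ht, ht', ht''⟩ := h3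
    exact ⟨t, ht, ht', ht''⟩
  obtain ⟨t, ht, htd, hts⟩ := h1
  -- real diameters
  set a : ℕ → ℝ := fun n => (Metric.ediam (t n)).toReal with ha
  have hafin : ∀ n, Metric.ediam (t n) ≠ ∞ := fun n => ne_top_of_le_ne_top ENNReal.one_ne_top (htd n)
  have ha0 : ∀ n, 0 ≤ a n := fun n => ENNReal.toReal_nonneg
  -- enlarge
  have h4 : ∀ n, ∃ ρ : ℝ, 0 < ρ ∧ (a n + 2 * ρ) ^ (s : ℝ) < a n ^ (s : ℝ) + η / 4 * (1 / 2) ^ (n + 1) := by
    intro n
    have hcont : ContinuousAt (fun ρ : ℝ => (a n + 2 * ρ) ^ (s : ℝ)) 0 :=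
      ContinuousAt.rpow_const (by fun_prop) (Or.inr hsR.le)
    have hlt : (fun ρ : ℝ => (a n + 2 * ρ) ^ (s : ℝ)) 0 < a n ^ (s : ℝ) + η / 4 * (1 / 2) ^ (n + 1) := by
      simp only [mul_zero, add_zero]
      have : (0 : ℝ) < η / 4 * (1 / 2) ^ (n + 1) := by positivity
      linarith
    have hev := hcont.eventually_lt continuousAt_const hlt
    obtain ⟨ε, hε, hball⟩ := Metric.eventually_nhds_iff.1 hev
    refine ⟨ε / 2, by positivity, ?_⟩
    apply hball
    rw [Real.dist_eq, sub_zero, abs_of_pos (by positivity)]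
    linarith
  choose ρ hρ hρ' using h4
  -- the open sets
  set U : ℕ → Set ℂ := fun n => Metric.thickening (ρ n) (t n) with hUdef
  have hUo : ∀ i, IsOpen (U i) := fun i => Metric.isOpen_thickening
  set d : ℕ → ℝ := fun n => a n + 2 * ρ n with hddef
  have hd0 : ∀ i, 0 ≤ d i := fun i => by
    have := ha0 i; have := (hρ i).le; simp only [hddef]; positivity
  have hdd : ∀ i, ∀ x ∈ U i, ∀ y ∈ U i, dist x y ≤ d i := by
    intro i x hx y hy
    obtain ⟨x', hx', hxx'⟩ := Metric.mem_thickening_iff.1 hx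
    obtain ⟨y', hy', hyy'⟩ := Metric.mem_thickening_iff.1 hy
    have h5 : dist x' y' ≤ a i := by
      rw [dist_edist]
      exact ENNReal.toReal_mono (hafin i) (Metric.edist_le_ediam_of_mem hx' hy')
    calc dist x y ≤ dist x x' + dist x' y' + dist y' y := dist_triangle4 _ _ _ _
      _ ≤ d i := by
        rw [dist_comm y' y]; simp only [hddef]; linarith
  have hcov : K ⊆ ⋃ n, U n := ht.trans (iUnion_mono fun n => Metric.self_subset_thickening (hρ n) _)
  obtain ⟨F₀, hF₀⟩ := hK.elim_finite_subcover U hUo hcov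
  classical
  -- keep only the indices with nonempty `t n`
  set F : Finset ℕ := F₀.filter fun n => (t n).Nonempty with hF
  have hKF : K ⊆ ⋃ i ∈ F, U i := by
    intro z hz
    obtain ⟨i, hi, hzi⟩ := mem_iUnion₂.1 (hF₀ hz)
    refine mem_iUnion₂.2 ⟨i, ?_, hzi⟩
    rw [hF, Finset.mem_filter]
    obtain ⟨x', hx', _⟩ := Metric.mem_thickening_iff.1 hzi
    exact ⟨hi, ⟨x', hx'⟩⟩
  -- the sum
  have hsum1 : ∑ i ∈ F, a i ^ (s : ℝ) ≤ η / 4 := by
    have h6 : ∑ i ∈ F, ENNReal.ofReal (a i ^ (s : ℝ)) ≤ ENNReal.ofReal (η / 4) := by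
      refine le_trans ?_ hts.le
      refine le_trans (Finset.sum_le_sum fun i hi => ?_) (ENNReal.sum_le_tsum F)
      rw [hF, Finset.mem_filter] at hi
      refine le_iSup_of_le hi.2 ?_
      rw [← ENNReal.ofReal_rpow_of_nonneg (ha0 i) hsR.le, ha]
      simp only
      rw [ENNReal.ofReal_toReal (hafin i)]
    rw [← ENNReal.ofReal_sum_of_nonneg (fun i _ => Real.rpow_nonneg (ha0 i) _)] at h6
    exact (ENNReal.ofReal_le_ofReal_iff (by positivity)).1 h6
  have hsum2 : ∑ i ∈ F, (d i) ^ (s : ℝ) < η := by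
    have h7 : ∑ i ∈ F, (d i) ^ (s : ℝ) ≤ ∑ i ∈ F, (a i ^ (s : ℝ) + η / 4 * (1 / 2) ^ (i + 1)) :=
      Finset.sum_le_sum fun i _ => (hρ' i).le
    have h8 : ∑ i ∈ F, (η / 4 * (1 / 2 : ℝ) ^ (i + 1)) ≤ η / 4 * 1 := by
      rw [← Finset.mul_sum]
      refine mul_le_mul_of_nonneg_left ?_ (by positivity)
      have h9 : Summable fun i : ℕ => (1 / 2 : ℝ) ^ (i + 1) := by
        have := summable_geometric_two.mul_right (1 / 2 : ℝ)
        refine this.congr fun i => by rw [pow_succ]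
      refine (h9.sum_le_tsum F (fun i _ => by positivity)).trans ?_
      have : ∑' i : ℕ, (1 / 2 : ℝ) ^ (i + 1) = 1 := by
        simp_rw [pow_succ]
        rw [tsum_mul_right, tsum_geometric_two]; norm_num
      rw [this]
    rw [Finset.sum_add_distrib] at h7
    linarith
  -- truncation
  have hcont : Tendsto (fun m : ℕ => ∑ i ∈ F, (max (d i) (1 / ((m : ℝ) + 1))) ^ (s : ℝ)) atTop
      (𝓝 (∑ i ∈ F, (d i) ^ (s : ℝ))) := by
    refine tendsto_finsetSum _ fun i _ => ?_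
    have h10 : Tendsto (fun m : ℕ => max (d i) (1 / ((m : ℝ) + 1))) atTop (𝓝 (max (d i) 0)) :=
      tendsto_const_nhds.max tendsto_one_div_add_atTop_nhds_zero_nat
    rw [max_eq_left (hd0 i)] at h10
    exact h10.rpow_const (Or.inr hsR.le)
  obtain ⟨m, hm⟩ := (hcont.eventually_lt_const hsum2).exists
  exact ⟨m, F, U, d, hUo, hd0, hdd, hKF, hm⟩

end Pool.Agent.PercD
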