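import Pool.Agent.Lib.MP_6bd702_percD.CurveDefs

/-!
# Closed curves in the plane up to reparametrisation
-/

set_option autoImplicit false

namespace Pool.Agent.PercD

open Set Filter Topology MeasureTheory TopologicalSpace

namespace Loop

/-- The curves which pass twice through some point such that both parts between the two passages
have diameter at least `η`. -/
def Dbl (η : ℝ) : Set Loop :=
  {γ | ∃ s t, s ≤ t ∧ t ≤ s + 1 ∧ γ.f s = γ.f t ∧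
    (∃ x ∈ Icc s t, ∃ y ∈ Icc s t, η ≤ dist (γ.f x) (γ.f y)) ∧
    ∃ x ∈ Icc t (s + 1), ∃ y ∈ Icc t (s + 1), η ≤ dist (γ.f x) (γ.f y)}

/-- A closed curve is self-avoiding if some parametrisation of it has no double points. -/
def SelfAvoiding (γ : Loop) : Prop :=
  ∃ γ' : Loop, dist γ γ' = 0 ∧ ∀ s t, γ'.f s = γ'.f t → ∃ k : ℤ, t = s + k

/-- Approximate double points, as points of `ℝ ^ 6`. -/
def Apx (γ : Loop) (η ε : ℝ) : Set (ℝ × ℝ × ℝ × ℝ × ℝ × ℝ) :=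
  {p | (0 ≤ p.1 ∧ p.1 ≤ 1) ∧ p.1 ≤ p.2.1 ∧ p.2.1 ≤ p.1 + 1 ∧
    dist (γ.f p.1) (γ.f p.2.1) ≤ ε ∧
    (p.1 ≤ p.2.2.1 ∧ p.2.2.1 ≤ p.2.1) ∧ (p.1 ≤ p.2.2.2.1 ∧ p.2.2.2.1 ≤ p.2.1) ∧
    η - ε ≤ dist (γ.f p.2.2.1) (γ.f p.2.2.2.1) ∧
    (p.2.1 ≤ p.2.2.2.2.1 ∧ p.2.2.2.2.1 ≤ p.1 + 1) ∧
    (p.2.1 ≤ p.2.2.2.2.2 ∧ p.2.2.2.2.2 ≤ p.1 + 1) ∧
    η - ε ≤ dist (γ.f p.2.2.2.2.1) (γ.f p.2.2.2.2.2)}

theorem isClosed_Apx (γ : Loop) (η ε : ℝ) : IsClosed (Apx γ η ε) := by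
  have hc := γ.cont
  have h1 : Continuous fun p : ℝ × ℝ × ℝ × ℝ × ℝ × ℝ => dist (γ.f p.1) (γ.f p.2.1) := by fun_prop
  have h2 : Continuous fun p : ℝ × ℝ × ℝ × ℝ × ℝ × ℝ =>
    dist (γ.f p.2.2.1) (γ.f p.2.2.2.1) := by fun_prop
  have h3 : Continuous fun p : ℝ × ℝ × ℝ × ℝ × ℝ × ℝ =>
    dist (γ.f p.2.2.2.2.1) (γ.f p.2.2.2.2.2) := by fun_prop
  have c1 : Continuous fun p : ℝ × ℝ × ℝ × ℝ × ℝ × ℝ => p.1 := by fun_prop
  have c1' : Continuous fun p : ℝ × ℝ × ℝ × ℝ × ℝ × ℝ => p.1 + 1 := by fun_prop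
  have c2 : Continuous fun p : ℝ × ℝ × ℝ × ℝ × ℝ × ℝ => p.2.1 := by fun_prop
  have c3 : Continuous fun p : ℝ × ℝ × ℝ × ℝ × ℝ × ℝ => p.2.2.1 := by fun_prop
  have c4 : Continuous fun p : ℝ × ℝ × ℝ × ℝ × ℝ × ℝ => p.2.2.2.1 := by fun_prop
  have c5 : Continuous fun p : ℝ × ℝ × ℝ × ℝ × ℝ × ℝ => p.2.2.2.2.1 := by fun_prop
  have c6 : Continuous fun p : ℝ × ℝ × ℝ × ℝ × ℝ × ℝ => p.2.2.2.2.2 := by fun_prop
  have c0 : Continuous fun _ : ℝ × ℝ × ℝ × ℝ × ℝ × ℝ => (0 : ℝ) := continuous_const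
  have ce : Continuous fun _ : ℝ × ℝ × ℝ × ℝ × ℝ × ℝ => ε := continuous_const
  have ce' : Continuous fun _ : ℝ × ℝ × ℝ × ℝ × ℝ × ℝ => η - ε := continuous_const
  have cc : Continuous fun _ : ℝ × ℝ × ℝ × ℝ × ℝ × ℝ => (1 : ℝ) := continuous_const
  exact ((isClosed_le c0 c1).inter (isClosed_le c1 cc)).inter
    ((isClosed_le c1 c2).inter ((isClosed_le c2 c1').inter ((isClosed_le h1 ce).inter
    (((isClosed_le c1 c3).inter (isClosed_le c3 c2)).inter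
    (((isClosed_le c1 c4).inter (isClosed_le c4 c2)).inter ((isClosed_le ce' h2).inter
    (((isClosed_le c2 c5).inter (isClosed_le c5 c1')).inter
    (((isClosed_le c2 c6).inter (isClosed_le c6 c1')).inter (isClosed_le ce' h3)))))))))

theorem isCompact_Apx (γ : Loop) (η ε : ℝ) : IsCompact (Apx γ η ε) := by
  have hK : IsCompact (Icc (0 : ℝ) 2 ×ˢ (Icc (0 : ℝ) 2 ×ˢ (Icc (0 : ℝ) 2 ×ˢ (Icc (0 : ℝ) 2 ×ˢ
      (Icc (0 : ℝ) 2 ×ˢ Icc (0 : ℝ) 2))))) :=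
    isCompact_Icc.prod (isCompact_Icc.prod (isCompact_Icc.prod (isCompact_Icc.prod
      (isCompact_Icc.prod isCompact_Icc))))
  refine hK.of_isClosed_subset (isClosed_Apx γ η ε) ?_
  rintro ⟨a, b, c, d, e, f⟩ ⟨⟨h1, h1'⟩, h2, h3, -, ⟨h4, h4'⟩, ⟨h5, h5'⟩, -, ⟨h6, h6'⟩, ⟨h7, h7'⟩, -⟩
  simp only at h1 h1' h2 h3 h4 h4' h5 h5' h6 h6' h7 h7'
  simp only [mem_prod, mem_Icc]
  refine ⟨⟨?_, ?_⟩, ⟨?_, ?_⟩, ⟨?_, ?_⟩, ⟨?_, ?_⟩, ⟨?_, ?_⟩, ?_, ?_⟩ <;> linarith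

theorem nonempty_Apx {γ : Loop} {η ε : ℝ} (hε : 0 < ε) (h : γ ∈ closure (Dbl η)) :
    (Apx γ η ε).Nonempty := by
  obtain ⟨γ', ⟨s, t, hst, hts, he, ⟨x, hx, y, hy, hxy⟩, u, hu, v, hv, huv⟩, hd⟩ :=
    Metric.mem_closure_iff.1 h (ε / 2) (by linarith)
  obtain ⟨r, hr⟩ := exists_rep hd
  have hs := r.symm
  -- pull back the parameters
  have key : ∀ w, dist (γ.f (r.φ.symm w)) (γ'.f w) < ε / 2 := by
    intro w
    have := hr (r.φ.symm w)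
    rwa [r.φ.apply_symm_apply] at this
  have h1 : r.φ.symm (s + 1) = r.φ.symm s + 1 := r.symm.per s
  set k : ℤ := ⌊r.φ.symm s⌋ with hk
  have hmono : ∀ {p p' : ℝ}, p ≤ p' → r.φ.symm p ≤ r.φ.symm p' := fun hp =>
    r.φ.symm.monotone hp
  have hsh : ∀ w, γ.f (r.φ.symm w - k) = γ.f (r.φ.symm w) := by
    intro w
    have := γ.per_int (r.φ.symm w - k) k
    rw [sub_add_cancel] at this
    exact this.symm
  have hdist : ∀ p p', dist (γ'.f p) (γ'.f p') - ε ≤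
      dist (γ.f (r.φ.symm p - k)) (γ.f (r.φ.symm p' - k)) := by
    intro p p'
    rw [hsh, hsh]
    have e1 := key p
    have e2 := key p'
    have e3 := dist_triangle4 (γ'.f p) (γ.f (r.φ.symm p)) (γ.f (r.φ.symm p')) (γ'.f p')
    rw [dist_comm] at e1
    linarith
  refine ⟨(r.φ.symm s - k, r.φ.symm t - k, r.φ.symm x - k, r.φ.symm y - k, r.φ.symm u - k,
    r.φ.symm v - k), ⟨?_, ?_⟩, ?_, ?_, ?_, ⟨?_, ?_⟩, ⟨?_, ?_⟩, ?_, ⟨?_, ?_⟩, ⟨?_, ?_⟩, ?_⟩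
  · have := Int.floor_le (r.φ.symm s)
    simp only
    linarith
  · have := (Int.lt_floor_add_one (r.φ.symm s)).le
    simp only
    linarith
  · exact sub_le_sub_right (hmono hst) _
  · have := hmono hts
    rw [h1] at this
    simp only
    linarith
  · simp only
    rw [hsh, hsh]
    have e1 := key s
    have e2 := key t
    have e3 := dist_triangle4 (γ.f (r.φ.symm s)) (γ'.f s) (γ'.f t) (γ.f (r.φ.symm t))
    rw [he, dist_self, dist_comm (γ'.f t) (γ.f (r.φ.symm t))] at e3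
    rw [he] at e1
    linarith
  · exact sub_le_sub_right (hmono hx.1) _
  · exact sub_le_sub_right (hmono hx.2) _
  · exact sub_le_sub_right (hmono hy.1) _
  · exact sub_le_sub_right (hmono hy.2) _
  · exact (sub_le_sub_right hxy ε).trans (hdist x y)
  · exact sub_le_sub_right (hmono hu.1) _
  · have := hmono hu.2
    rw [h1] at this
    simp only
    linarith
  · exact sub_le_sub_right (hmono hv.1) _
  · have := hmono hv.2
    rw [h1] at this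
    simp only
    linarith
  · exact (sub_le_sub_right huv ε).trans (hdist u v)

/-- The class of curves with a macroscopic double point is closed. -/
theorem isClosed_Dbl (η : ℝ) : IsClosed (Dbl η) := by
  rw [← closure_subset_iff_isClosed]
  intro γ hγ
  have hmono : ∀ i : ℕ, Apx γ η (1 / ((i + 1 : ℕ) + 1)) ⊆ Apx γ η (1 / ((i : ℕ) + 1)) := by
    intro i p hp
    have hle : (1 : ℝ) / (((i + 1 : ℕ) : ℝ) + 1) ≤ 1 / ((i : ℝ) + 1) := by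
      apply one_div_le_one_div_of_le (by positivity)
      push_cast
      linarith
    obtain ⟨h1, h2, h3, h4, h5, h6, h7, h8, h9, h10⟩ := hp
    exact ⟨h1, h2, h3, h4.trans hle, h5, h6, by linarith, h8, h9, by linarith⟩
  obtain ⟨p, hp⟩ := IsCompact.nonempty_iInter_of_sequence_nonempty_isCompact_isClosed
    (fun i : ℕ => Apx γ η (1 / ((i : ℕ) + 1))) hmono
    (fun i => nonempty_Apx (by positivity) hγ) (isCompact_Apx _ _ _) (fun i => isClosed_Apx _ _ _)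
  rw [mem_iInter] at hp
  have hlim : Tendsto (fun i : ℕ => (1 : ℝ) / ((i : ℝ) + 1)) atTop (𝓝 0) :=
    tendsto_one_div_add_atTop_nhds_zero_nat
  obtain ⟨h1, h2, h3, -, h5, h6, -, h8, h9, -⟩ := hp 0
  have h4 : dist (γ.f p.1) (γ.f p.2.1) ≤ 0 := ge_of_tendsto' hlim fun i => (hp i).2.2.2.1
  have h7 : η - 0 ≤ dist (γ.f p.2.2.1) (γ.f p.2.2.2.1) :=
    le_of_tendsto' (hlim.const_sub η) fun i => (hp i).2.2.2.2.2.2.1
  have h10 : η - 0 ≤ dist (γ.f p.2.2.2.2.1) (γ.f p.2.2.2.2.2) :=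
    le_of_tendsto' (hlim.const_sub η) fun i => (hp i).2.2.2.2.2.2.2.2.2
  rw [sub_zero] at h7 h10
  exact ⟨p.1, p.2.1, h2, h3, dist_le_zero.1 h4, ⟨_, h5, _, h6, h7⟩, _, h8, _, h9, h10⟩

theorem not_selfAvoiding_of_mem_Dbl {γ : Loop} {η : ℝ} (hη : 0 < η) (h : γ ∈ Dbl η) :
    ¬ SelfAvoiding γ := by
  rintro ⟨γ', h0, hinj⟩
  have h1 : γ' ∈ Dbl η := by
    rw [← (isClosed_Dbl η).closure_eq, Metric.mem_closure_iff]
    intro ε hε
    exact ⟨γ, h, by rw [dist_comm, h0]; exact hε⟩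
  obtain ⟨s, t, hst, hts, he, ⟨x, hx, y, hy, hxy⟩, u, hu, v, hv, huv⟩ := h1
  obtain ⟨k, hk⟩ := hinj s t he
  have hk0 : (0 : ℝ) ≤ k := by linarith
  have hk1 : (k : ℝ) ≤ 1 := by linarith
  have hk0' : 0 ≤ k := by exact_mod_cast hk0
  have hk1' : k ≤ 1 := by exact_mod_cast hk1
  have hk2 : k = 0 ∨ k = 1 := by omega
  rcases hk2 with rfl | rfl
  · rw [Int.cast_zero, add_zero] at hk
    subst hk
    have e1 : x = t := le_antisymm hx.2 hx.1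
    have e2 : y = t := le_antisymm hy.2 hy.1
    rw [e1, e2, dist_self] at hxy
    linarith
  · rw [Int.cast_one] at hk
    subst hk
    have e1 : u = s + 1 := le_antisymm hu.2 hu.1
    have e2 : v = s + 1 := le_antisymm hv.2 hv.1
    rw [e1, e2, dist_self] at huv
    linarith

end Loop

end Pool.Agent.PercD
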