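import Pool.Agent.Lib.MP_6bd702_percD.CurveTop

/-!
# Cutting closed curves into short arcs: totally bounded classes
-/

set_option autoImplicit false

namespace Pool.Agent.PercD

open Set Filter Topology MeasureTheory TopologicalSpace

/-! ### Linear interpolation -/

/-- Linear interpolation of a sequence of real numbers. -/
noncomputable def lin (t : ℤ → ℝ) (x : ℝ) : ℝ :=
  t ⌊x⌋ + Int.fract x * (t (⌊x⌋ + 1) - t ⌊x⌋)

theorem lin_int (t : ℤ → ℝ) (k : ℤ) : lin t k = t k := by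
  unfold lin
  rw [Int.floor_intCast, Int.fract_intCast, zero_mul, add_zero]

theorem lin_ge {t : ℤ → ℝ} (ht : StrictMono t) (x : ℝ) : t ⌊x⌋ ≤ lin t x := by
  have h1 : t ⌊x⌋ < t (⌊x⌋ + 1) := ht (by omega)
  have h2 := mul_nonneg (Int.fract_nonneg x) (sub_nonneg.2 h1.le)
  unfold lin
  linarith

theorem lin_lt {t : ℤ → ℝ} (ht : StrictMono t) (x : ℝ) : lin t x < t (⌊x⌋ + 1) := by
  have h1 : t ⌊x⌋ < t (⌊x⌋ + 1) := ht (by omega)
  have h2 := mul_lt_mul_of_pos_right (Int.fract_lt_one x) (sub_pos.2 h1)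
  unfold lin
  linarith

theorem lin_strictMono {t : ℤ → ℝ} (ht : StrictMono t) : StrictMono (lin t) := by
  intro x y hxy
  rcases (Int.floor_mono hxy.le).lt_or_eq with h | h
  · calc lin t x < t (⌊x⌋ + 1) := lin_lt ht x
      _ ≤ t ⌊y⌋ := ht.monotone (by omega)
      _ ≤ lin t y := lin_ge ht y
  · unfold lin
    rw [← h]
    have h1 : t ⌊x⌋ < t (⌊x⌋ + 1) := ht (by omega)
    have h2 : Int.fract x < Int.fract y := by
      unfold Int.fract
      rw [← h]
      linarith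
    have h3 := mul_lt_mul_of_pos_right h2 (sub_pos.2 h1)
    linarith

variable {t t' : ℤ → ℝ} {m : ℕ}

theorem per_mul (hper : ∀ i, t (i + m) = t i + 1) (i k : ℤ) : t (i + k * m) = t i + k := by
  have hnat : ∀ (i : ℤ) (k : ℕ), t (i + k * m) = t i + k := by
    intro i k
    induction k with
    | zero => simp
    | succ k ih =>
      have h1 : i + ((k + 1 : ℕ) : ℤ) * m = (i + k * m) + m := by push_cast; ring
      rw [h1, hper, ih]
      push_cast
      ring
  obtain ⟨n, rfl | rfl⟩ := k.eq_nat_or_neg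
  · exact_mod_cast hnat i n
  · have h1 := hnat (i + (-(n : ℤ)) * m) n
    have h2 : i + (-(n : ℤ)) * m + n * m = i := by ring
    rw [h2] at h1
    push_cast
    linarith

theorem lin_add (hper : ∀ i, t (i + m) = t i + 1) (x : ℝ) : lin t (x + m) = lin t x + 1 := by
  unfold lin
  have h1 : x + (m : ℝ) = x + ((m : ℤ) : ℝ) := by push_cast; rfl
  rw [h1, Int.floor_add_intCast, Int.fract_add_intCast]
  have h2 : ⌊x⌋ + (m : ℤ) + 1 = (⌊x⌋ + 1) + m := by ring
  rw [h2, hper, hper]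
  ring

theorem lin_surj (ht : StrictMono t) (hper : ∀ i, t (i + m) = t i + 1) :
    Function.Surjective (lin t) := by
  intro y
  set k : ℤ := ⌊y - t 0⌋ with hk
  have h1 : t (0 + k * m) ≤ y := by
    rw [per_mul hper]
    have := Int.floor_le (y - t 0)
    rw [← hk] at this
    linarith
  have h2 : y < t (0 + (k + 1) * m) := by
    rw [per_mul hper]
    have := Int.lt_floor_add_one (y - t 0)
    rw [← hk] at this
    push_cast
    linarith
  obtain ⟨i, hi, hmax⟩ := Int.exists_greatest_of_bdd (P := fun i => t i ≤ y)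
    ⟨0 + (k + 1) * m, fun z hz => by
      by_contra hcon
      have := ht.monotone (not_le.1 hcon).le
      linarith⟩ ⟨_, h1⟩
  have h3 : y < t (i + 1) := by
    by_contra hcon
    have := hmax (i + 1) (not_lt.1 hcon)
    omega
  have h4 : 0 < t (i + 1) - t i := sub_pos.2 (ht (by omega))
  set s : ℝ := (y - t i) / (t (i + 1) - t i) with hs
  have hs0 : 0 ≤ s := div_nonneg (by linarith) h4.le
  have hs1 : s < 1 := by
    rw [hs, div_lt_one h4]
    linarith
  have hf : ⌊(i : ℝ) + s⌋ = i := by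
    rw [Int.floor_eq_iff]
    constructor <;> linarith
  refine ⟨i + s, ?_⟩
  unfold lin
  rw [← Int.self_sub_floor, hf, add_sub_cancel_left, hs, div_mul_cancel₀ _ h4.ne']
  ring

/-- The change of parameter which maps `t i` to `t' i`. -/
noncomputable def repOf (ht : StrictMono t) (hper : ∀ i, t (i + m) = t i + 1)
    (ht' : StrictMono t') (hper' : ∀ i, t' (i + m) = t' i + 1) : Rep where
  φ := ((lin_strictMono ht).orderIsoOfSurjective _ (lin_surj ht hper)).symm.trans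
    ((lin_strictMono ht').orderIsoOfSurjective _ (lin_surj ht' hper'))
  per x := by
    set A := (lin_strictMono ht).orderIsoOfSurjective _ (lin_surj ht hper) with hA
    set B := (lin_strictMono ht').orderIsoOfSurjective _ (lin_surj ht' hper') with hB
    have hA' : ∀ z, A z = lin t z := fun z => rfl
    have hB' : ∀ z, B z = lin t' z := fun z => rfl
    have h1 : A.symm (x + 1) = A.symm x + m := by
      rw [A.symm_apply_eq, hA', lin_add hper, ← hA', A.apply_symm_apply]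
    rw [OrderIso.trans_apply, OrderIso.trans_apply, h1, hB', lin_add hper', ← hB']

theorem repOf_apply (ht : StrictMono t) (hper : ∀ i, t (i + m) = t i + 1)
    (ht' : StrictMono t') (hper' : ∀ i, t' (i + m) = t' i + 1) (i : ℤ) :
    (repOf ht hper ht' hper').φ (t i) = t' i := by
  have h1 : ((lin_strictMono ht).orderIsoOfSurjective _ (lin_surj ht hper)).symm (t i) = i := by
    rw [OrderIso.symm_apply_eq]
    exact (lin_int t i).symm
  show ((lin_strictMono ht').orderIsoOfSurjective _ (lin_surj ht' hper'))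
    (((lin_strictMono ht).orderIsoOfSurjective _ (lin_surj ht hper)).symm (t i)) = t' i
  rw [h1]
  exact lin_int t' i

theorem exists_cell_idx (ht : StrictMono t) (hper : ∀ i, t (i + m) = t i + 1) (x : ℝ) :
    ∃ i, x ∈ Icc (t i) (t (i + 1)) := by
  obtain ⟨y, rfl⟩ := lin_surj ht hper x
  exact ⟨⌊y⌋, lin_ge ht y, (lin_lt ht y).le⟩

namespace Loop

/-- The closed curves which can be cut into `m` arcs, each in the ball of radius `κ` around its
first point. -/
def Cut (κ : ℝ) (m : ℕ) : Set Loop :=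
  {γ | ∃ t : ℤ → ℝ, StrictMono t ∧ (∀ i, t (i + m) = t i + 1) ∧
    ∀ i, ∀ x ∈ Icc (t i) (t (i + 1)), dist (γ.f (t i)) (γ.f x) ≤ κ}

theorem Cut.mono {κ κ' : ℝ} (h : κ ≤ κ') {m : ℕ} : Cut κ m ⊆ Cut κ' m := by
  rintro γ ⟨t, h1, h2, h3⟩
  exact ⟨t, h1, h2, fun i x hx => (h3 i x hx).trans h⟩

/-- Two curves with near cut points are near. -/
theorem dist_le_of_cuts {γ γ' : Loop} {κ δ : ℝ} (ht : StrictMono t)
    (hper : ∀ i, t (i + m) = t i + 1)
    (hc : ∀ i, ∀ x ∈ Icc (t i) (t (i + 1)), dist (γ.f (t i)) (γ.f x) ≤ κ)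
    (ht' : StrictMono t') (hper' : ∀ i, t' (i + m) = t' i + 1)
    (hc' : ∀ i, ∀ x ∈ Icc (t' i) (t' (i + 1)), dist (γ'.f (t' i)) (γ'.f x) ≤ κ)
    (hd : ∀ i, dist (γ.f (t i)) (γ'.f (t' i)) ≤ δ) : dist γ γ' ≤ κ + δ + κ := by
  refine dist_le (repOf ht hper ht' hper') fun x => ?_
  obtain ⟨i, hi⟩ := exists_cell_idx ht hper x
  have h1 := hc i x hi
  have h2 : (repOf ht hper ht' hper').φ x ∈ Icc (t' i) (t' (i + 1)) := by
    rw [← repOf_apply ht hper ht' hper' i, ← repOf_apply ht hper ht' hper' (i + 1)]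
    exact ⟨(repOf ht hper ht' hper').φ.monotone hi.1, (repOf ht hper ht' hper').φ.monotone hi.2⟩
  have h3 := hc' i _ h2
  have h4 := dist_triangle4 (γ.f x) (γ.f (t i)) (γ'.f (t' i))
    (γ'.f ((repOf ht hper ht' hper').φ x))
  rw [dist_comm (γ.f x) (γ.f (t i))] at h4
  linarith [hd i]

/-- The index of a point in the grid of mesh `κ`. -/
noncomputable def gr (κ : ℝ) (z : ℂ) : ℤ × ℤ := (⌊z.re / κ⌋, ⌊z.im / κ⌋)

theorem dist_le_of_gr {κ : ℝ} (hκ : 0 < κ) {z w : ℂ} (h : gr κ z = gr κ w) :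
    dist z w ≤ 2 * κ := by
  have key : ∀ a b : ℝ, ⌊a / κ⌋ = ⌊b / κ⌋ → |a - b| ≤ κ := by
    intro a b hab
    have h1 := Int.floor_le (a / κ)
    have h2 := Int.lt_floor_add_one (a / κ)
    have h3 := Int.floor_le (b / κ)
    have h4 := Int.lt_floor_add_one (b / κ)
    rw [hab] at h1 h2
    have h5 : |a / κ - b / κ| ≤ 1 := by
      rw [abs_le]
      constructor <;> linarith
    rw [← sub_div, abs_div, abs_of_pos hκ, div_le_one hκ] at h5
    exact h5
  have h1 := key z.re w.re (congrArg Prod.fst h)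
  have h2 := key z.im w.im (congrArg Prod.snd h)
  calc dist z w = ‖z - w‖ := dist_eq_norm _ _
    _ ≤ |(z - w).re| + |(z - w).im| := Complex.norm_le_abs_re_add_abs_im _
    _ ≤ 2 * κ := by
      rw [Complex.sub_re, Complex.sub_im]
      linarith

theorem gr_mem {κ R : ℝ} (hκ : 0 < κ) {z : ℂ} (h : ‖z‖ ≤ R) :
    (gr κ z).1 ∈ Icc ⌊-R / κ⌋ ⌊R / κ⌋ ∧ (gr κ z).2 ∈ Icc ⌊-R / κ⌋ ⌊R / κ⌋ := by
  have h1 := abs_le.1 ((Complex.abs_re_le_norm z).trans h)
  have h2 := abs_le.1 ((Complex.abs_im_le_norm z).trans h)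
  exact ⟨⟨Int.floor_mono (div_le_div_of_nonneg_right h1.1 hκ.le),
    Int.floor_mono (div_le_div_of_nonneg_right h1.2 hκ.le)⟩,
    ⟨Int.floor_mono (div_le_div_of_nonneg_right h2.1 hκ.le),
    Int.floor_mono (div_le_div_of_nonneg_right h2.2 hκ.le)⟩⟩

/-- Classes of bounded curves with uniformly bounded numbers of arcs are totally bounded. -/
theorem totallyBounded_cut (R : ℝ) (M : ℝ → ℕ) :
    TotallyBounded {γ : Loop | (∀ x, ‖γ.f x‖ ≤ R) ∧ ∀ κ, 0 < κ → ∃ m ≤ M κ, γ ∈ Cut κ m} := by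
  refine Metric.totallyBounded_of_finite_discretization fun ε hε => ?_
  set κ : ℝ := ε / 5 with hκd
  have hκ : 0 < κ := by positivity
  have hex : ∀ γ : {γ : Loop | (∀ x, ‖γ.f x‖ ≤ R) ∧ ∀ κ, 0 < κ → ∃ m ≤ M κ, γ ∈ Cut κ m},
      ∃ (m : ℕ) (t : ℤ → ℝ), m ≤ M κ ∧ StrictMono t ∧ (∀ i, t (i + m) = t i + 1) ∧
      ∀ i, ∀ x ∈ Icc (t i) (t (i + 1)), dist (γ.1.f (t i)) (γ.1.f x) ≤ κ := by
    intro γ
    obtain ⟨m, hm, t, h1, h2, h3⟩ := γ.2.2 κ hκ
    exact ⟨m, t, hm, h1, h2, h3⟩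
  choose m t hm ht hper hc using hex
  refine ⟨Fin (M κ + 1) × (Fin (M κ) → Icc ⌊-R / κ⌋ ⌊R / κ⌋ × Icc ⌊-R / κ⌋ ⌊R / κ⌋),
    inferInstance, fun γ => (⟨m γ, Nat.lt_succ_of_le (hm γ)⟩, fun i =>
      (⟨(gr κ (γ.1.f (t γ i))).1, (gr_mem hκ (γ.2.1 _)).1⟩,
        ⟨(gr κ (γ.1.f (t γ i))).2, (gr_mem hκ (γ.2.1 _)).2⟩)), fun γ γ' hF => ?_⟩
  rw [Prod.mk.injEq, Fin.mk.injEq] at hF
  obtain ⟨hmm, hF⟩ := hF
  have hper' : ∀ i, t γ' (i + (m γ : ℕ)) = t γ' i + 1 := by
    rw [hmm]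
    exact hper γ'
  have hm0 : 0 < m γ := by
    rcases Nat.eq_zero_or_pos (m γ) with h | h
    · have := hper γ 0
      rw [h] at this
      simp at this
    · exact h
  have hd : ∀ i, dist (γ.1.f (t γ i)) (γ'.1.f (t γ' i)) ≤ 2 * κ := by
    intro i
    have hi0 : 0 ≤ i % (m γ : ℤ) := Int.emod_nonneg _ (by omega)
    have hi1 : i % (m γ : ℤ) < m γ := Int.emod_lt_of_pos _ (by omega)
    obtain ⟨j, hj⟩ := Int.eq_ofNat_of_zero_le hi0
    have hjlt : j < M κ := by
      have := hm γ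
      omega
    have e1 : i = (j : ℤ) + i / (m γ : ℤ) * m γ := by
      rw [← hj]
      have := Int.emod_add_mul_ediv i (m γ : ℤ)
      linarith
    have h1 := congrFun hF ⟨j, hjlt⟩
    simp only [Prod.mk.injEq, Subtype.mk.injEq] at h1
    have h2 : gr κ (γ.1.f (t γ j)) = gr κ (γ'.1.f (t γ' j)) := Prod.ext h1.1 h1.2
    rw [e1, per_mul (hper γ), per_mul hper', γ.1.per_int, γ'.1.per_int]
    exact dist_le_of_gr hκ h2
  have := dist_le_of_cuts (ht γ) (hper γ) (hc γ) (ht γ') hper' (hc γ') hd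
  have h5 : κ + 2 * κ + κ < ε := by
    rw [hκd]
    linarith
  exact this.trans_lt h5

/-- A cut given by finitely many points. -/
theorem mem_cut_of_nat {γ : Loop} {κ : ℝ} {m : ℕ} (hm : 0 < m) (s : ℕ → ℝ)
    (hs : ∀ i < m, s i < s (i + 1)) (hsm : s m = s 0 + 1)
    (hc : ∀ i < m, ∀ x ∈ Icc (s i) (s (i + 1)), dist (γ.f (s i)) (γ.f x) ≤ κ) : γ ∈ Cut κ m := by
  have hmz : (0 : ℤ) < m := by exact_mod_cast hm
  set t : ℤ → ℝ := fun i => s (i % (m : ℤ)).toNat + ((i / (m : ℤ) : ℤ) : ℝ) with ht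
  have key : ∀ i : ℤ, ∃ j : ℕ, j < m ∧ ∃ q : ℤ, t i = s j + q ∧ t (i + 1) = s (j + 1) + q := by
    intro i
    have hi0 : 0 ≤ i % (m : ℤ) := Int.emod_nonneg _ (by omega)
    have hi1 : i % (m : ℤ) < m := Int.emod_lt_of_pos _ (by omega)
    obtain ⟨j, hj⟩ := Int.eq_ofNat_of_zero_le hi0
    have hjm : j < m := by omega
    refine ⟨j, hjm, i / (m : ℤ), ?_, ?_⟩
    · simp only [ht]
      rw [hj]
      rfl
    · simp only [ht]
      have e1 : i + 1 = ((j : ℤ) + 1) + i / (m : ℤ) * m := by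
        have := Int.emod_add_mul_ediv i (m : ℤ)
        rw [hj] at this
        linarith
      rcases Nat.lt_or_ge (j + 1) m with h | h
      · have h1 : (i + 1) % (m : ℤ) = ((j + 1 : ℕ) : ℤ) := by
          rw [e1, Int.add_mul_emod_self_right]
          push_cast
          exact Int.emod_eq_of_lt (by omega) (by omega)
        have h2 : (i + 1) / (m : ℤ) = i / (m : ℤ) := by
          conv_lhs => rw [e1]
          rw [Int.add_mul_ediv_right _ _ hmz.ne', Int.ediv_eq_zero_of_lt (by omega) (by omega),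
            zero_add]
        rw [h1, h2]
        rfl
      · have hjm' : j + 1 = m := by omega
        have e2 : ((j : ℤ) + 1) = m := by exact_mod_cast hjm'
        have h1 : (i + 1) % (m : ℤ) = 0 := by
          rw [e1, Int.add_mul_emod_self_right, e2, Int.emod_self]
        have h2 : (i + 1) / (m : ℤ) = i / (m : ℤ) + 1 := by
          conv_lhs => rw [e1]
          rw [Int.add_mul_ediv_right _ _ hmz.ne', e2, Int.ediv_self hmz.ne']
          ring
        rw [h1, h2, hjm', hsm]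
        push_cast
        ring
  refine ⟨t, strictMono_int_of_lt_succ fun i => ?_, fun i => ?_, fun i x hx => ?_⟩
  · obtain ⟨j, hj, q, h1, h2⟩ := key i
    rw [h1, h2]
    linarith [hs j hj]
  · simp only [ht]
    rw [Int.add_emod_right, Int.add_ediv_of_dvd_right (dvd_refl _), Int.ediv_self hmz.ne']
    push_cast
    ring
  · obtain ⟨j, hj, q, h1, h2⟩ := key i
    rw [h1, h2] at hx
    rw [h1, γ.per_int]
    have h3 := hc j hj (x - q) ⟨by linarith [hx.1], by linarith [hx.2]⟩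
    have h4 := γ.per_int (x - q) q
    rw [sub_add_cancel] at h4
    rwa [h4]

/-- Every closed curve can be cut into finitely many short arcs. -/
theorem exists_cut (γ : Loop) {κ : ℝ} (hκ : 0 < κ) : ∃ m, γ ∈ Cut κ m := by
  have huc : UniformContinuousOn γ.f (Icc 0 1) :=
    isCompact_Icc.uniformContinuousOn_of_continuous γ.cont.continuousOn
  rw [Metric.uniformContinuousOn_iff_le] at huc
  obtain ⟨δ, hδ, h⟩ := huc κ hκ
  obtain ⟨m, hm⟩ := exists_nat_one_div_lt hδ
  have hm1 : (0 : ℝ) < ((m + 1 : ℕ) : ℝ) := by positivity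
  refine ⟨m + 1, mem_cut_of_nat (Nat.succ_pos m) (fun i => i / ((m + 1 : ℕ) : ℝ))
    (fun i _ => ?_) ?_ fun i hi x hx => ?_⟩
  · refine div_lt_div_of_pos_right ?_ hm1
    exact_mod_cast Nat.lt_succ_self i
  · simp only [Nat.cast_zero, zero_div, zero_add]
    exact div_self hm1.ne'
  · have e1 : ((i + 1 : ℕ) : ℝ) / ((m + 1 : ℕ) : ℝ) = i / ((m + 1 : ℕ) : ℝ) + 1 / (m + 1) := by
      push_cast
      rw [add_div]
    have h0 : (0 : ℝ) ≤ i / ((m + 1 : ℕ) : ℝ) := by positivity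
    have h1 : ((i + 1 : ℕ) : ℝ) / ((m + 1 : ℕ) : ℝ) ≤ 1 := by
      rw [div_le_one hm1]
      exact_mod_cast hi
    have hx1 := hx.1
    have hx2 := hx.2
    refine h _ ⟨h0, by linarith⟩ _ ⟨by linarith, by linarith⟩ ?_
    rw [dist_comm, Real.dist_eq, abs_of_nonneg (by linarith)]
    rw [e1] at hx2
    linarith

end Loop

end Pool.Agent.PercD
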