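import Pool.Agent.Lib.MP_6bd702_percD.Frontier
import Pool.Agent.Lib.MP_6bd702_percD.Targets

/-!
# From the traces and the double points to the curves
-/

set_option autoImplicit false

namespace Pool.Agent.PercD

open Set Filter Topology MeasureTheory TopologicalSpace
open Pool.Agent.Perc

/-- Weak convergence of the laws of the rescaled outer perimeters, as closed curves, along `φ`. -/
def LimitCurve (sel : ℕ → Finset Edg → ℤ × ℤ) (φ : ℕ → ℕ) (μ : Measure Curve) : Prop :=
  ∀ F : BoundedContinuousFunction Curve ℝ,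
    Tendsto (fun k => exB (φ k) fun T => F (outerCurve (φ k) T (sel (φ k) T))) atTop
      (𝓝 (∫ c, F c ∂μ))

/-- Almost surely for every subsequential limit law, the trace has dimension `7 / 4` and the curve
is not self-avoiding. -/
def TargetCurve : Prop := ∀ (sel : ℕ → Finset Edg → ℤ × ℤ) (φ : ℕ → ℕ) (μ : Measure Curve)
  [IsProbabilityMeasure μ], (∀ n, IsSel n (sel n)) → StrictMono φ → LimitCurve sel φ μ →
    ∀ᵐ c : Curve ∂μ, dimH (c.trace : Set ℂ) = 7 / 4 ∧ ¬ c.SelfAvoiding

/-- Macroscopic double points: the outer perimeter passes through some vertex twice, with both arcs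
of diameter at least `η n`, with high probability. -/
def TargetDbl : Prop := ∀ ε : ℝ, 0 < ε → ∃ η : ℝ, 0 < η ∧ ∀ sel : ℕ → Finset Edg → ℤ × ℤ,
  (∀ n, IsSel n (sel n)) → ∀ᶠ n : ℕ in atTop,
    prB n {T | outerLoop n T (sel n T) ∉ Loop.Dbl η} ≤ ε

/-! ### Expectations -/

theorem exB_le_of {n : ℕ} {f g : Finset Edg → ℝ} (h : ∀ T ⊆ boxE n, f T ≤ g T) :
    exB n f ≤ exB n g := by
  unfold exB
  refine div_le_div_of_nonneg_right (Finset.sum_le_sum fun T hT => ?_) (by positivity)
  exact h T (Finset.mem_powerset.1 hT)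

theorem exB_congr_of {n : ℕ} {f g : Finset Edg → ℝ} (h : ∀ T ⊆ boxE n, f T = g T) :
    exB n f = exB n g :=
  le_antisymm (exB_le_of fun T hT => (h T hT).le) (exB_le_of fun T hT => (h T hT).ge)

open Classical in
theorem one_sub_prB (n : ℕ) (A : Set (Finset Edg)) :
    exB n (fun T => if T ∈ A then 0 else 1) = 1 - prB n A := by
  unfold exB prB
  have h2 : (2 : ℝ) ^ (boxE n).card ≠ 0 := by positivity
  have h3 : ∑ T ∈ (boxE n).powerset, (if T ∈ A then (0 : ℝ) else 1)
      = ∑ T ∈ (boxE n).powerset, (1 - if T ∈ A then (1 : ℝ) else 0) := by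
    refine Finset.sum_congr rfl fun T _ => ?_
    split_ifs <;> norm_num
  rw [h3, Finset.sum_sub_distrib, Finset.sum_const, Finset.card_powerset, nsmul_eq_mul, mul_one,
    Finset.sum_boole, sub_div]
  push_cast
  rw [div_self h2]

/-! ### Closed sets -/

section Closed

variable {Ω : Type*} [TopologicalSpace Ω] [HasOuterApproxClosed Ω] [MeasurableSpace Ω]
  [OpensMeasurableSpace Ω]

/-- Portmanteau, for a closed set of almost full probability. -/
theorem measure_compl_le {g : ℕ → Finset Edg → Ω} {φ : ℕ → ℕ} (hφ : StrictMono φ)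
    {μ : Measure Ω} [IsProbabilityMeasure μ]
    (hlim : ∀ F : BoundedContinuousFunction Ω ℝ,
      Tendsto (fun k => exB (φ k) fun T => F (g (φ k) T)) atTop (𝓝 (∫ c, F c ∂μ)))
    {D : Set Ω} (hD : IsClosed D) {ε : ℝ}
    (h : ∀ᶠ n : ℕ in atTop, prB n {T | g n T ∉ D} ≤ ε) : μ Dᶜ ≤ ENNReal.ofReal ε := by
  have hmeas : MeasurableSet D := hD.measurableSet
  -- lower bound for the approximations
  have key : ∀ i, ENNReal.ofReal (1 - ε) ≤ ∫⁻ x, (hD.apprSeq i x : ENNReal) ∂μ := by
    intro i
    set F : BoundedContinuousFunction Ω ℝ := BoundedContinuousFunction.mkOfBound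
      ⟨fun x => ((hD.apprSeq i x : NNReal) : ℝ), by fun_prop⟩ 1 (by
        intro x y
        have hx := HasOuterApproxClosed.apprSeq_apply_le_one hD i x
        have hy := HasOuterApproxClosed.apprSeq_apply_le_one hD i y
        have hx' : ((hD.apprSeq i x : NNReal) : ℝ) ≤ 1 := by exact_mod_cast hx
        have hy' : ((hD.apprSeq i y : NNReal) : ℝ) ≤ 1 := by exact_mod_cast hy
        have hx0 : 0 ≤ ((hD.apprSeq i x : NNReal) : ℝ) := NNReal.coe_nonneg _
        have hy0 : 0 ≤ ((hD.apprSeq i y : NNReal) : ℝ) := NNReal.coe_nonneg _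
        simp only [ContinuousMap.coe_mk]
        rw [Real.dist_eq, abs_le]
        constructor <;> linarith) with hF
    have hFx : ∀ x, F x = ((hD.apprSeq i x : NNReal) : ℝ) := fun x => rfl
    have h1 : 1 - ε ≤ ∫ c, F c ∂μ := by
      refine ge_of_tendsto (hlim F) ?_
      filter_upwards [hφ.tendsto_atTop.eventually h] with k hk
      obtain ⟨A, hA⟩ : ∃ A : Set (Finset Edg), A = {T | g (φ k) T ∉ D} := ⟨_, rfl⟩
      rw [← hA] at hk
      refine le_trans (show 1 - ε ≤ 1 - prB (φ k) A by linarith) ?_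
      rw [← one_sub_prB]
      refine exB_le_of fun T _ => ?_
      rw [hFx]
      by_cases hT : g (φ k) T ∈ D
      · rw [if_neg (by rw [hA, mem_ofPred_eq, not_not]; exact hT),
          HasOuterApproxClosed.apprSeq_apply_eq_one hD i hT]
        exact le_rfl
      · rw [if_pos (by rw [hA, mem_ofPred_eq]; exact hT)]
        exact NNReal.coe_nonneg _
    have h2 : ∫⁻ x, (hD.apprSeq i x : ENNReal) ∂μ = ENNReal.ofReal (∫ c, F c ∂μ) := by
      rw [ofReal_integral_eq_lintegral_ofReal (F.integrable μ)
        (Eventually.of_forall fun x => by rw [hFx]; exact NNReal.coe_nonneg _)]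
      refine lintegral_congr fun x => ?_
      rw [hFx, ENNReal.ofReal_coe_nnreal]
    rw [h2]
    exact ENNReal.ofReal_le_ofReal h1
  have h3 : ENNReal.ofReal (1 - ε) ≤ μ D :=
    ge_of_tendsto' (HasOuterApproxClosed.tendsto_lintegral_apprSeq hD μ) key
  rw [prob_compl_eq_one_sub hmeas]
  refine tsub_le_iff_left.2 ?_
  calc (1 : ENNReal) = ENNReal.ofReal 1 := ENNReal.ofReal_one.symm
    _ ≤ ENNReal.ofReal (1 - ε + ε) := by rw [sub_add_cancel]
    _ ≤ ENNReal.ofReal (1 - ε) + ENNReal.ofReal ε := ENNReal.ofReal_add_le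
    _ ≤ _ := add_le_add h3 le_rfl

end Closed

/-! ### The theorem -/

theorem limitLaw_of_limitCurve {sel : ℕ → Finset Edg → ℤ × ℤ} {φ : ℕ → ℕ} {μ : Measure Curve}
    [IsProbabilityMeasure μ] [MeasurableSpace (NonemptyCompacts ℂ)]
    [BorelSpace (NonemptyCompacts ℂ)] (h : LimitCurve sel φ μ) :
    LimitLaw sel φ (μ.map Curve.trace) := by
  intro F
  have hm : Measurable Curve.trace := Curve.continuous_trace.measurable
  rw [integral_map hm.aemeasurable F.continuous.measurable.aestronglyMeasurable]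
  have h1 := h (F.compContinuous ⟨Curve.trace, Curve.continuous_trace⟩)
  refine h1.congr fun k => ?_
  refine exB_congr_of fun T hT => ?_
  rw [BoundedContinuousFunction.compContinuous_apply]
  congr 1
  exact trace_outerLoop hT

/-- The theorem for curves from the theorem for traces and the double points. -/
theorem targetCurve_of (h1 : TargetTrace) (h2 : TargetDbl) : TargetCurve := by
  intro sel φ μ _ hsel hφ hlim
  have hA : ∀ᵐ c : Curve ∂μ, dimH (c.trace : Set ℂ) = 7 / 4 := by
    let _ : MeasurableSpace (NonemptyCompacts ℂ) := borel _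
    have : BorelSpace (NonemptyCompacts ℂ) := ⟨rfl⟩
    have hm : Measurable Curve.trace := Curve.continuous_trace.measurable
    have : IsProbabilityMeasure (μ.map Curve.trace) :=
      Measure.isProbabilityMeasure_map hm.aemeasurable
    have h3 := h1 sel φ (μ.map Curve.trace) hsel hφ (limitLaw_of_limitCurve hlim)
    exact ae_of_ae_map hm.aemeasurable h3
  have hB : ∀ᵐ c : Curve ∂μ, ¬ c.SelfAvoiding := by
    rw [ae_iff]
    simp only [not_not]
    refine le_antisymm (ENNReal.le_of_forall_pos_le_add fun ε hε _ => ?_) (zero_le)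
    rw [zero_add]
    obtain ⟨η, hη, h4⟩ := h2 ε (by exact_mod_cast hε)
    have h5 : μ (Curve.Dbl η)ᶜ ≤ ENNReal.ofReal ε := by
      refine measure_compl_le (g := fun n T => outerCurve n T (sel n T)) hφ hlim
        (Curve.isClosed_Dbl η) ?_
      filter_upwards [h4 sel hsel] with n hn
      refine le_trans (le_of_eq ?_) hn
      congr 1
      ext T
      rw [mem_ofPred_eq, mem_ofPred_eq, outerCurve, Curve.mk_mem_Dbl]
    rw [ENNReal.ofReal_coe_nnreal] at h5
    exact (measure_mono fun c hc hD => Curve.not_selfAvoiding hη hD hc).trans h5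
  filter_upwards [hA, hB] with c hc1 hc2 using ⟨hc1, hc2⟩

end Pool.Agent.PercD
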