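import Pool.Agent.Lib.MP_6bd702_percD.CurveTight
import Pool.Agent.Lib.MP_6bd702_percD.CurveFinal
import Pool.Agent.Lib.MP_6bd702_percD.Assembly

/-!
# Tightness of the outer perimeters in the curve metric, from the numbers of arcs
-/

set_option autoImplicit false

namespace Pool.Agent.PercD

open Set Filter Topology MeasureTheory TopologicalSpace
open Pool.Agent.Perc
open Pool.Agent.Perc.PercD (two_pow_ne_zero two_pow_ne_top)
open scoped ENNReal NNReal

/-- The numbers of arcs of the rescaled outer perimeters are bounded in probability. -/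
def TargetCuts : Prop := ∀ κ ε : ℝ, 0 < κ → 0 < ε → ∃ M : ℕ, ∀ sel : ℕ → Finset Edg → ℤ × ℤ,
  (∀ n, IsSel n (sel n)) → ∀ᶠ n : ℕ in atTop,
    prB n {T | ¬ ∃ m ≤ M, outerLoop n T (sel n T) ∈ Loop.Cut κ m} ≤ ε

/-- The laws of the rescaled outer perimeters are tight in the curve metric. -/
def TargetTight : Prop := ∀ sel : ℕ → Finset Edg → ℤ × ℤ, (∀ n, IsSel n (sel n)) →
  IsTightMeasureSet (range fun n => lawC n (sel n))

/-- Every sequence of scales has a subsequence along which the laws converge. -/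
def TargetExist : Prop := ∀ sel : ℕ → Finset Edg → ℤ × ℤ, (∀ n, IsSel n (sel n)) →
  ∀ φ : ℕ → ℕ, ∃ ψ : ℕ → ℕ, StrictMono ψ ∧
    ∃ μ : Measure Curve, IsProbabilityMeasure μ ∧ LimitCurve sel (φ ∘ ψ) μ

theorem integral_lawC (n : ℕ) (sel : Finset Edg → ℤ × ℤ)
    (F : BoundedContinuousFunction Curve ℝ) :
    ∫ x, F x ∂(lawC n sel) = exB n (fun T => F (outerCurve n T (sel T))) := by
  unfold lawC exB
  rw [integral_finsetSum_measure]
  · simp only [integral_smul_measure]
    rw [Finset.sum_div]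
    refine Finset.sum_congr rfl fun T _ => ?_
    rw [integral_dirac' _ _ F.continuous.stronglyMeasurable]
    rw [ENNReal.toReal_inv, ENNReal.toReal_pow, ENNReal.toReal_ofNat, smul_eq_mul]
    ring
  · intro T _
    refine Integrable.smul_measure ?_ (ENNReal.inv_ne_top.2 (two_pow_ne_zero _))
    exact F.integrable _

theorem lawC_apply (n : ℕ) (sel : Finset Edg → ℤ × ℤ) {A : Set Curve} (hA : MeasurableSet A) :
    lawC n sel A = ENNReal.ofReal (prB n {T | outerCurve n T (sel T) ∈ A}) := by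
  classical
  unfold lawC prB
  rw [Measure.finsetSum_apply]
  simp only [Measure.smul_apply, Measure.dirac_apply' _ hA, smul_eq_mul]
  rw [← Finset.mul_sum]
  have h1 : ∑ T ∈ (boxE n).powerset, A.indicator (1 : Curve → ℝ≥0∞) (outerCurve n T (sel T)) =
      (((boxE n).powerset.filter fun T => T ∈ {T | outerCurve n T (sel T) ∈ A}).card : ℝ≥0∞) := by
    rw [Finset.card_filter]
    push_cast
    refine Finset.sum_congr rfl fun T _ => ?_
    simp [Set.indicator_apply]
  rw [h1, ENNReal.ofReal_div_of_pos (by positivity), ENNReal.ofReal_natCast,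
    ENNReal.ofReal_pow (by norm_num), ENNReal.ofReal_ofNat, div_eq_mul_inv, mul_comm]

/-- Countable subadditivity. -/
theorem prB_iUnion_le (n : ℕ) (A : Set (Finset Edg)) (B : ℕ → Set (Finset Edg))
    (h : ∀ T ⊆ boxE n, T ∈ A → ∃ j, T ∈ B j) :
    ENNReal.ofReal (prB n A) ≤ ∑' j, ENNReal.ofReal (prB n (B j)) := by
  classical
  let _ : MeasurableSpace (Finset Edg) := ⊤
  let μ : Measure (Finset Edg) :=
    ∑ T ∈ (boxE n).powerset, ((2 : ℝ≥0∞) ^ (boxE n).card)⁻¹ • Measure.dirac T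
  have hμ : ∀ A : Set (Finset Edg), μ A = ENNReal.ofReal (prB n A) := by
    intro A
    show (∑ T ∈ (boxE n).powerset, ((2 : ℝ≥0∞) ^ (boxE n).card)⁻¹ • Measure.dirac T) A = _
    unfold prB
    rw [Measure.finsetSum_apply]
    simp only [Measure.smul_apply, Measure.dirac_apply' _ (show MeasurableSet A from trivial),
      smul_eq_mul]
    rw [← Finset.mul_sum]
    have h1 : ∑ T ∈ (boxE n).powerset, A.indicator (1 : Finset Edg → ℝ≥0∞) T =
        (((boxE n).powerset.filter fun T => T ∈ A).card : ℝ≥0∞) := by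
      rw [Finset.card_filter]
      push_cast
      refine Finset.sum_congr rfl fun T _ => ?_
      simp [Set.indicator_apply]
    rw [h1, ENNReal.ofReal_div_of_pos (by positivity), ENNReal.ofReal_natCast,
      ENNReal.ofReal_pow (by norm_num), ENNReal.ofReal_ofNat, div_eq_mul_inv, mul_comm]
  have h2 : μ A ≤ μ (⋃ j, B j) := by
    rw [hμ, hμ]
    refine ENNReal.ofReal_le_ofReal (Perc.PercD.prB_mono fun T hT hA => ?_)
    exact mem_iUnion.2 (h T hT hA)
  rw [hμ] at h2
  refine h2.trans ((measure_iUnion_le _).trans (le_of_eq ?_))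
  exact tsum_congr fun j => hμ _

/-- The curve stays in the unit square. -/
theorem norm_outerLoop_le {n : ℕ} {T : Finset Edg} {u : ℤ × ℤ} (hT : T ⊆ boxE n)
    (hu : u ∈ Box n) (x : ℝ) : ‖(outerLoop n T u).f x‖ ≤ 2 := by
  have h1 : (outerLoop n T u).f x ∈ ((outerLoop n T u).trace : Set ℂ) := by
    rw [Loop.coe_trace]
    exact mem_range_self x
  rw [trace_outerLoop hT] at h1
  obtain ⟨z, hz, hzx⟩ := h1
  rw [← hzx]
  rcases Nat.eq_zero_or_pos n with hn | hn
  · subst hn
    simp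
  · have hn0 : (0 : ℝ) < n := by exact_mod_cast hn
    obtain ⟨a, b, c, d⟩ := Perc.PercD.clS_sub hT hu (Perc.PercD.frontier_outU_sub T _ hz)
    simp only
    refine (Complex.norm_le_abs_re_add_abs_im _).trans ?_
    rw [Complex.div_natCast_re, Complex.div_natCast_im, abs_of_nonneg (by positivity),
      abs_of_nonneg (by positivity)]
    have e1 : z.re / n ≤ 1 := by rw [div_le_one hn0]; exact b
    have e2 : z.im / n ≤ 1 := by rw [div_le_one hn0]; exact d
    linarith

theorem prB_le_of_eventually {κ ε : ℝ} (hκ : 0 < κ) (hε : 0 < ε)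
    {sel : ℕ → Finset Edg → ℤ × ℤ} {M₀ : ℕ} (h : ∀ᶠ n : ℕ in atTop,
      prB n {T | ¬ ∃ m ≤ M₀, outerLoop n T (sel n T) ∈ Loop.Cut κ m} ≤ ε) :
    ∃ M : ℕ, ∀ n : ℕ, prB n {T | ¬ ∃ m ≤ M, outerLoop n T (sel n T) ∈ Loop.Cut κ m} ≤ ε := by
  classical
  obtain ⟨n₀, hn₀⟩ := eventually_atTop.1 h
  choose f hf using fun (n : ℕ) (T : Finset Edg) => Loop.exists_cut (outerLoop n T (sel n T)) hκ
  set M₁ : ℕ := (Finset.range n₀).sup fun n => ((boxE n).powerset).sup fun T => f n T with hM₁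
  refine ⟨max M₀ M₁, fun n => ?_⟩
  rcases Nat.lt_or_ge n n₀ with hn | hn
  · have h0 : prB n {T | ¬ ∃ m ≤ max M₀ M₁, outerLoop n T (sel n T) ∈ Loop.Cut κ m} ≤
        prB n ∅ := by
      refine Perc.PercD.prB_mono fun T hT hA => hA ⟨f n T, ?_, hf n T⟩
      refine le_trans ?_ (le_max_right _ _)
      have h1 : f n T ≤ ((boxE n).powerset).sup fun T => f n T :=
        Finset.le_sup (f := fun T => f n T) (Finset.mem_powerset.2 hT)
      exact h1.trans (Finset.le_sup (f := fun n => ((boxE n).powerset).sup fun T => f n T)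
        (Finset.mem_range.2 hn))
    refine h0.trans ?_
    have : prB n ∅ = 0 := by simp [prB]
    rw [this]
    exact hε.le
  · refine (Perc.PercD.prB_mono fun T _ hA => ?_).trans (hn₀ n hn)
    rintro ⟨m, hm, hc⟩
    exact hA ⟨m, hm.trans (le_max_left _ _), hc⟩

/-- Tightness from the numbers of arcs. -/
theorem targetTight_of (h : TargetCuts) : TargetTight := by
  intro sel hsel
  rw [isTightMeasureSet_iff_exists_isCompact_measure_compl_le]
  intro ε hε
  obtain ⟨δ, hδ, hsum⟩ := ENNReal.exists_pos_sum_of_countable hε.ne' ℕ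
  have hM : ∀ j : ℕ, ∃ M : ℕ, ∀ n : ℕ,
      prB n {T | ¬ ∃ m ≤ M, outerLoop n T (sel n T) ∈ Loop.Cut (1 / (j + 1 : ℝ)) m} ≤ δ j := by
    intro j
    have hj : (0 : ℝ) < 1 / (j + 1 : ℝ) := by positivity
    have hδj : (0 : ℝ) < δ j := hδ j
    obtain ⟨M₀, hM₀⟩ := h _ _ hj hδj
    exact prB_le_of_eventually hj hδj (hM₀ sel hsel)
  choose M hM using hM
  obtain ⟨K, hK, hmem⟩ := exists_compact 2 M
  refine ⟨K, hK, ?_⟩
  rintro _ ⟨n, rfl⟩
  simp only
  rw [lawC_apply _ _ hK.isClosed.measurableSet.compl]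
  refine (prB_iUnion_le n _ (fun j => {T | ¬ ∃ m ≤ M j, outerLoop n T (sel n T) ∈
    Loop.Cut (1 / (j + 1 : ℝ)) m}) fun T hT hA => ?_).trans ?_
  · by_contra hcon
    rw [not_exists] at hcon
    exact hA (hmem _ (fun x => norm_outerLoop_le hT (hsel n T hT).1 x)
      fun j => not_not.1 (hcon j))
  · refine le_trans (ENNReal.tsum_le_tsum fun j => ?_) hsum.le
    rw [← ENNReal.ofReal_coe_nnreal]
    exact ENNReal.ofReal_le_ofReal (hM j n)

/-- Existence of limits along subsequences. -/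
theorem targetExist_of (h : TargetTight) : TargetExist := by
  intro sel hsel φ
  let P : ℕ → ProbabilityMeasure Curve := fun k => ⟨lawC (φ k) (sel (φ k)), isProb_lawC _ _⟩
  have ht : IsTightMeasureSet {((μ : ProbabilityMeasure Curve) : Measure Curve) | μ ∈ range P} := by
    refine (h sel hsel).subset ?_
    rintro _ ⟨_, ⟨k, rfl⟩, rfl⟩
    exact ⟨φ k, rfl⟩
  obtain ⟨ψ, hψ, ν, hν, hlim⟩ := exists_weak_limit P ht
  refine ⟨ψ, hψ, ν, hν, fun F => ?_⟩
  refine (hlim F).congr fun k => ?_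
  exact integral_lawC _ _ F

end Pool.Agent.PercD
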