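import Pool.Agent.Lib.MP_6bd702_percD.OuterLoop

/-!
# The space of closed curves up to reparametrisation
-/

set_option autoImplicit false

namespace Pool.Agent.PercD

open Set Filter Topology MeasureTheory TopologicalSpace
open Pool.Agent.Perc

theorem Curve.trace_mk (γ : Loop) : Curve.trace (SeparationQuotient.mk γ) = γ.trace := rfl

theorem Curve.continuous_trace : Continuous Curve.trace :=
  SeparationQuotient.continuous_lift Loop.continuous_trace

theorem mk_eq_iff {γ γ' : Loop} :
    (SeparationQuotient.mk γ : Curve) = SeparationQuotient.mk γ' ↔ dist γ γ' = 0 := by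
  rw [SeparationQuotient.mk_eq_mk, Metric.inseparable_iff]

theorem Curve.selfAvoiding_mk {γ : Loop} :
    Curve.SelfAvoiding (SeparationQuotient.mk γ) ↔ Loop.SelfAvoiding γ := by
  unfold Curve.SelfAvoiding Loop.SelfAvoiding
  simp only [mk_eq_iff, dist_comm γ]

/-- The curves with a double point such that both arcs have diameter at least `η`. -/
def Curve.Dbl (η : ℝ) : Set Curve := SeparationQuotient.mk '' Loop.Dbl η

theorem Curve.mk_mem_Dbl {γ : Loop} {η : ℝ} :
    (SeparationQuotient.mk γ : Curve) ∈ Curve.Dbl η ↔ γ ∈ Loop.Dbl η := by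
  constructor
  · rintro ⟨γ', h, he⟩
    rw [mk_eq_iff] at he
    rw [← (Loop.isClosed_Dbl η).closure_eq, Metric.mem_closure_iff]
    intro ε hε
    exact ⟨γ', h, by rw [dist_comm, he]; exact hε⟩
  · intro h
    exact ⟨γ, h, rfl⟩

theorem Curve.isClosed_Dbl (η : ℝ) : IsClosed (Curve.Dbl η) := by
  have h : (SeparationQuotient.mk : Loop → Curve) ⁻¹' Curve.Dbl η = Loop.Dbl η := by
    ext γ; exact Curve.mk_mem_Dbl
  rw [← SeparationQuotient.isQuotientMap_mk.isClosed_preimage, h]
  exact Loop.isClosed_Dbl η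

theorem Curve.not_selfAvoiding {c : Curve} {η : ℝ} (hη : 0 < η) (h : c ∈ Curve.Dbl η) :
    ¬ Curve.SelfAvoiding c := by
  obtain ⟨γ, h1, rfl⟩ := h
  rw [Curve.selfAvoiding_mk]
  exact Loop.not_selfAvoiding_of_mem_Dbl hη h1

theorem outerCurve_trace (n : ℕ) (T : Finset Edg) (u : ℤ × ℤ) :
    (outerCurve n T u).trace = (outerLoop n T u).trace := rfl

end Pool.Agent.PercD
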