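import Pool.Agent.Lib.MP_6bd702_percD.CurveCut
import Pool.Agent.Lib.MP_6bd702_percD.Space

/-!
# Compact sets of closed curves and weak limits along subsequences
-/

set_option autoImplicit false

namespace Pool.Agent.PercD

open Set Filter Topology MeasureTheory TopologicalSpace
open scoped ENNReal NNReal

/-- A compact set of closed curves: bounded curves with bounded numbers of arcs. -/
theorem exists_compact (R : ℝ) (M : ℕ → ℕ) :
    ∃ K : Set Curve, IsCompact K ∧ ∀ γ : Loop, (∀ x, ‖γ.f x‖ ≤ R) →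
      (∀ j : ℕ, ∃ m ≤ M j, γ ∈ Loop.Cut (1 / (j + 1 : ℝ)) m) →
        (SeparationQuotient.mk γ : Curve) ∈ K := by
  have h := Loop.totallyBounded_cut R fun κ => M ⌈1 / κ⌉₊
  refine ⟨_, (h.closure.isCompact_of_isClosed isClosed_closure).image
    SeparationQuotient.continuous_mk, fun γ h1 h2 => mem_image_of_mem _
      (subset_closure ⟨h1, fun κ hκ => ?_⟩)⟩
  obtain ⟨m, hm, hc⟩ := h2 ⌈1 / κ⌉₊
  refine ⟨m, hm, Loop.Cut.mono ?_ hc⟩
  rw [div_le_comm₀ (by positivity) hκ]
  have := Nat.le_ceil (1 / κ)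
  linarith

instance : SeparableSpace Curve :=
  SeparationQuotient.surjective_mk.denseRange.separableSpace SeparationQuotient.continuous_mk

/-- Prokhorov's theorem for random closed curves. -/
theorem exists_weak_limit (P : ℕ → ProbabilityMeasure Curve)
    (h : IsTightMeasureSet {((μ : ProbabilityMeasure Curve) : Measure Curve) | μ ∈ range P}) :
    ∃ ψ : ℕ → ℕ, StrictMono ψ ∧ ∃ ν : Measure Curve, IsProbabilityMeasure ν ∧
      ∀ F : BoundedContinuousFunction Curve ℝ,
        Tendsto (fun k => ∫ c, F c ∂(P (ψ k) : Measure Curve)) atTop (𝓝 (∫ c, F c ∂ν)) := by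
  obtain ⟨ν, -, ψ, hψ, hlim⟩ := (isCompact_closure_of_isTightMeasureSet h).isSeqCompact
    (fun n => subset_closure (mem_range_self n))
  exact ⟨ψ, hψ, ν, inferInstance,
    fun F => (ProbabilityMeasure.tendsto_iff_forall_integral_tendsto.1 hlim) F⟩

end Pool.Agent.PercD
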