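import Pool.Agent.Lib.MP_6bd702_percD.Curve

/-!
# The space of closed curves is complete and separable
-/

set_option autoImplicit false

namespace Pool.Agent.PercD

open Set Filter Topology MeasureTheory TopologicalSpace

namespace Loop

/-- Change of parameter. -/
def comp (γ : Loop) (r : Rep) : Loop where
  f t := γ.f (r.φ t)
  cont := γ.cont.comp r.continuous
  per t := by rw [r.per, γ.per]

/-- Completeness of the space of closed curves. -/
instance : CompleteSpace Loop := by
  refine Metric.complete_of_convergent_controlled_sequences (fun n => (1 / 2 : ℝ) ^ n)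
    (fun n => by positivity) fun u hu => ?_
  have h1 : ∀ n, ∃ r : Rep, ∀ t, dist ((u n).f t) ((u (n + 1)).f (r.φ t)) < (1 / 2 : ℝ) ^ n :=
    fun n => exists_rep (hu n n (n + 1) le_rfl (Nat.le_succ n))
  choose r hr using h1
  let R : ℕ → Rep := fun n => Nat.rec Rep.refl (fun n q => q.trans (r n)) n
  have hR : ∀ n t, (R (n + 1)).φ t = (r n).φ ((R n).φ t) := fun n t => rfl
  have hg : ∀ t n, dist ((u n).f ((R n).φ t)) ((u (n + 1)).f ((R (n + 1)).φ t)) ≤
      1 * (1 / 2 : ℝ) ^ n := by
    intro t n
    rw [hR, one_mul]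
    exact (hr n _).le
  have hc : ∀ t, ∃ z, Tendsto (fun n => (u n).f ((R n).φ t)) atTop (𝓝 z) := fun t =>
    cauchySeq_tendsto_of_complete (cauchySeq_of_le_geometric (1 / 2) 1 (by norm_num) (hg t))
  choose f hf using hc
  have hd : ∀ n t, dist ((u n).f ((R n).φ t)) (f t) ≤ 2 * (1 / 2 : ℝ) ^ n := by
    intro n t
    have := dist_le_of_le_geometric_of_tendsto (1 / 2) 1 (by norm_num) (hg t) (hf t) n
    calc _ ≤ 1 * (1 / 2 : ℝ) ^ n / (1 - 1 / 2) := this
      _ = _ := by ring
  have hlim : Tendsto (fun n : ℕ => 2 * (1 / 2 : ℝ) ^ n) atTop (𝓝 0) := by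
    have := (tendsto_pow_atTop_nhds_zero_of_lt_one (by norm_num : (0 : ℝ) ≤ 1 / 2)
      (by norm_num)).const_mul (2 : ℝ)
    rwa [mul_zero] at this
  have hunif : TendstoUniformly (fun n t => (u n).f ((R n).φ t)) f atTop := by
    rw [Metric.tendstoUniformly_iff]
    intro ε hε
    filter_upwards [(tendsto_order.1 hlim).2 ε hε] with n hn t
    rw [dist_comm]
    exact (hd n t).trans_lt hn
  have hcont : Continuous f := hunif.continuous (Eventually.of_forall fun n =>
    (u n).cont.comp (R n).continuous).frequently
  have hper : ∀ t, f (t + 1) = f t := by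
    intro t
    refine tendsto_nhds_unique (hf (t + 1)) ?_
    refine (hf t).congr fun n => ?_
    rw [(R n).per, (u n).per]
  refine ⟨⟨f, hcont, hper⟩, ?_⟩
  rw [tendsto_iff_dist_tendsto_zero]
  refine squeeze_zero (fun _ => dist_nonneg) (fun n => ?_) hlim
  rw [dist_comm]
  refine dist_le (R n) fun t => ?_
  rw [dist_comm]
  exact hd n t

/-- The closed curve of a continuous function on the circle. -/
noncomputable def ofCircle (g : C(AddCircle (1 : ℝ), ℂ)) : Loop where
  f t := g (t : AddCircle (1 : ℝ))
  cont := g.continuous.comp (AddCircle.continuous_mk' 1)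
  per t := by
    rw [AddCircle.coe_add, AddCircle.coe_period, add_zero]

theorem continuous_ofCircle : Continuous ofCircle := by
  refine (LipschitzWith.of_dist_le_mul (K := 1) fun g g' => ?_).continuous
  rw [NNReal.coe_one, one_mul]
  refine dist_le Rep.refl fun t => ?_
  exact ContinuousMap.dist_apply_le_dist _

theorem surjective_ofCircle : Function.Surjective ofCircle := by
  intro γ
  have hper : Function.Periodic γ.f 1 := γ.per
  refine ⟨⟨hper.lift, ?_⟩, ?_⟩
  · exact continuous_coinduced_dom.2 γ.cont
  · cases γ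
    rfl

instance : SeparableSpace Loop := surjective_ofCircle.denseRange.separableSpace continuous_ofCircle

end Loop

end Pool.Agent.PercD
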