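import Pool.Agent.Lib.MP_6bd702_perc.BoxAux

/-!
# The outer perimeter as a random compact set: definitions
-/

set_option autoImplicit false

namespace Pool.Agent.Perc

open Set TopologicalSpace BoxAux

/-- The unbounded component of the complement of the cluster of `u`. -/
def outU (T : Finset Edg) (u : ℤ × ℤ) : Set ℂ :=
  {z | ¬ Bornology.IsBounded (connectedComponentIn (clS T u)ᶜ z)}

/-- The vertices of the outer perimeter: the ends of the edges of the cluster which have a side in
the unbounded component. -/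
def OutV (T : Finset Edg) (u : ℤ × ℤ) : Set (ℤ × ℤ) :=
  {v | ∃ e ∈ T, tl e ∈ clV T u ∧ (∃ b, Outer T u (side e b)) ∧ (v = tl e ∨ v = hd e)}

namespace PercD

theorem clV_finite' (T : Finset Edg) (u : ℤ × ℤ) : (clV T u).Finite := by
  classical
  have h : clV T u ⊆ ((insert u (T.image tl ∪ T.image hd) : Finset (ℤ × ℤ)) : Set (ℤ × ℤ)) := by
    intro v hv
    induction hv with
    | refl => simp
    | tail _ h2 _ =>
      obtain ⟨e, he, h | h⟩ := h2
      · rw [← h.2]
        simp only [Finset.coe_insert, Finset.coe_union, Finset.coe_image]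
        exact Or.inr (Or.inr ⟨e, he, rfl⟩)
      · rw [← h.1]
        simp only [Finset.coe_insert, Finset.coe_union, Finset.coe_image]
        exact Or.inr (Or.inl ⟨e, he, rfl⟩)
  exact (Finset.finite_toSet _).subset h

theorem isCompact_clS (T : Finset Edg) (u : ℤ × ℤ) : IsCompact (clS T u) := by
  unfold clS
  refine ((clV_finite' T u).image toC).isCompact.union ?_
  refine T.isCompact_biUnion fun e _ => ?_
  by_cases h : tl e ∈ clV T u
  · simp only [h, iUnion_true]
    rw [segment_eq_image]
    exact isCompact_Icc.image (by fun_prop)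
  · simp only [h, iUnion_false]
    exact isCompact_empty

theorem toC_mem_clS {T : Finset Edg} {u v : ℤ × ℤ} (h : v ∈ clV T u) : toC v ∈ clS T u :=
  Or.inl ⟨v, h, rfl⟩

theorem isOpen_outU (T : Finset Edg) (u : ℤ × ℤ) : IsOpen (outU T u) := by
  have hc : IsOpen (clS T u)ᶜ := (isCompact_clS T u).isClosed.isOpen_compl
  rw [isOpen_iff_forall_mem_open]
  intro z hz
  refine ⟨connectedComponentIn (clS T u)ᶜ z, ?_, hc.connectedComponentIn, ?_⟩
  · intro w hw
    unfold outU at hz ⊢
    rw [mem_ofPred_eq] at hz ⊢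
    rwa [← connectedComponentIn_eq hw]
  · refine mem_connectedComponentIn ?_
    intro h
    apply hz
    rw [connectedComponentIn_eq_empty (by simpa using h)]
    exact Bornology.isBounded_empty

theorem not_mem_outU {T : Finset Edg} {u : ℤ × ℤ} {z : ℂ} (hz : z ∈ clS T u) : z ∉ outU T u := by
  intro h
  apply h
  rw [connectedComponentIn_eq_empty (by simpa using hz)]
  exact Bornology.isBounded_empty

theorem mem_outU_iff {T : Finset Edg} {u : ℤ × ℤ} {s : Set ℂ} (hs : IsPreconnected s)
    (hsc : s ⊆ (clS T u)ᶜ) {z w : ℂ} (hz : z ∈ s) (hw : w ∈ s) : z ∈ outU T u ↔ w ∈ outU T u := by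
  have h1 : w ∈ connectedComponentIn (clS T u)ᶜ z := hs.subset_connectedComponentIn hz hsc hw
  have h2 := connectedComponentIn_eq h1
  unfold outU
  rw [mem_ofPred_eq, mem_ofPred_eq, h2]

theorem frontier_outU_sub (T : Finset Edg) (u : ℤ × ℤ) : frontier (outU T u) ⊆ clS T u := by
  intro z hz
  by_contra hcon
  have hc : IsOpen (clS T u)ᶜ := (isCompact_clS T u).isClosed.isOpen_compl
  obtain ⟨ε, hε, hb⟩ := Metric.isOpen_iff.1 hc z hcon
  have hz1 : z ∈ closure (outU T u) := frontier_subset_closure hz
  obtain ⟨w, hw, hd⟩ := Metric.mem_closure_iff.1 hz1 ε hε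
  have h1 : z ∈ outU T u :=
    (mem_outU_iff (convex_ball z ε).isPreconnected hb (Metric.mem_ball_self hε)
      (by rw [Metric.mem_ball, dist_comm]; exact hd)).2 hw
  have h2 : z ∈ interior (outU T u) := by rw [(isOpen_outU T u).interior_eq]; exact h1
  exact hz.2 h2

theorem outU_nonempty (T : Finset Edg) (u : ℤ × ℤ) : (outU T u).Nonempty := by
  obtain ⟨R, hR⟩ := (isCompact_clS T u).isBounded.subset_closedBall (0 : ℂ)
  set H : Set ℂ := {w | R < w.re} with hH
  have hconv : Convex ℝ H := by
    have := convex_halfSpace_re_gt R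
    exact this
  have hsub : H ⊆ (clS T u)ᶜ := by
    intro w hw hw'
    have h1 := hR hw'
    rw [mem_closedBall_zero_iff] at h1
    have h2 : w.re ≤ ‖w‖ := Complex.re_le_norm w
    have h3 : R < w.re := hw
    linarith
  have hmem : ((R + 1 : ℝ) : ℂ) ∈ H := by
    rw [hH, mem_ofPred_eq, Complex.ofReal_re]; linarith
  refine ⟨((R + 1 : ℝ) : ℂ), ?_⟩
  intro hb
  have h1 : H ⊆ connectedComponentIn (clS T u)ᶜ ((R + 1 : ℝ) : ℂ) :=
    hconv.isPreconnected.subset_connectedComponentIn hmem hsub
  have h2 : Bornology.IsBounded H := hb.subset h1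
  obtain ⟨C, hC⟩ := h2.subset_closedBall (0 : ℂ)
  have h3 : (((max R C) + 1 : ℝ) : ℂ) ∈ H := by
    rw [hH, mem_ofPred_eq, Complex.ofReal_re]
    linarith [le_max_left R C]
  have h4 := hC h3
  rw [mem_closedBall_zero_iff] at h4
  have h5 := Complex.re_le_norm (((max R C) + 1 : ℝ) : ℂ)
  rw [Complex.ofReal_re] at h5
  linarith [le_max_right R C]

theorem frontier_outU_nonempty (T : Finset Edg) (u : ℤ × ℤ) : (frontier (outU T u)).Nonempty := by
  rw [Set.nonempty_iff_ne_empty]
  intro h
  rw [← isClopen_iff_frontier_eq_empty, isClopen_iff] at h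
  rcases h with h | h
  · exact (outU_nonempty T u).ne_empty h
  · exact not_mem_outU (toC_mem_clS (mem_clV_self T u)) (h ▸ mem_univ _)

theorem isCompact_frontier_outU (T : Finset Edg) (u : ℤ × ℤ) : IsCompact (frontier (outU T u)) :=
  (isCompact_clS T u).of_isClosed_subset isClosed_frontier (frontier_outU_sub T u)

end PercD

open PercD in
/-- The outer perimeter of the cluster of `u`, the boundary of the unbounded component of the
complement of the cluster, scaled by `1 / n`. -/
noncomputable def perK (n : ℕ) (T : Finset Edg) (u : ℤ × ℤ) : NonemptyCompacts ℂ :=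
  ⟨⟨(fun z : ℂ => z / n) '' frontier (outU T u),
    (isCompact_frontier_outU T u).image (by fun_prop)⟩, (frontier_outU_nonempty T u).image _⟩

end Pool.Agent.Perc
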