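import Pool.Agent.Lib.MP_6bd702_percD.Cover

/-!
# Weak limits of random compact sets: bounds for the Hausdorff dimension
-/

set_option autoImplicit false

namespace Pool.Agent.PercD

open Set Filter Topology MeasureTheory TopologicalSpace
open scoped ENNReal NNReal

/-- The open square of side `2 / 2 ^ m` centred at `z / 2 ^ m`. -/
def cell (m : ℕ) (z : ℤ × ℤ) : Set ℂ :=
  {w | |w.re - z.1 / 2 ^ m| < 1 / 2 ^ m ∧ |w.im - z.2 / 2 ^ m| < 1 / 2 ^ m}

theorem isOpen_cell (m : ℕ) (z : ℤ × ℤ) : IsOpen (cell m z) := by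
  have h1 : Continuous fun w : ℂ => |w.re - z.1 / 2 ^ m| := by fun_prop
  have h2 : Continuous fun w : ℂ => |w.im - z.2 / 2 ^ m| := by fun_prop
  exact (isOpen_lt h1 continuous_const).inter (isOpen_lt h2 continuous_const)

/-- The indices of the cells which can meet the unit square. -/
noncomputable def idx (m : ℕ) : Finset (ℤ × ℤ) :=
  Finset.Icc (-1) (2 ^ m + 1) ×ˢ Finset.Icc (-1) (2 ^ m + 1)

open Classical in
/-- The number of cells which meet `K`. -/
noncomputable def Nm (m : ℕ) (K : Set ℂ) : ℕ := ((idx m).filter fun z => (K ∩ cell m z).Nonempty).card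

/-- The weighted sum of the cell counts. -/
noncomputable def Sm (s : ℝ) (M : ℕ) (K : Set ℂ) : ℝ :=
  ∑ m ∈ Finset.range M, (1 / 2 ^ m : ℝ) ^ s * Nm m K

theorem isOpen_Sm (s lam : ℝ) (M : ℕ) :
    IsOpen {K : NonemptyCompacts ℂ | lam < Sm s M (K : Set ℂ)} := by
  classical
  rw [isOpen_iff_forall_mem_open]
  intro K hK
  rw [mem_ofPred_eq] at hK
  set G : Set (NonemptyCompacts ℂ) := ⋂ m ∈ Finset.range M, ⋂ z ∈ (idx m).filter fun z =>
    ((K : Set ℂ) ∩ cell m z).Nonempty, {K' : NonemptyCompacts ℂ | ((K' : Set ℂ) ∩ cell m z).Nonempty}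
    with hG
  refine ⟨G, ?_, ?_, ?_⟩
  · intro K' hK'
    rw [mem_ofPred_eq]
    refine lt_of_lt_of_le hK ?_
    refine Finset.sum_le_sum fun m hm => ?_
    refine mul_le_mul_of_nonneg_left ?_ (Real.rpow_nonneg (by positivity) _)
    have : Nm m (K : Set ℂ) ≤ Nm m (K' : Set ℂ) := by
      refine Finset.card_le_card fun z hz => ?_
      rw [Finset.mem_filter] at hz ⊢
      refine ⟨hz.1, ?_⟩
      simp only [hG, mem_iInter] at hK'
      exact hK' m hm z (Finset.mem_filter.2 hz)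
    exact_mod_cast this
  · refine isOpen_biInter_finset fun m _ => isOpen_biInter_finset fun z _ => ?_
    exact NonemptyCompacts.isOpen_inter_nonempty_of_isOpen (isOpen_cell m z)
  · simp only [hG, mem_iInter]
    intro m _ z hz
    exact (Finset.mem_filter.1 hz).2

theorem dist_le_of_mem_cell {m : ℕ} {z : ℤ × ℤ} {w w' : ℂ} (h : w ∈ cell m z) (h' : w' ∈ cell m z) :
    dist w w' ≤ 4 / 2 ^ m := by
  have h1 : |w.re - w'.re| ≤ 2 / 2 ^ m := by
    have a := abs_lt.1 h.1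
    have b := abs_lt.1 h'.1
    have e : (2 : ℝ) / 2 ^ m = 1 / 2 ^ m + 1 / 2 ^ m := by ring
    rw [abs_le]; constructor <;> linarith [a.1, a.2, b.1, b.2]
  have h2 : |w.im - w'.im| ≤ 2 / 2 ^ m := by
    have a := abs_lt.1 h.2
    have b := abs_lt.1 h'.2
    have e : (2 : ℝ) / 2 ^ m = 1 / 2 ^ m + 1 / 2 ^ m := by ring
    rw [abs_le]; constructor <;> linarith [a.1, a.2, b.1, b.2]
  calc dist w w' = ‖w - w'‖ := dist_eq_norm _ _
    _ ≤ |(w - w').re| + |(w - w').im| := Complex.norm_le_abs_re_add_abs_im _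
    _ ≤ 2 / 2 ^ m + 2 / 2 ^ m := add_le_add h1 h2
    _ = 4 / 2 ^ m := by ring

/-- The unit square. -/
def unitSq : Set ℂ := {w | 0 ≤ w.re ∧ w.re ≤ 1 ∧ 0 ≤ w.im ∧ w.im ≤ 1}

theorem isClosed_unitSq : IsClosed unitSq := by
  have h1 : Continuous fun w : ℂ => w.re := by fun_prop
  have h2 : Continuous fun w : ℂ => w.im := by fun_prop
  exact (isClosed_le continuous_const h1).inter ((isClosed_le h1 continuous_const).inter
    ((isClosed_le continuous_const h2).inter (isClosed_le h2 continuous_const)))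

theorem exists_cell {m : ℕ} {w : ℂ} (hw : w ∈ unitSq) : ∃ z ∈ idx m, w ∈ cell m z := by
  obtain ⟨h1, h2, h3, h4⟩ := hw
  have hp : (0 : ℝ) < 2 ^ m := by positivity
  have aux : ∀ x : ℝ, 0 ≤ x → x ≤ 1 → ∃ k : ℤ, -1 ≤ k ∧ k ≤ 2 ^ m + 1 ∧
      |x - k / 2 ^ m| < 1 / 2 ^ m := by
    intro x hx hx1
    refine ⟨⌊x * 2 ^ m⌋, ?_, ?_, ?_⟩
    · have : 0 ≤ ⌊x * 2 ^ m⌋ := Int.floor_nonneg.2 (by positivity)
      linarith
    · have h5 : (⌊x * 2 ^ m⌋ : ℝ) ≤ 2 ^ m := (Int.floor_le _).trans (by nlinarith)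
      have h6 : ⌊x * 2 ^ m⌋ ≤ 2 ^ m := by exact_mod_cast h5
      linarith
    · have h7 : x - (⌊x * 2 ^ m⌋ : ℝ) / 2 ^ m = (x * 2 ^ m - ⌊x * 2 ^ m⌋) / 2 ^ m := by
        field_simp
      rw [h7, abs_div, abs_of_pos hp]
      refine div_lt_div_of_pos_right ?_ hp
      rw [abs_of_nonneg (by linarith [Int.floor_le (x * 2 ^ m)])]
      linarith [Int.lt_floor_add_one (x * 2 ^ m)]
  obtain ⟨a, ha1, ha2, ha3⟩ := aux w.re h1 h2
  obtain ⟨b, hb1, hb2, hb3⟩ := aux w.im h3 h4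
  refine ⟨(a, b), ?_, ha3, hb3⟩
  simp only [idx, Finset.mem_product, Finset.mem_Icc]
  exact ⟨⟨ha1, ha2⟩, hb1, hb2⟩

/-- Bounded weighted cell counts bound the dimension. -/
theorem dimH_le_of_Sm {s : ℝ≥0} {K : Set ℂ} (hK : K ⊆ unitSq) {lam : ℝ}
    (h : ∀ M, Sm s M K ≤ lam) : dimH K ≤ s := by
  classical
  refine dimH_le_of_hausdorffMeasure_ne_top ?_
  have hle : ∀ m, (1 / 2 ^ m : ℝ) ^ (s : ℝ) * Nm m K ≤ lam := by
    intro m
    refine le_trans ?_ (h (m + 1))
    exact Finset.single_le_sum (f := fun m => (1 / 2 ^ m : ℝ) ^ (s : ℝ) * (Nm m K : ℝ))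
      (fun i _ => by positivity) (Finset.self_mem_range_succ m)
  have hlam : 0 ≤ lam := le_trans (by positivity) (hle 0)
  let t : ∀ m : ℕ, {z // z ∈ (idx m).filter fun z => (K ∩ cell m z).Nonempty} → Set ℂ :=
    fun m z => cell m z.1
  have hr : Tendsto (fun m : ℕ => ENNReal.ofReal (4 / 2 ^ m)) atTop (𝓝 0) := by
    have h1 : Tendsto (fun m : ℕ => (4 : ℝ) / 2 ^ m) atTop (𝓝 0) := by
      have := (tendsto_pow_atTop_nhds_zero_of_lt_one (by norm_num : (0 : ℝ) ≤ 1 / 2)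
        (by norm_num)).const_mul (4 : ℝ)
      rw [mul_zero] at this
      refine this.congr fun m => ?_
      rw [one_div, inv_pow]; rfl
    have := (ENNReal.continuous_ofReal.tendsto 0).comp h1
    rw [ENNReal.ofReal_zero] at this
    exact this
  have hed : ∀ m z, Metric.ediam (cell m z) ≤ ENNReal.ofReal (4 / 2 ^ m) := by
    intro m z
    refine Metric.ediam_le fun x hx y hy => ?_
    rw [edist_dist]
    exact ENNReal.ofReal_le_ofReal (dist_le_of_mem_cell hx hy)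
  have h1 := Measure.hausdorffMeasure_le_liminf_sum (s : ℝ) K (l := atTop)
    (fun m : ℕ => ENNReal.ofReal (4 / 2 ^ m)) hr t
    (Eventually.of_forall fun m i => hed m i.1)
    (Eventually.of_forall fun m => by
      intro w hw
      obtain ⟨z, hz, hwz⟩ := exists_cell (m := m) (hK hw)
      exact mem_iUnion.2 ⟨⟨z, Finset.mem_filter.2 ⟨hz, ⟨w, hw, hwz⟩⟩⟩, hwz⟩)
  have h2 : ∀ m, ∑ i, Metric.ediam (t m i) ^ (s : ℝ) ≤ ENNReal.ofReal (4 ^ (s : ℝ) * lam) := by
    intro m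
    calc ∑ i, Metric.ediam (t m i) ^ (s : ℝ)
        ≤ ∑ _i : {z // z ∈ (idx m).filter fun z => (K ∩ cell m z).Nonempty},
            ENNReal.ofReal ((4 / 2 ^ m : ℝ) ^ (s : ℝ)) := by
          refine Finset.sum_le_sum fun i _ => ?_
          rw [← ENNReal.ofReal_rpow_of_nonneg (by positivity) s.coe_nonneg]
          exact ENNReal.rpow_le_rpow (hed m i.1) s.coe_nonneg
      _ = ENNReal.ofReal ((4 / 2 ^ m : ℝ) ^ (s : ℝ) * Nm m K) := by
          rw [Finset.sum_const, nsmul_eq_mul, Finset.card_univ, Fintype.card_coe,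
            ENNReal.ofReal_mul (by positivity), mul_comm, ENNReal.ofReal_natCast]
          rfl
      _ ≤ _ := by
          refine ENNReal.ofReal_le_ofReal ?_
          have h3 : (4 / 2 ^ m : ℝ) ^ (s : ℝ) = 4 ^ (s : ℝ) * (1 / 2 ^ m : ℝ) ^ (s : ℝ) := by
            rw [← Real.mul_rpow (by norm_num) (by positivity)]
            congr 1; ring
          rw [h3, mul_assoc]
          exact mul_le_mul_of_nonneg_left (hle m) (by positivity)
  have h3 : μH[(s : ℝ)] K ≤ ENNReal.ofReal (4 ^ (s : ℝ) * lam) := by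
    refine h1.trans ((liminf_le_liminf (Eventually.of_forall h2)).trans ?_)
    simp
  exact ne_top_of_le_ne_top ENNReal.ofReal_ne_top h3

variable [MeasurableSpace (NonemptyCompacts ℂ)] [BorelSpace (NonemptyCompacts ℂ)]

/-- Portmanteau in the form used below. -/
theorem measure_open_le {μs : ℕ → ProbabilityMeasure (NonemptyCompacts ℂ)}
    {ν : ProbabilityMeasure (NonemptyCompacts ℂ)} (h : Tendsto μs atTop (𝓝 ν))
    {G : Set (NonemptyCompacts ℂ)} (hG : IsOpen G) {ε : ℝ≥0∞}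
    (hε : ∀ᶠ k in atTop, (μs k : Measure (NonemptyCompacts ℂ)) G ≤ ε) :
    (ν : Measure (NonemptyCompacts ℂ)) G ≤ ε := by
  refine (ProbabilityMeasure.le_liminf_measure_open_of_tendsto h hG).trans ?_
  refine (liminf_le_liminf hε).trans ?_
  simp

/-- Lower bound: if the random compact sets have no efficient covers at scales `ρ k → 0`, the
dimension of the limit is at least `s` almost surely. -/
theorem le_dimH_ae {s : ℝ≥0} (hs : 0 < s) {μs : ℕ → ProbabilityMeasure (NonemptyCompacts ℂ)}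
    {ν : ProbabilityMeasure (NonemptyCompacts ℂ)} (h : Tendsto μs atTop (𝓝 ν)) {ρ : ℕ → ℝ}
    (hρ : Tendsto ρ atTop (𝓝 0))
    (H : ∀ ε : ℝ, 0 < ε → ∃ η : ℝ, 0 < η ∧ ∀ᶠ k in atTop,
      (μs k : Measure (NonemptyCompacts ℂ)) {K : NonemptyCompacts ℂ | Cov s (ρ k) η (K : Set ℂ)} ≤ ENNReal.ofReal ε) :
    ∀ᵐ K : NonemptyCompacts ℂ ∂(ν : Measure (NonemptyCompacts ℂ)), (s : ℝ≥0∞) ≤ dimH (K : Set ℂ) := by
  have key : ∀ ε : ℝ, 0 < ε →
      (ν : Measure (NonemptyCompacts ℂ)) {K : NonemptyCompacts ℂ | ¬ (s : ℝ≥0∞) ≤ dimH (K : Set ℂ)} ≤ ENNReal.ofReal ε := by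
    intro ε hε
    obtain ⟨η, hη, hk⟩ := H ε hε
    have h1 : ∀ m : ℕ, (ν : Measure (NonemptyCompacts ℂ))
        {K : NonemptyCompacts ℂ | Cov s (1 / ((m : ℝ) + 1)) η (K : Set ℂ)} ≤ ENNReal.ofReal ε := by
      intro m
      refine measure_open_le h (isOpen_Cov _ _ _) ?_
      have h2 : ∀ᶠ k in atTop, ρ k < 1 / ((m : ℝ) + 1) :=
        hρ.eventually_lt_const (by positivity)
      filter_upwards [hk, h2] with k hk h2
      refine le_trans (measure_mono ?_) hk
      intro K hK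
      exact Cov.mono s.coe_nonneg h2.le hK
    have hmono : Monotone fun m : ℕ => {K : NonemptyCompacts ℂ |
        Cov s (1 / ((m : ℝ) + 1)) η (K : Set ℂ)} := by
      intro m m' hm K hK
      refine Cov.mono s.coe_nonneg ?_ hK
      exact one_div_le_one_div_of_le (by positivity) (by exact_mod_cast Nat.add_le_add_right hm 1)
    have h3 : (ν : Measure (NonemptyCompacts ℂ)) (⋃ m : ℕ, {K : NonemptyCompacts ℂ |
        Cov s (1 / ((m : ℝ) + 1)) η (K : Set ℂ)}) ≤ ENNReal.ofReal ε := by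
      rw [hmono.measure_iUnion]
      exact iSup_le h1
    refine le_trans (measure_mono ?_) h3
    intro K hK
    rw [mem_ofPred_eq, not_le] at hK
    obtain ⟨m, hm⟩ := cov_of_dimH_lt hs K.isCompact hK hη
    exact mem_iUnion.2 ⟨m, hm⟩
  rw [ae_iff]
  refine le_antisymm ?_ zero_le
  refine ENNReal.le_of_forall_pos_le_add fun ε hε _ => ?_
  rw [zero_add]
  have h9 := key ε (by exact_mod_cast hε)
  rwa [ENNReal.ofReal_coe_nnreal] at h9

/-- Upper bound: tight weighted cell counts bound the dimension of the limit. -/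
theorem dimH_le_ae {s : ℝ≥0} {μs : ℕ → ProbabilityMeasure (NonemptyCompacts ℂ)}
    {ν : ProbabilityMeasure (NonemptyCompacts ℂ)} (h : Tendsto μs atTop (𝓝 ν))
    (hsq : ∀ᶠ k in atTop, (μs k : Measure (NonemptyCompacts ℂ))
      {K : NonemptyCompacts ℂ | ¬ (K : Set ℂ) ⊆ unitSq} = 0)
    (H : ∀ ε : ℝ, 0 < ε → ∃ lam : ℝ, ∀ M : ℕ, ∀ᶠ k in atTop,
      (μs k : Measure (NonemptyCompacts ℂ)) {K : NonemptyCompacts ℂ | lam < Sm s M (K : Set ℂ)} ≤ ENNReal.ofReal ε) :
    ∀ᵐ K : NonemptyCompacts ℂ ∂(ν : Measure (NonemptyCompacts ℂ)), dimH (K : Set ℂ) ≤ s := by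
  have hsq' : (ν : Measure (NonemptyCompacts ℂ)) {K : NonemptyCompacts ℂ | ¬ (K : Set ℂ) ⊆ unitSq} = 0 := by
    refine le_antisymm ?_ zero_le
    refine measure_open_le h ?_ (hsq.mono fun k hk => hk.le)
    exact (NonemptyCompacts.isClosed_subsets_of_isClosed isClosed_unitSq).isOpen_compl
  have key : ∀ ε : ℝ, 0 < ε →
      (ν : Measure (NonemptyCompacts ℂ)) {K : NonemptyCompacts ℂ | ¬ dimH (K : Set ℂ) ≤ s} ≤ ENNReal.ofReal ε := by
    intro ε hε
    obtain ⟨lam, hlam⟩ := H ε hε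
    have h1 : ∀ M : ℕ, (ν : Measure (NonemptyCompacts ℂ))
        {K : NonemptyCompacts ℂ | lam < Sm s M (K : Set ℂ)} ≤ ENNReal.ofReal ε :=
      fun M => measure_open_le h (isOpen_Sm _ _ _) (hlam M)
    have hmono : Monotone fun M : ℕ => {K : NonemptyCompacts ℂ | lam < Sm s M (K : Set ℂ)} := by
      intro M M' hM K hK
      have hK' : lam < Sm s M (K : Set ℂ) := hK
      refine lt_of_lt_of_le hK' ?_
      refine Finset.sum_le_sum_of_subset_of_nonneg ?_ fun i _ _ => by positivity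
      exact Finset.range_mono hM
    have h3 : (ν : Measure (NonemptyCompacts ℂ)) (⋃ M : ℕ, {K : NonemptyCompacts ℂ |
        lam < Sm s M (K : Set ℂ)}) ≤ ENNReal.ofReal ε := by
      rw [hmono.measure_iUnion]
      exact iSup_le h1
    have h4 : {K : NonemptyCompacts ℂ | ¬ dimH (K : Set ℂ) ≤ s} ⊆
        {K : NonemptyCompacts ℂ | ¬ (K : Set ℂ) ⊆ unitSq} ∪ ⋃ M : ℕ, {K : NonemptyCompacts ℂ |
          lam < Sm s M (K : Set ℂ)} := by
      intro K hK
      by_cases h5 : (K : Set ℂ) ⊆ unitSq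
      · right
        by_contra h6
        apply hK
        refine dimH_le_of_Sm h5 (lam := lam) fun M => ?_
        by_contra h7
        exact h6 (mem_iUnion.2 ⟨M, not_le.1 h7⟩)
      · left; exact h5
    refine (measure_mono h4).trans ((measure_union_le _ _).trans ?_)
    rw [hsq', zero_add]
    exact h3
  rw [ae_iff]
  refine le_antisymm ?_ zero_le
  refine ENNReal.le_of_forall_pos_le_add fun ε hε _ => ?_
  rw [zero_add]
  have h9 := key ε (by exact_mod_cast hε)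
  rwa [ENNReal.ofReal_coe_nnreal] at h9

end Pool.Agent.PercD
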