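import Pool.Agent.Lib.MP_6bd702_percD.Sums
import Pool.Agent.Lib.MP_6bd702_percD.Topo
import Pool.Agent.Lib.MP_6bd702_percD.Cover

/-!
# The energy of the outer vertices
-/

set_option autoImplicit false

namespace Pool.Agent.Perc.PercD

open Finset Filter Topology

open Classical in
/-- The bulk vertices. -/
noncomputable def bulkF (n : ℕ) (r : ℝ) : Finset (ℤ × ℤ) := (Box n).filter fun v => Bulk n r v

theorem inner_sum {n : ℕ} {f : ℤ → ℝ} (hf : ∀ a, 0 ≤ f a) {x : ℤ} (hx : x ∈ Icc 0 (n : ℤ)) :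
    ∑ w ∈ Icc 0 (n : ℤ), f (x - w) ≤ ∑ a ∈ Icc (-(n : ℤ)) n, f a := by
  classical
  rw [← sum_image (s := Icc 0 (n : ℤ)) (g := fun w => x - w) (f := f)
    (by intro a _ b _ h; simpa using h)]
  refine sum_le_sum_of_subset_of_nonneg ?_ fun a _ _ => hf a
  intro a ha
  rw [mem_image] at ha
  obtain ⟨w, hw, rfl⟩ := ha
  rw [mem_Icc] at hw hx ⊢
  omega

theorem abs_re_le {v w : ℤ × ℤ} : |((v.1 - w.1 : ℤ) : ℝ)| ≤ dist (toC v) (toC w) := by
  have := Complex.abs_re_le_norm (toC v - toC w)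
  rw [dist_eq_norm]
  simpa [toC] using this

theorem abs_im_le {v w : ℤ × ℤ} : |((v.2 - w.2 : ℤ) : ℝ)| ≤ dist (toC v) (toC w) := by
  have := Complex.abs_im_le_norm (toC v - toC w)
  rw [dist_eq_norm]
  simpa [toC] using this

/-- The two dimensional sum. -/
theorem sum_box {q : ℝ} (hq1 : q < 1) (hq0 : 0 ≤ q) {n : ℕ} (hn : 1 ≤ n) {v : ℤ × ℤ}
    (hv : v ∈ Box n) : ∑ w ∈ Box n, (max (dist (toC v) (toC w)) 1) ^ (-(2 * q)) ≤
      ((1 + 2 / (1 - q)) * (n : ℝ) ^ (1 - q)) ^ 2 := by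
  unfold Box at hv ⊢
  rw [mem_product] at hv
  set f : ℤ → ℝ := fun a => (max |(a : ℝ)| 1) ^ (-q) with hf
  have hf0 : ∀ a, 0 ≤ f a := fun a => Real.rpow_nonneg (le_trans zero_le_one (le_max_right _ _)) _
  have h1 : ∀ w : ℤ × ℤ, (max (dist (toC v) (toC w)) 1) ^ (-(2 * q)) ≤
      f (v.1 - w.1) * f (v.2 - w.2) := by
    intro w
    have hD : 0 < max (dist (toC v) (toC w)) 1 := lt_max_of_lt_right one_pos
    have e : (max (dist (toC v) (toC w)) 1) ^ (-(2 * q)) =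
        (max (dist (toC v) (toC w)) 1) ^ (-q) * (max (dist (toC v) (toC w)) 1) ^ (-q) := by
      rw [← Real.rpow_add hD]; congr 1; ring
    rw [e]
    refine mul_le_mul ?_ ?_ (Real.rpow_nonneg hD.le _) (hf0 _)
    · exact Real.rpow_le_rpow_of_nonpos (lt_max_of_lt_right one_pos)
        (max_le_max abs_re_le le_rfl) (by linarith)
    · exact Real.rpow_le_rpow_of_nonpos (lt_max_of_lt_right one_pos)
        (max_le_max abs_im_le le_rfl) (by linarith)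
  have hs := sum_abs_rpow hq1 hq0 hn
  have hs0 : 0 ≤ ∑ a ∈ Icc (-(n : ℤ)) n, f a := sum_nonneg fun a _ => hf0 a
  calc ∑ w ∈ Icc 0 (n : ℤ) ×ˢ Icc 0 (n : ℤ), (max (dist (toC v) (toC w)) 1) ^ (-(2 * q))
      ≤ ∑ w ∈ Icc 0 (n : ℤ) ×ˢ Icc 0 (n : ℤ), f (v.1 - w.1) * f (v.2 - w.2) :=
        sum_le_sum fun w _ => h1 w
    _ = (∑ a ∈ Icc 0 (n : ℤ), f (v.1 - a)) * ∑ b ∈ Icc 0 (n : ℤ), f (v.2 - b) := by
        rw [sum_product, sum_mul_sum]
    _ ≤ (∑ a ∈ Icc (-(n : ℤ)) n, f a) * ∑ a ∈ Icc (-(n : ℤ)) n, f a :=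
        mul_le_mul (inner_sum hf0 hv.1) (inner_sum hf0 hv.2) (sum_nonneg fun _ _ => hf0 _) hs0
    _ = (∑ a ∈ Icc (-(n : ℤ)) n, f a) ^ 2 := by ring
    _ ≤ _ := pow_le_pow_left₀ hs0 hs 2

theorem card_Box (n : ℕ) (hn : 1 ≤ n) : ((Box n).card : ℝ) ≤ 4 * (n : ℝ) ^ 2 := by
  unfold Box
  rw [card_product, Int.card_Icc]
  have h : ((n : ℤ) + 1 - 0).toNat = n + 1 := by omega
  rw [h]
  push_cast
  have : (1 : ℝ) ≤ n := by exact_mod_cast hn
  nlinarith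

open Classical in
/-- The energy of the outer vertices in the bulk. -/
noncomputable def enF (s κ : ℝ) (n : ℕ) (T : Finset Edg) (u : ℤ × ℤ) : ℝ :=
  ∑ v ∈ (bulkF n (κ * n)).filter (fun v => v ∈ OutV T u),
    ∑ w ∈ (bulkF n (κ * n)).filter (fun v => v ∈ OutV T u), (max (dist (toC v) (toC w)) 1) ^ (-s)

open Classical in
theorem energy_bound (h2 : TargetB2) {s : ℝ} (hs0 : 0 ≤ s) (hs : s < 7 / 4) {κ k₀ : ℝ}
    (hκ : 0 < κ) (hk₀ : 0 < k₀) : ∃ C : ℝ, 0 ≤ C ∧ ∀ (sel : ℕ → Finset Edg → ℤ × ℤ) (n : ℕ),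
      1 ≤ n → exB n (fun T => if k₀ * n ≤ Metric.diam (clS T (sel n T)) then
        enF s κ n T (sel n T) else 0) ≤ C * (n : ℝ) ^ (7 / 2 - s) := by
  obtain ⟨C₀, hC₀⟩ := h2 κ k₀ hκ hk₀
  set C₁ : ℝ := max C₀ 0 with hC₁
  have hC₁0 : 0 ≤ C₁ := le_max_right _ _
  set q : ℝ := (s + 1 / 4) / 2 with hq
  have hq1 : q < 1 := by rw [hq]; linarith
  have hq0 : 0 ≤ q := by rw [hq]; linarith
  refine ⟨C₁ * 4 * (1 + 2 / (1 - q)) ^ 2, by positivity, ?_⟩
  intro sel n hn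
  have hn0 : (0 : ℝ) < n := by exact_mod_cast hn
  -- pairwise form
  have h1 : exB n (fun T => if k₀ * n ≤ Metric.diam (clS T (sel n T)) then
        enF s κ n T (sel n T) else 0) ≤
      ∑ v ∈ bulkF n (κ * n), ∑ w ∈ bulkF n (κ * n), (max (dist (toC v) (toC w)) 1) ^ (-s) *
        prB n {T | ∃ u, k₀ * n ≤ Metric.diam (clS T u) ∧ v ∈ OutV T u ∧ w ∈ OutV T u} := by
    have e : ∀ v w : ℤ × ℤ, (max (dist (toC v) (toC w)) 1) ^ (-s) *
        prB n {T | ∃ u, k₀ * n ≤ Metric.diam (clS T u) ∧ v ∈ OutV T u ∧ w ∈ OutV T u} =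
        exB n (fun T => (max (dist (toC v) (toC w)) 1) ^ (-s) *
          if T ∈ {T | ∃ u, k₀ * n ≤ Metric.diam (clS T u) ∧ v ∈ OutV T u ∧ w ∈ OutV T u} then
            1 else 0) := by
      intro v w
      rw [exB_mul_left, prB_eq]
    simp_rw [e]
    simp_rw [← exB_sum]
    refine exB_mono fun T _ => ?_
    have hnn : ∀ v w : ℤ × ℤ, 0 ≤ (max (dist (toC v) (toC w)) 1) ^ (-s) *
        (if T ∈ {T | ∃ u, k₀ * n ≤ Metric.diam (clS T u) ∧ v ∈ OutV T u ∧ w ∈ OutV T u} then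
            (1 : ℝ) else 0) := by
      intro v w
      refine mul_nonneg (Real.rpow_nonneg (le_trans zero_le_one (le_max_right _ _)) _) ?_
      split_ifs <;> norm_num
    split_ifs with hd
    · unfold enF
      rw [sum_filter]
      refine sum_le_sum fun v _ => ?_
      split_ifs with hv
      · rw [sum_filter]
        refine sum_le_sum fun w _ => ?_
        split_ifs with hw h3
        · rw [mul_one]
        · exact absurd ⟨_, hd, hv, hw⟩ h3
        · exact mul_nonneg (Real.rpow_nonneg (le_trans zero_le_one (le_max_right _ _)) _)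
            zero_le_one
        · rw [mul_zero]
      · exact sum_nonneg fun w _ => hnn v w
    · exact sum_nonneg fun v _ => sum_nonneg fun w _ => hnn v w
  refine h1.trans ?_
  -- the two point bound
  have h3 : ∀ v ∈ bulkF n (κ * n), ∀ w ∈ bulkF n (κ * n), (max (dist (toC v) (toC w)) 1) ^ (-s) *
        prB n {T | ∃ u, k₀ * n ≤ Metric.diam (clS T u) ∧ v ∈ OutV T u ∧ w ∈ OutV T u} ≤
      C₁ * (n : ℝ) ^ (-(1 / 4) : ℝ) * (max (dist (toC v) (toC w)) 1) ^ (-(2 * q)) := by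
    intro v hv w hw
    unfold bulkF at hv hw
    rw [mem_filter] at hv hw
    have h4 := hC₀ n hn v w hv.2 hw.2
    have hD : 0 < max (dist (toC v) (toC w)) 1 := lt_max_of_lt_right one_pos
    have hD1 : max (dist (toC v) (toC w)) 1 ≤ 1 + dist (toC v) (toC w) :=
      max_le (by linarith) (by linarith [dist_nonneg (x := toC v) (y := toC w)])
    have h5 : ((1 + dist (toC v) (toC w)) * n) ^ (-(1 / 4) : ℝ) ≤
        (max (dist (toC v) (toC w)) 1) ^ (-(1 / 4) : ℝ) * (n : ℝ) ^ (-(1 / 4) : ℝ) := by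
      rw [Real.mul_rpow (by linarith) hn0.le]
      refine mul_le_mul_of_nonneg_right ?_ (Real.rpow_nonneg hn0.le _)
      exact Real.rpow_le_rpow_of_nonpos hD hD1 (by norm_num)
    have h6 : prB n {T | ∃ u, k₀ * n ≤ Metric.diam (clS T u) ∧ v ∈ OutV T u ∧ w ∈ OutV T u} ≤
        C₁ * ((max (dist (toC v) (toC w)) 1) ^ (-(1 / 4) : ℝ) * (n : ℝ) ^ (-(1 / 4) : ℝ)) := by
      refine h4.trans ?_
      refine (mul_le_mul_of_nonneg_right (le_max_left C₀ 0)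
        (Real.rpow_nonneg (by positivity) _)).trans ?_
      exact mul_le_mul_of_nonneg_left h5 hC₁0
    have h7 : (max (dist (toC v) (toC w)) 1) ^ (-s) * (max (dist (toC v) (toC w)) 1) ^ (-(1 / 4) : ℝ)
        = (max (dist (toC v) (toC w)) 1) ^ (-(2 * q)) := by
      rw [← Real.rpow_add hD]; congr 1; rw [hq]; ring
    calc (max (dist (toC v) (toC w)) 1) ^ (-s) * prB n _
        ≤ (max (dist (toC v) (toC w)) 1) ^ (-s) *
          (C₁ * ((max (dist (toC v) (toC w)) 1) ^ (-(1 / 4) : ℝ) * (n : ℝ) ^ (-(1 / 4) : ℝ))) :=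
          mul_le_mul_of_nonneg_left h6 (Real.rpow_nonneg hD.le _)
      _ = C₁ * (n : ℝ) ^ (-(1 / 4) : ℝ) * ((max (dist (toC v) (toC w)) 1) ^ (-s) *
          (max (dist (toC v) (toC w)) 1) ^ (-(1 / 4) : ℝ)) := by ring
      _ = _ := by rw [h7]
  have hsub : bulkF n (κ * n) ⊆ Box n := filter_subset _ _
  calc _ ≤ ∑ v ∈ bulkF n (κ * n), ∑ w ∈ bulkF n (κ * n),
        C₁ * (n : ℝ) ^ (-(1 / 4) : ℝ) * (max (dist (toC v) (toC w)) 1) ^ (-(2 * q)) :=
        sum_le_sum fun v hv => sum_le_sum fun w hw => h3 v hv w hw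
    _ ≤ ∑ v ∈ bulkF n (κ * n),
        C₁ * (n : ℝ) ^ (-(1 / 4) : ℝ) * ((1 + 2 / (1 - q)) * (n : ℝ) ^ (1 - q)) ^ 2 := by
        refine sum_le_sum fun v hv => ?_
        rw [← mul_sum]
        refine mul_le_mul_of_nonneg_left ?_ (by positivity)
        refine le_trans ?_ (sum_box hq1 hq0 hn (hsub hv))
        exact sum_le_sum_of_subset_of_nonneg hsub fun w _ _ =>
          Real.rpow_nonneg (le_trans zero_le_one (le_max_right _ _)) _
    _ = ((bulkF n (κ * n)).card : ℝ) *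
        (C₁ * (n : ℝ) ^ (-(1 / 4) : ℝ) * ((1 + 2 / (1 - q)) * (n : ℝ) ^ (1 - q)) ^ 2) := by
        rw [sum_const, nsmul_eq_mul]
    _ ≤ (4 * (n : ℝ) ^ 2) *
        (C₁ * (n : ℝ) ^ (-(1 / 4) : ℝ) * ((1 + 2 / (1 - q)) * (n : ℝ) ^ (1 - q)) ^ 2) := by
        refine mul_le_mul_of_nonneg_right ?_ (by positivity)
        refine le_trans ?_ (card_Box n hn)
        exact_mod_cast card_le_card hsub
    _ = C₁ * 4 * (1 + 2 / (1 - q)) ^ 2 * ((n : ℝ) ^ (2 : ℝ) * (n : ℝ) ^ (-(1 / 4) : ℝ) *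
        ((n : ℝ) ^ (1 - q) * (n : ℝ) ^ (1 - q))) := by
        rw [Real.rpow_two]; ring
    _ = C₁ * 4 * (1 + 2 / (1 - q)) ^ 2 * (n : ℝ) ^ (7 / 2 - s) := by
        rw [← Real.rpow_add hn0, ← Real.rpow_add hn0, ← Real.rpow_add hn0]
        congr 2
        rw [hq]; ring

end Pool.Agent.Perc.PercD
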