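import Pool.Agent.Lib.MP_6bd702_percD.Curve

/-!
# Closed polygons
-/

set_option autoImplicit false

namespace Pool.Agent.PercD

open Set Filter Topology

theorem poly_int (V : ℤ → ℂ) (k : ℤ) : poly V k = V k := by
  rw [poly_eq V k ⟨le_rfl, by linarith⟩]
  simp

theorem poly_mem_segment (V : ℤ → ℂ) (t : ℝ) :
    poly V t ∈ segment ℝ (V ⌊t⌋) (V (⌊t⌋ + 1)) := by
  rw [segment_eq_image']
  exact ⟨Int.fract t, ⟨Int.fract_nonneg t, (Int.fract_lt_one t).le⟩, rfl⟩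

theorem exists_poly_eq {V : ℤ → ℂ} {k : ℤ} {z : ℂ} (h : z ∈ segment ℝ (V k) (V (k + 1))) :
    ∃ t ∈ Icc (k : ℝ) (k + 1), poly V t = z := by
  rw [segment_eq_image'] at h
  obtain ⟨s, ⟨h1, h2⟩, rfl⟩ := h
  have ht : (k : ℝ) + s ∈ Icc (k : ℝ) (k + 1) := ⟨by linarith, by linarith⟩
  refine ⟨k + s, ht, ?_⟩
  rw [poly_eq V k ht]
  simp

theorem range_poly (V : ℤ → ℂ) : range (poly V) = ⋃ k, segment ℝ (V k) (V (k + 1)) := by
  ext z
  simp only [mem_range, mem_iUnion]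
  constructor
  · rintro ⟨t, rfl⟩
    exact ⟨_, poly_mem_segment V t⟩
  · rintro ⟨k, hk⟩
    obtain ⟨t, -, ht⟩ := exists_poly_eq hk
    exact ⟨t, ht⟩

variable {V : ℤ → ℂ} {p : ℕ} {h : ∀ j, V (j + p) = V j}

theorem polyLoop_f (t : ℝ) : (polyLoop V p h).f t = poly V (p * t) := rfl

theorem range_polyLoop (hp : 0 < p) :
    range (polyLoop V p h).f = ⋃ k, segment ℝ (V k) (V (k + 1)) := by
  rw [← range_poly]
  have hp' : (p : ℝ) ≠ 0 := by positivity
  ext z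
  constructor
  · rintro ⟨t, rfl⟩
    exact ⟨_, rfl⟩
  · rintro ⟨t, rfl⟩
    refine ⟨t / p, ?_⟩
    rw [polyLoop_f]
    congr 1
    field_simp

/-- Starting the closed polygon at another point does not change the curve. -/
theorem dist_polyLoop_shift (hp : 0 < p) {W : ℤ → ℂ} {h' : ∀ j, W (j + p) = W j} (i : ℤ)
    (hW : ∀ j, W j = V (j + i)) : dist (polyLoop V p h) (polyLoop W p h') = 0 := by
  have hp' : (p : ℝ) ≠ 0 := by positivity
  refine le_antisymm ?_ dist_nonneg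
  refine Loop.dist_le ⟨OrderIso.addRight (-(i : ℝ) / p), fun t => ?_⟩ fun t => ?_
  · simp only [OrderIso.addRight_apply]
    ring
  · simp only [OrderIso.addRight_apply]
    rw [polyLoop_f, polyLoop_f]
    have h1 : W = fun j => V (j + i) := funext hW
    rw [h1, ← poly_shift]
    have h2 : (p : ℝ) * (t + -(i : ℝ) / p) + i = p * t := by
      field_simp
      ring
    rw [h2, dist_self]

/-- Two visits of a point with far points on both arcs. -/
theorem polyLoop_mem_Dbl (hp : 0 < p) {η : ℝ} {i j a b : ℤ} (hia : i ≤ a) (haj : a ≤ j)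
    (hjb : j ≤ b) (hbi : b ≤ i + p) (hij : V i = V j) (ha : η ≤ dist (V i) (V a))
    (hb : η ≤ dist (V i) (V b)) : polyLoop V p h ∈ Loop.Dbl η := by
  have hp' : (0 : ℝ) < p := by positivity
  have hv : ∀ k : ℤ, (polyLoop V p h).f ((k : ℝ) / p) = V k := by
    intro k
    rw [polyLoop_f, mul_div_cancel₀ _ hp'.ne', poly_int]
  have hle : ∀ {k l : ℤ}, k ≤ l → (k : ℝ) / p ≤ (l : ℝ) / p := by
    intro k l hkl
    gcongr
  have h1 : (i : ℝ) / p + 1 = ((i + p : ℤ) : ℝ) / p := by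
    push_cast
    field_simp
  refine ⟨(i : ℝ) / p, (j : ℝ) / p, hle (hia.trans haj), ?_, ?_, ?_, ?_⟩
  · rw [h1]; exact hle (hjb.trans hbi)
  · rw [hv, hv, hij]
  · refine ⟨(i : ℝ) / p, ⟨le_rfl, hle (hia.trans haj)⟩, (a : ℝ) / p, ⟨hle hia, hle haj⟩, ?_⟩
    rw [hv, hv]; exact ha
  · rw [h1]
    refine ⟨(j : ℝ) / p, ⟨le_rfl, hle (hjb.trans hbi)⟩, (b : ℝ) / p, ⟨hle hjb, hle hbi⟩, ?_⟩
    rw [hv, hv, ← hij]; exact hb

end Pool.Agent.PercD
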