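import Pool.Agent.Lib.MP_6bd702_percD.CurveCut
import Pool.Agent.Lib.MP_6bd702_percD.Poly

/-!
# Cutting a closed polygon: either few short arcs or many long arcs
-/

set_option autoImplicit false

namespace Pool.Agent.PercD

open Set Filter Topology

open Classical in
/-- The first index after `a` (at most `p`) at distance more than `ρ` from the point `a`. -/
noncomputable def nx (V : ℤ → ℂ) (p : ℕ) (ρ : ℝ) (a : ℕ) : ℕ :=
  if h : ∃ b : ℕ, a < b ∧ b ≤ p ∧ ρ < dist (V a) (V b) then Nat.find h else p

variable {V : ℤ → ℂ} {p : ℕ} {ρ : ℝ}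

theorem nx_le (a : ℕ) : nx V p ρ a ≤ p := by
  classical
  unfold nx
  split_ifs with h
  · exact (Nat.find_spec h).2.1
  · exact le_rfl

theorem lt_nx {a : ℕ} (ha : a < p) : a < nx V p ρ a := by
  classical
  unfold nx
  split_ifs with h
  · exact (Nat.find_spec h).1
  · exact ha

theorem nx_far {a : ℕ} (h : nx V p ρ a < p) : ρ < dist (V a) (V (nx V p ρ a)) := by
  classical
  unfold nx at h ⊢
  split_ifs at h ⊢ with h1
  · exact (Nat.find_spec h1).2.2
  · omega

theorem nx_near (hρ : 0 ≤ ρ) {a b : ℕ} (hab : a ≤ b) (hb : b < nx V p ρ a) :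
    dist (V a) (V b) ≤ ρ := by
  classical
  rcases hab.eq_or_lt with rfl | hab
  · rw [dist_self]
    exact hρ
  · have hbp : b < p := hb.trans_le (nx_le a)
    unfold nx at hb
    split_ifs at hb with h1
    · have := Nat.find_min h1 hb
      by_contra hcon
      exact this ⟨hab, hbp.le, not_le.1 hcon⟩
    · by_contra hcon
      exact h1 ⟨b, hab, hbp.le, not_le.1 hcon⟩

/-- The greedy cut points. -/
noncomputable def gs (V : ℤ → ℂ) (p : ℕ) (ρ : ℝ) (j : ℕ) : ℕ := (nx V p ρ)^[j] 0

theorem gs_succ (j : ℕ) : gs V p ρ (j + 1) = nx V p ρ (gs V p ρ j) := by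
  unfold gs
  rw [Function.iterate_succ_apply']

theorem gs_le (j : ℕ) : gs V p ρ j ≤ p := by
  cases j with
  | zero => exact Nat.zero_le _
  | succ j => rw [gs_succ]; exact nx_le _

theorem le_gs (j : ℕ) : j ≤ gs V p ρ j ∨ gs V p ρ j = p := by
  induction j with
  | zero => exact Or.inl (Nat.zero_le _)
  | succ j ih =>
    rcases (gs_le (V := V) (p := p) (ρ := ρ) (j + 1)).lt_or_eq with h | h
    · left
      rcases (gs_le (V := V) (p := p) (ρ := ρ) j).lt_or_eq with h' | h'
      · have h1 := lt_nx (V := V) (ρ := ρ) h'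
        rw [← gs_succ] at h1
        rcases ih with ih | ih
        · omega
        · omega
      · exfalso
        have h2 : p ≤ nx V p ρ p := by
          classical
          unfold nx
          split_ifs with h3
          · exact (Nat.find_spec h3).1.le
          · exact le_rfl
        rw [gs_succ, h'] at h
        omega
    · exact Or.inr h

theorem exists_gs : ∃ j, gs V p ρ j = p := by
  rcases le_gs (V := V) (p := p) (ρ := ρ) p with h | h
  · exact ⟨p, le_antisymm (gs_le p) h⟩
  · exact ⟨p, h⟩

variable {h : ∀ j, V (j + p) = V j}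

/-- A point of the polygon between two vertices is near the first one if all the vertices between
them are. -/
theorem poly_near {a b : ℕ} {δ : ℝ} (hn : ∀ c : ℕ, a ≤ c → c ≤ b → dist (V a) (V c) ≤ δ) {y : ℝ}
    (hy : y ∈ Icc (a : ℝ) b) : dist (V a) (poly V y) ≤ δ := by
  have hy0 : 0 ≤ y := (Nat.cast_nonneg a).trans hy.1
  obtain ⟨c, hc⟩ := Int.eq_ofNat_of_zero_le (Int.floor_nonneg.2 hy0)
  have h1 : (c : ℝ) ≤ y := by
    have := Int.floor_le y
    rw [hc] at this
    exact_mod_cast this
  have h2 : y < c + 1 := by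
    have := Int.lt_floor_add_one y
    rw [hc] at this
    exact_mod_cast this
  have hac : a ≤ c := by
    have : (a : ℝ) < c + 1 := hy.1.trans_lt h2
    have : a < c + 1 := by exact_mod_cast this
    omega
  have hcb : c ≤ b := by
    have : (c : ℝ) ≤ b := h1.trans hy.2
    exact_mod_cast this
  rcases hcb.lt_or_eq with hcb | hcb
  · have h3 : poly V y ∈ segment ℝ (V (c : ℤ)) (V ((c : ℤ) + 1)) := by
      have := poly_mem_segment V y
      rw [hc] at this
      exact this
    have h4 : segment ℝ (V (c : ℤ)) (V ((c : ℤ) + 1)) ⊆ Metric.closedBall (V a) δ := by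
      refine (convex_closedBall (V a) δ).segment_subset ?_ ?_
      · rw [Metric.mem_closedBall, dist_comm]
        exact hn c hac hcb.le
      · rw [Metric.mem_closedBall, dist_comm]
        exact_mod_cast hn (c + 1) (by omega) hcb
    have h5 := h4 h3
    rw [Metric.mem_closedBall, dist_comm] at h5
    exact h5
  · subst hcb
    have hyc : y = ((c : ℤ) : ℝ) := by
      apply le_antisymm
      · exact_mod_cast hy.2
      · exact_mod_cast h1
    rw [hyc, poly_int]
    exact hn c hac le_rfl

/-- Either the closed polygon can be cut into at most `m` short arcs or it has `m` long arcs. -/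
theorem poly_cut_or {δ : ℝ} (hp : 0 < p) (hρ : 0 ≤ ρ)
    (hstep : ∀ a : ℕ, dist (V a) (V (a + 1)) ≤ δ) (m : ℕ) :
    (∃ m' ≤ m, polyLoop V p h ∈ Loop.Cut (ρ + δ) m') ∨
      ∃ i : ℕ → ℕ, (∀ j < m, i j < i (j + 1)) ∧ i m < p ∧
        ∀ j < m, ρ < dist (V (i j)) (V (i (j + 1))) := by
  classical
  have hδ : 0 ≤ δ := dist_nonneg.trans (hstep 0)
  have hp' : (0 : ℝ) < p := by positivity
  obtain ⟨J, hJ, hmin⟩ : ∃ J, gs V p ρ J = p ∧ ∀ j < J, gs V p ρ j < p :=
    ⟨Nat.find exists_gs, Nat.find_spec exists_gs, fun j hj =>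
      lt_of_le_of_ne (gs_le j) (Nat.find_min exists_gs hj)⟩
  rcases Nat.lt_or_ge m J with hmJ | hmJ
  · right
    refine ⟨gs V p ρ, fun j hj => ?_, hmin m hmJ, fun j hj => ?_⟩
    · rw [gs_succ]
      exact lt_nx (hmin j (hj.trans hmJ))
    · rw [gs_succ]
      refine nx_far ?_
      rw [← gs_succ]
      exact hmin _ (lt_of_le_of_lt hj hmJ)
  · left
    have hJ0 : 0 < J := by
      rcases Nat.eq_zero_or_pos J with h0 | h0
      · rw [h0] at hJ
        have : gs V p ρ 0 = 0 := rfl
        omega
      · exact h0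
    refine ⟨J, hmJ, Loop.mem_cut_of_nat hJ0 (fun j => (gs V p ρ j : ℝ) / p) (fun j hj => ?_) ?_
      fun j hj x hx => ?_⟩
    · refine div_lt_div_of_pos_right ?_ hp'
      rw [gs_succ]
      exact_mod_cast lt_nx (hmin j hj)
    · have h0 : gs V p ρ 0 = 0 := rfl
      simp only [hJ, h0, Nat.cast_zero, zero_div, zero_add]
      exact div_self hp'.ne'
    · rw [polyLoop_f, polyLoop_f, mul_div_cancel₀ _ hp'.ne']
      have e1 : poly V (gs V p ρ j : ℝ) = V (gs V p ρ j : ℤ) := by
        have := poly_int V (gs V p ρ j : ℤ)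
        exact_mod_cast this
      rw [e1]
      have hx1 := hx.1
      have hx2 := hx.2
      rw [div_le_iff₀ hp'] at hx1
      rw [le_div_iff₀ hp'] at hx2
      refine poly_near (a := gs V p ρ j) (b := gs V p ρ (j + 1)) (fun c hc1 hc2 => ?_)
        ⟨by linarith, by linarith⟩
      rcases hc2.lt_or_eq with hc2 | hc2
      · rw [gs_succ] at hc2
        have := nx_near hρ hc1 hc2
        linarith
      · have hlt : gs V p ρ j < c := by
          rw [hc2, gs_succ]
          exact lt_nx (hmin j hj)
        obtain ⟨c', rfl⟩ : ∃ c', c = c' + 1 := ⟨c - 1, by omega⟩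
        have h1 : dist (V (gs V p ρ j : ℤ)) (V (c' : ℤ)) ≤ ρ := by
          refine nx_near (p := p) hρ (by omega) ?_
          rw [← gs_succ, ← hc2]
          exact Nat.lt_succ_self c'
        have h2 := hstep c'
        have h3 := dist_triangle (V (gs V p ρ j : ℤ)) (V (c' : ℤ)) (V ((c' : ℤ) + 1))
        push_cast
        linarith

end Pool.Agent.PercD
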