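import Pool.Agent.Lib.MP_6bd702_percD.TightCount
import Pool.Agent.Lib.MP_6bd702_percD.PolyCut
import Pool.Agent.Lib.MP_6bd702_percD.CurveExist
import Pool.Agent.Lib.MP_6bd702_percd.Macro

/-!
# Tightness of the outer perimeters in the curve metric
-/

set_option autoImplicit false

namespace Pool.Agent.PercD

open Filter Topology Pool.Agent.Perc
open Pool.Agent.MP_6bd702.H23 (Ed)
open Pool.Agent.PercU (Cor vtx nxt nxtE)
open Pool.Agent.PercO (sd)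
open Pool.Agent.PercW (LayX LayY)

namespace Tight

theorem dist_toC_le (v w : ℤ × ℤ) : dist (toC v) (toC w) ≤ 2 * (sd v w : ℝ) := by
  have h1 : |(v.1 : ℝ) - w.1| ≤ (sd v w : ℝ) := by
    have : |v.1 - w.1| ≤ sd v w := le_max_left _ _
    exact_mod_cast this
  have h2 : |(v.2 : ℝ) - w.2| ≤ (sd v w : ℝ) := by
    have : |v.2 - w.2| ≤ sd v w := le_max_right _ _
    exact_mod_cast this
  have e1 : (toC v - toC w).re = (v.1 : ℝ) - w.1 := by simp [toC]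
  have e2 : (toC v - toC w).im = (v.2 : ℝ) - w.2 := by simp [toC]
  calc dist (toC v) (toC w) = ‖toC v - toC w‖ := dist_eq_norm _ _
    _ ≤ |(toC v - toC w).re| + |(toC v - toC w).im| := Complex.norm_le_abs_re_add_abs_im _
    _ ≤ 2 * (sd v w : ℝ) := by
      rw [e1, e2]
      linarith

theorem posC_nat (n : ℕ) (ω : Set Ed) (k : Cor) (j : ℕ) :
    posC n ω k (j : ℤ) = toC (vtx ((nxt ω)^[j] k)) / n := by
  unfold posC
  rw [zpow_natCast, PercO.iterate_nxt]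

theorem dist_div (z w : ℂ) (n : ℕ) : dist (z / n) (w / n) = dist z w / n := by
  rw [dist_eq_norm, ← sub_div, norm_div, Complex.norm_natCast, dist_eq_norm]

/-- If the loop cannot be cut into few short arcs, it has many long arcs. -/
theorem chain_of_not_cut {n M : ℕ} {T : Finset Edg} {u : ℤ × ℤ} {κ : ℝ} {L : ℤ} (hκ : 0 < κ)
    (hn : 1 ≤ κ / 2 * n) (hL : (L : ℝ) ≤ κ / 4 * n) (hT : T ⊆ boxE n) (hu : u ∈ Box n)
    (h : ¬ ∃ m ≤ M, outerLoop n T u ∈ Loop.Cut κ m) : T ∈ Chain n L M := by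
  have hn0 : (0 : ℝ) < n := by
    by_contra hcon
    have : (n : ℝ) = 0 := le_antisymm (not_lt.1 hcon) (Nat.cast_nonneg n)
    rw [this] at hn
    linarith
  obtain ⟨b1, b2⟩ := baseC_spec (u := u) hT
  have hp := minimalPeriod_pos hT b1
  have hstep : ∀ a : ℕ, dist (posC n (T : Set Ed) (baseC T u) a)
      (posC n (T : Set Ed) (baseC T u) (a + 1)) ≤ 1 / n := by
    intro a
    have e1 : ((a : ℤ) + 1) = ((a + 1 : ℕ) : ℤ) := by push_cast; rfl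
    rw [e1, posC_nat, posC_nat, dist_div, Function.iterate_succ_apply']
    exact div_le_div_of_nonneg_right (dist_toC_nxt _ _) hn0.le
  rcases poly_cut_or (V := posC n (T : Set Ed) (baseC T u))
    (h := posC_per n (T : Set Ed) (baseC T u)) (ρ := κ / 2) hp (by positivity) hstep M with
    ⟨m', hm', hc⟩ | ⟨i, hi, him, hlong⟩
  · exfalso
    refine h ⟨m', hm', Loop.Cut.mono ?_ hc⟩
    have : 1 / (n : ℝ) ≤ κ / 2 := by
      rw [div_le_iff₀ hn0]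
      exact hn
    linarith
  · refine ⟨baseC T u, BoxAux.clV_subset_box hT hu b1, i, hi, him, fun j hj => ?_⟩
    have h1 := hlong j hj
    rw [posC_nat, posC_nat, dist_div, lt_div_iff₀ hn0, dist_comm] at h1
    have h2 := dist_toC_le (vtx ((nxt (T : Set Ed))^[i (j + 1)] (baseC T u)))
      (vtx ((nxt (T : Set Ed))^[i j] (baseC T u)))
    have h3 : (L : ℝ) ≤ (sd (vtx ((nxt (T : Set Ed))^[i (j + 1)] (baseC T u)))
      (vtx ((nxt (T : Set Ed))^[i j] (baseC T u))) : ℝ) := by linarith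
    exact_mod_cast h3

/-- The sizes. -/
theorem sizes {κ κ' c : ℝ} (hκ : 0 < κ) (hc : 0 < c) (h1 : 256 * c ≤ κ) (h2 : 256 * c ≤ κ') :
    ∀ᶠ n : ℕ in atTop, 1 ≤ n ∧ 1 ≤ ⌊c * n⌋₊ ∧ c * n / 2 ≤ (⌊c * n⌋₊ : ℝ) ∧
      ((3 * (⌊c * n⌋₊ : ℤ) + 1 : ℤ) : ℝ) ≤ κ' * n ∧ κ / 64 * n ≤ ((⌊κ / 32 * n⌋₊ : ℤ) : ℝ) ∧
      1 ≤ (⌊κ / 32 * n⌋₊ : ℤ) ∧ 1 ≤ κ / 2 * n ∧
      ((2 * (3 * (⌊c * n⌋₊ : ℤ) + 2 + (⌊κ / 32 * n⌋₊ : ℤ)) : ℤ) : ℝ) ≤ κ / 4 * n := by
  have hlim : Tendsto (fun n : ℕ => c * (n : ℝ)) atTop atTop :=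
    tendsto_natCast_atTop_atTop.const_mul_atTop hc
  filter_upwards [eventually_ge_atTop 1, hlim.eventually_ge_atTop 2] with n hn hcn
  have hn0 : (0 : ℝ) < n := by exact_mod_cast hn
  have e1 : c * n * 256 ≤ κ * n := by
    have := mul_le_mul_of_nonneg_right h1 hn0.le
    linarith
  have e2 : c * n * 256 ≤ κ' * n := by
    have := mul_le_mul_of_nonneg_right h2 hn0.le
    linarith
  have f1 : (⌊c * n⌋₊ : ℝ) ≤ c * n := Nat.floor_le (by positivity)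
  have f2 : c * n < (⌊c * n⌋₊ : ℝ) + 1 := Nat.lt_floor_add_one _
  have f3 : (⌊κ / 32 * n⌋₊ : ℝ) ≤ κ / 32 * n := Nat.floor_le (by positivity)
  have f4 : κ / 32 * n < (⌊κ / 32 * n⌋₊ : ℝ) + 1 := Nat.lt_floor_add_one _
  refine ⟨hn, Nat.le_floor (by push_cast; linarith), by linarith, ?_, ?_, ?_, ?_, ?_⟩
  · push_cast
    linarith
  · push_cast
    linarith
  · have : 1 ≤ ⌊κ / 32 * n⌋₊ := Nat.le_floor (by push_cast; linarith)
    exact_mod_cast this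
  · linarith
  · push_cast
    linarith

end Tight

open Tight in
/-- The numbers of arcs are bounded in probability. -/
theorem targetCuts_of (hU : UpperHyp) (hT : TailHyp) : TargetCuts := by
  intro κ ε hκ hε
  obtain ⟨C, hC, hU'⟩ := hU
  obtain ⟨κ', hκ', hlay⟩ := lay_small (κ / 64) (ε / 3) (by positivity) (by positivity)
  set c : ℝ := min κ κ' / 256 with hcd
  have hc : 0 < c := by rw [hcd]; positivity
  have hc1 : 256 * c ≤ κ := by rw [hcd]; linarith [min_le_left κ κ']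
  have hc2 : 256 * c ≤ κ' := by rw [hcd]; linarith [min_le_right κ κ']
  obtain ⟨N, hN⟩ := exists_nat_ge (8 / c)
  obtain ⟨x, hx, hlt⟩ := lt_bound ⟨C, hC, hU'⟩ hT
    (η := ε / (3 * (2 * (N : ℝ) + 1) ^ 2)) (by positivity)
  obtain ⟨M₀, hM₀⟩ := exists_nat_ge (192 * C / (x * c ^ 2 * ε))
  refine ⟨M₀ + 1, fun sel hsel => ?_⟩
  filter_upwards [hlay, sizes hκ hc hc1 hc2] with n hlayn hsz
  obtain ⟨z1, z2, z3, z4, z5, z6, z7, z8⟩ := hsz
  set ρ : ℕ := ⌊c * n⌋₊ with hρ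
  set E : ℕ := ⌊κ / 32 * n⌋₊ with hE
  have hn1 : (1 : ℝ) ≤ n := by exact_mod_cast z1
  have hρ0 : (0 : ℝ) < ρ := by exact_mod_cast z2
  have hNρ : 2 * n + 2 ≤ N * ρ := by
    have h1 : (4 : ℝ) * n ≤ N * ρ := by
      have h2 : 8 / c * (c * n / 2) ≤ N * ρ := mul_le_mul hN z3 (by positivity) (by positivity)
      have h3 : 8 / c * (c * n / 2) = 4 * n := by
        field_simp
        ring
      linarith
    have h4 : ((2 * n + 2 : ℕ) : ℝ) ≤ ((N * ρ : ℕ) : ℝ) := by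
      push_cast
      linarith
    exact_mod_cast h4
  have hy : 0 < x * (ρ : ℝ) ^ (7 / 4 : ℝ) := by positivity
  have hmain := pr_chain_le (n := n) (ρ := ρ) (N := N) (m := M₀ + 1) (w := 3 * (ρ : ℤ) + 1)
    (E := E) (y := x * (ρ : ℝ) ^ (7 / 4 : ℝ)) z2 z6 le_rfl hNρ (Nat.succ_pos _) hy
    (fun v => hlt v ρ z2) (fun e => hU' e ρ z2)
  have hsub : prB n {T | ¬ ∃ m ≤ M₀ + 1, outerLoop n T (sel n T) ∈ Loop.Cut κ m} ≤
      prB n (Chain n (2 * (3 * ρ + 2 + E)) (M₀ + 1)) := by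
    refine PercW.prB_mono fun T hT' hA => ?_
    exact chain_of_not_cut hκ z7 z8 hT' (hsel n T hT').1 hA
  refine hsub.trans (hmain.trans ?_)
  have t1 : prB n {T | (T : Set Ed) ∈ LayX n (3 * (ρ : ℤ) + 1) E ∨
      (T : Set Ed) ∈ LayY n (3 * (ρ : ℤ) + 1) E} ≤ ε / 3 := hlayn _ _ z4 z5
  have t2 : (2 * (N : ℝ) + 1) ^ 2 * (ε / (3 * (2 * (N : ℝ) + 1) ^ 2)) = ε / 3 := by
    field_simp
  have t3 : 4 * ((n : ℝ) + 1) ^ 2 * (C * (ρ : ℝ) ^ (-(1 / 4 : ℝ))) /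
      (((M₀ + 1 : ℕ) : ℝ) * (x * (ρ : ℝ) ^ (7 / 4 : ℝ))) ≤ ε / 3 := by
    have e1 : (ρ : ℝ) ^ (7 / 4 : ℝ) = (ρ : ℝ) ^ 2 * (ρ : ℝ) ^ (-(1 / 4 : ℝ)) := by
      rw [← Real.rpow_natCast, ← Real.rpow_add hρ0]
      norm_num
    have e2 : 0 < (ρ : ℝ) ^ (-(1 / 4 : ℝ)) := Real.rpow_pos_of_pos hρ0 _
    have e3 : 4 * ((n : ℝ) + 1) ^ 2 * (C * (ρ : ℝ) ^ (-(1 / 4 : ℝ))) /
        (((M₀ + 1 : ℕ) : ℝ) * (x * (ρ : ℝ) ^ (7 / 4 : ℝ))) =
        4 * ((n : ℝ) + 1) ^ 2 * C / (((M₀ + 1 : ℕ) : ℝ) * (x * (ρ : ℝ) ^ 2)) := by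
      rw [e1]
      field_simp
    rw [e3, div_le_iff₀ (by positivity)]
    have e4 : 4 * ((n : ℝ) + 1) ^ 2 * C ≤ 16 * (n : ℝ) ^ 2 * C := by
      refine mul_le_mul_of_nonneg_right ?_ hC.le
      nlinarith
    have e5 : c ^ 2 * (n : ℝ) ^ 2 / 4 ≤ (ρ : ℝ) ^ 2 := by
      have := pow_le_pow_left₀ (by positivity) z3 2
      calc c ^ 2 * (n : ℝ) ^ 2 / 4 = (c * n / 2) ^ 2 := by ring
        _ ≤ _ := this
    have e6 : 192 * C ≤ (M₀ + 1) * (x * c ^ 2 * ε) := by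
      rw [div_le_iff₀ (by positivity)] at hM₀
      have : 0 < x * c ^ 2 * ε := by positivity
      linarith
    have e7 : 16 * (n : ℝ) ^ 2 * C ≤ ε / 3 * ((M₀ + 1) * (x * (c ^ 2 * (n : ℝ) ^ 2 / 4))) := by
      have := mul_le_mul_of_nonneg_right e6 (show 0 ≤ (n : ℝ) ^ 2 / 12 by positivity)
      calc 16 * (n : ℝ) ^ 2 * C = 192 * C * ((n : ℝ) ^ 2 / 12) := by ring
        _ ≤ _ := this
        _ = _ := by ring
    have e8 : ε / 3 * ((M₀ + 1) * (x * (c ^ 2 * (n : ℝ) ^ 2 / 4))) ≤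
        ε / 3 * ((M₀ + 1) * (x * (ρ : ℝ) ^ 2)) := by
      refine mul_le_mul_of_nonneg_left (mul_le_mul_of_nonneg_left
        (mul_le_mul_of_nonneg_left e5 hx.le) (by positivity)) (by positivity)
    push_cast
    linarith
  rw [t2]
  linarith

/-- Tightness and existence of limits along subsequences. -/
theorem targetTight_of_hyp (hU : UpperHyp) (hT : TailHyp) : TargetTight :=
  targetTight_of (targetCuts_of hU hT)

theorem targetExist_of_hyp (hU : UpperHyp) (hT : TailHyp) : TargetExist :=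
  targetExist_of (targetTight_of_hyp hU hT)

end Pool.Agent.PercD
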