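import Pool.Agent.Lib.MP_6bd702_percD.LawP
import Pool.Agent.Lib.MP_6bd702_pr_h60.OutAssembly

/-!
# The outer boundary of the limit curves, and the final form with all three properties
-/

set_option autoImplicit false

namespace Pool.Agent.PercD

open Set Filter Topology MeasureTheory TopologicalSpace
open Pool.Agent.Perc Pool.Agent.PercS5

/-- Almost surely for every subsequential limit law, the outer boundary of the curve has
dimension `4 / 3`. -/
def TargetOutCurve : Prop := ∀ (sel : ℕ → Finset Edg → ℤ × ℤ) (φ : ℕ → ℕ) (μ : Measure Curve)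
  [IsProbabilityMeasure μ], (∀ n, IsSel n (sel n)) → StrictMono φ → LimitCurve sel φ μ →
    ∀ᵐ c : Curve ∂μ, dimH (outB (c.trace : Set ℂ)) = 4 / 3

theorem targetOutCurve_of (h : TargetOutB) : TargetOutCurve := by
  intro sel φ μ _ hsel hφ hlim
  let _ : MeasurableSpace (NonemptyCompacts ℂ) := borel _
  have : BorelSpace (NonemptyCompacts ℂ) := ⟨rfl⟩
  have hm : Measurable Curve.trace := Curve.continuous_trace.measurable
  have : IsProbabilityMeasure (μ.map Curve.trace) :=
    Measure.isProbabilityMeasure_map hm.aemeasurable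
  exact ae_of_ae_map hm.aemeasurable
    (h sel φ (μ.map Curve.trace) hsel hφ (limitLaw_of_limitCurve hlim))

/-- The final form: the laws are tight, limits along subsequences exist, and every limit law gives
full measure to the curves with trace of dimension `7 / 4` which are not self-avoiding and whose
outer boundary has dimension `4 / 3`. -/
theorem scaling_full_of (h1 : TargetTight) (h2 : TargetExist) (h3 : TargetCurve)
    (h4 : TargetOutCurve) (sel : ℕ → Finset Edg → ℤ × ℤ) (hsel : ∀ n, IsSel n (sel n)) :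
    IsTightMeasureSet (range fun n => (lawP n (sel n) : Measure Curve)) ∧
    ∀ φ : ℕ → ℕ, Tendsto φ atTop atTop →
      (∃ ψ : ℕ → ℕ, StrictMono ψ ∧ ∃ μ : ProbabilityMeasure Curve,
        Tendsto (fun k => lawP (φ (ψ k)) (sel (φ (ψ k)))) atTop (𝓝 μ)) ∧
      ∀ μ : ProbabilityMeasure Curve, Tendsto (fun k => lawP (φ k) (sel (φ k))) atTop (𝓝 μ) →
        ∀ᵐ c : Curve ∂(μ : Measure Curve), dimH (c.trace : Set ℂ) = 7 / 4 ∧ ¬ c.SelfAvoiding ∧
          dimH (outB (c.trace : Set ℂ)) = 4 / 3 := by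
  obtain ⟨ht, hs⟩ := scaling_of h1 h2 h3 sel hsel
  refine ⟨ht, fun φ hφ => ⟨(hs φ hφ).1, fun μ hμ => ?_⟩⟩
  obtain ⟨ψ, hψ, hmono⟩ := strictMono_subseq_of_tendsto_atTop hφ
  have h5 := h4 sel (φ ∘ ψ) μ hsel hmono (limitCurve_iff.2 (hμ.comp hψ.tendsto_atTop))
  filter_upwards [(hs φ hφ).2 μ hμ, h5] with c hc hc'
  exact ⟨hc.1, hc.2, hc'⟩

end Pool.Agent.PercD
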