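import Pool.Agent.Lib.MP_6bd702_perc.BoxDefs
import Pool.Agent.Lib.MP_6bd702_percu.CornerDefs
import Pool.Agent.Lib.MP_6bd702_percD.CurveDefs

/-!
# The outer perimeter of a cluster as a closed curve, and its law: definitions
-/

set_option autoImplicit false

namespace Pool.Agent.PercD

open Set Filter Topology MeasureTheory
open Pool.Agent.MP_6bd702.H23 (Ed)
open Pool.Agent.PercU (Cor vtx fce nxt nxtE)
open Pool.Agent.Perc
open scoped ENNReal

/-! ### The curve of a corner -/

/-- The position of the corner with number `j` of the interface of the corner `k`. -/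
noncomputable def posC (n : ℕ) (ω : Set Ed) (k : Cor) (j : ℤ) : ℂ :=
  toC (vtx ((nxtE ω ^ j) k)) / n

theorem posC_per (n : ℕ) (ω : Set Ed) (k : Cor) (j : ℤ) :
    posC n ω k (j + (Function.minimalPeriod (nxtE ω) k : ℕ)) = posC n ω k j := by
  unfold posC
  rw [zpow_add, Equiv.Perm.mul_apply, zpow_natCast]
  congr 4
  have h := Function.isPeriodicPt_minimalPeriod (nxtE ω) k
  rw [Function.IsPeriodicPt, Function.IsFixedPt, ← Equiv.Perm.iterate_eq_pow] at *
  exact h

/-- The closed polygon through the vertices of the interface of the corner `k`, rescaled by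
`1 / n`. -/
noncomputable def cornerLoop (n : ℕ) (ω : Set Ed) (k : Cor) : Loop :=
  polyLoop (posC n ω k) (Function.minimalPeriod (nxtE ω) k) (posC_per n ω k)

/-- The closed lattice path around the outer boundary of the cluster of `u`, rescaled by `1 / n`,
as a closed curve. -/
noncomputable def outerLoop (n : ℕ) (T : Finset Edg) (u : ℤ × ℤ) : Loop :=
  cornerLoop n (T : Set Ed) (Classical.epsilon fun k => vtx k ∈ clV T u ∧ Outer T u (fce k))

/-- The outer perimeter of the cluster of `u`, rescaled by `1 / n`, as a closed curve. -/
noncomputable def outerCurve (n : ℕ) (T : Finset Edg) (u : ℤ × ℤ) : Curve :=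
  SeparationQuotient.mk (outerLoop n T u)

/-- The law of the rescaled outer perimeter of the selected cluster as a closed curve. -/
noncomputable def lawC (n : ℕ) (sel : Finset Edg → ℤ × ℤ) : Measure Curve :=
  ∑ T ∈ (boxE n).powerset, ((2 : ℝ≥0∞) ^ (boxE n).card)⁻¹ • Measure.dirac (outerCurve n T (sel T))

instance isProb_lawC (n : ℕ) (sel : Finset Edg → ℤ × ℤ) : IsProbabilityMeasure (lawC n sel) := by
  constructor
  unfold lawC
  rw [Measure.finsetSum_apply]
  simp only [Measure.smul_apply, measure_univ, smul_eq_mul, mul_one]
  rw [Finset.sum_const, Finset.card_powerset, nsmul_eq_mul]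
  push_cast
  exact ENNReal.mul_inv_cancel (by positivity) (ENNReal.pow_ne_top (by norm_num))

/-- The law of the rescaled outer perimeter of the selected cluster, as a probability measure on
the space of closed curves. -/
noncomputable def lawP (n : ℕ) (sel : Finset Edg → ℤ × ℤ) : ProbabilityMeasure Curve :=
  ⟨lawC n sel, isProb_lawC n sel⟩

end Pool.Agent.PercD
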