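import Pool.Agent.Lib.MP_6bd702_percD.OuterDefs
import Pool.Agent.Lib.MP_6bd702_percD.Poly
import Pool.Agent.Lib.MP_6bd702_percD.Defs
import Pool.Agent.Lib.MP_6bd702_pr_h60.Perim

/-!
# The closed curve along the outer perimeter of a cluster
-/

set_option autoImplicit false

namespace Pool.Agent.PercD

open Set Filter Topology
open Pool.Agent.MP_6bd702.H23 Pool.Agent.MP_6bd702.H60 Pool.Agent.PercU Pool.Agent.Perc
open Pool.Agent.PercO

variable {n : ℕ} {T : Finset Edg} {u : ℤ × ℤ}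

theorem exists_outer (hT : T ⊆ boxE n) : ∃ k : Cor, vtx k ∈ clV T u ∧ Outer T u (fce k) := by
  have hfin : (Kc (T : Set Ed) u).Finite := finite_Kc (boxE_sub hT)
  obtain ⟨a, ha, ha'⟩ := Set.exists_min_image (Kc (T : Set Ed) u) (fun w => w.1) hfin
    ⟨u, Relation.ReflTransGen.refl⟩
  refine ⟨(a.1, a.2, false, false), by rw [clV_eq]; exact ha, ?_⟩
  exact outer_left (v := a) (fun w hw => ha' w (by rw [clV_eq] at hw; exact hw)) _

/-- The chosen corner. -/
noncomputable def baseC (T : Finset Edg) (u : ℤ × ℤ) : Cor :=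
  Classical.epsilon fun k => vtx k ∈ clV T u ∧ Outer T u (fce k)

theorem baseC_spec (hT : T ⊆ boxE n) :
    vtx (baseC T u) ∈ clV T u ∧ Outer T u (fce (baseC T u)) :=
  Classical.epsilon_spec (exists_outer hT)

theorem outerLoop_eq : outerLoop n T u = cornerLoop n (T : Set Ed) (baseC T u) := rfl

theorem minimalPeriod_pos (hT : T ⊆ boxE n) {k : Cor} (h : vtx k ∈ clV T u) :
    0 < Function.minimalPeriod (nxtE (T : Set Ed)) k := by
  rw [clV_eq] at h
  obtain ⟨p, hp, hk⟩ := exists_period h (finite_Kc (boxE_sub hT))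
  exact Function.IsPeriodicPt.minimalPeriod_pos hp hk

/-- The choice of the corner does not change the curve. -/
theorem dist_cornerLoop (hT : T ⊆ boxE n) {k k' : Cor} (h1 : vtx k ∈ clV T u)
    (h2 : Outer T u (fce k)) (h1' : vtx k' ∈ clV T u) (h2' : Outer T u (fce k')) :
    dist (cornerLoop n (T : Set Ed) k) (cornerLoop n (T : Set Ed) k') = 0 := by
  obtain ⟨i, hi⟩ := outer_same hT h1 h2 h1' h2'
  have hp := minimalPeriod_pos hT h1
  have hper : Function.minimalPeriod (nxtE (T : Set Ed)) k'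
      = Function.minimalPeriod (nxtE (T : Set Ed)) k := by
    obtain ⟨q, hq⟩ := outer_orbit (boxE_sub hT) (mem_Oc.2 ⟨h1, h2⟩) (mem_Oc.2 ⟨h1', h2'⟩)
    rw [← hq]
    exact Function.minimalPeriod_apply_iterate
      (Function.minimalPeriod_pos_iff_mem_periodicPts.1 hp) q
  have key : ∀ (p : ℕ) (h : ∀ j, posC n (T : Set Ed) k' (j + p) = posC n (T : Set Ed) k' j),
      p = Function.minimalPeriod (nxtE (T : Set Ed)) k →
      dist (cornerLoop n (T : Set Ed) k) (polyLoop (posC n (T : Set Ed) k') p h) = 0 := by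
    rintro p h rfl
    refine dist_polyLoop_shift hp i fun j => ?_
    unfold posC
    rw [zpow_add, Equiv.Perm.mul_apply, hi]
  exact key _ _ hper

theorem dist_outerLoop_cornerLoop (hT : T ⊆ boxE n) {k : Cor} (h1 : vtx k ∈ clV T u)
    (h2 : Outer T u (fce k)) :
    dist (outerLoop n T u) (cornerLoop n (T : Set Ed) k) = 0 :=
  dist_cornerLoop hT (baseC_spec hT).1 (baseC_spec hT).2 h1 h2

/-! ### The trace -/

/-- The points of the curve. -/
theorem mem_trace_iff (hT : T ⊆ boxE n) {z : ℂ} :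
    z ∈ ((outerLoop n T u).trace : Set ℂ) ↔ ∃ k : Cor, vtx k ∈ clV T u ∧ Outer T u (fce k) ∧
      z ∈ segment ℝ (toC (vtx k) / n) (toC (vtx (nxt (T : Set Ed) k)) / n) := by
  obtain ⟨b1, b2⟩ := baseC_spec (u := u) hT
  rw [Loop.coe_trace, outerLoop_eq]
  unfold cornerLoop
  rw [range_polyLoop (minimalPeriod_pos hT b1), mem_iUnion]
  have hnxt : ∀ j : ℤ, (nxtE (T : Set Ed) ^ (j + 1)) (baseC T u)
      = nxt (T : Set Ed) ((nxtE (T : Set Ed) ^ j) (baseC T u)) := by
    intro j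
    rw [add_comm, zpow_add, zpow_one, Equiv.Perm.mul_apply]
    rfl
  have horb := orb_eq_Oc (boxE_sub hT) (mem_Oc.2 ⟨b1, b2⟩)
  constructor
  · rintro ⟨j, hj⟩
    have hmem : (nxtE (T : Set Ed) ^ j) (baseC T u) ∈ Oc (T : Set Ed) u := by
      rw [← horb]; exact ⟨j, rfl⟩
    obtain ⟨m1, m2⟩ := mem_Oc.1 hmem
    refine ⟨_, m1, m2, ?_⟩
    unfold posC at hj
    rw [hnxt] at hj
    exact hj
  · rintro ⟨k, h1, h2, h3⟩
    have hmem : k ∈ Orb (T : Set Ed) (baseC T u) := by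
      rw [horb]; exact mem_Oc.2 ⟨h1, h2⟩
    obtain ⟨j, rfl⟩ := hmem
    refine ⟨j, ?_⟩
    unfold posC
    rw [hnxt]
    exact h3

theorem mem_OutV_iff {v : ℤ × ℤ} : v ∈ OutV T u ↔ v ∈ clV T u ∧
    ∃ e ∈ T, (tl e = v ∨ hd e = v) ∧ ∃ b, Outer T u (side e b) := by
  have hadj : ∀ e ∈ T, tl e ∈ clV T u ↔ hd e ∈ clV T u := fun e he =>
    ⟨fun h => h.tail ⟨e, he, Or.inl ⟨rfl, rfl⟩⟩, fun h => h.tail ⟨e, he, Or.inr ⟨rfl, rfl⟩⟩⟩
  constructor
  · rintro ⟨e, he, h1, h2, h3⟩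
    rcases h3 with rfl | rfl
    · exact ⟨h1, e, he, Or.inl rfl, h2⟩
    · exact ⟨(hadj e he).1 h1, e, he, Or.inr rfl, h2⟩
  · rintro ⟨h1, e, he, h3, h2⟩
    rcases h3 with rfl | rfl
    · exact ⟨e, he, h1, h2, Or.inl rfl⟩
    · exact ⟨e, he, (hadj e he).2 h1, h2, Or.inr rfl⟩

theorem exists_corner_of_mem_OutV {v : ℤ × ℤ} (h : v ∈ OutV T u) :
    ∃ k : Cor, vtx k = v ∧ Outer T u (fce k) := by
  obtain ⟨hv, e, he, hev, b, hb⟩ := mem_OutV_iff.1 h
  obtain ⟨x, y, t⟩ := e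
  cases b <;> cases t
  · -- the lower face of a horizontal edge
    have hb' : Outer T u (x, y - 1) := hb
    rcases hev with h1 | h1
    · exact ⟨(x, y, true, false), h1, hb'⟩
    · refine ⟨(x + 1, y, false, false), h1, ?_⟩
      have : fce ((x + 1, y, false, false) : Cor) = (x, y - 1) := by simp [fce]
      rw [this]; exact hb'
  · have hb' : Outer T u (x - 1, y) := hb
    rcases hev with h1 | h1
    · exact ⟨(x, y, false, true), h1, hb'⟩
    · refine ⟨(x, y + 1, false, false), h1, ?_⟩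
      have : fce ((x, y + 1, false, false) : Cor) = (x - 1, y) := by simp [fce]
      rw [this]; exact hb'
  · have hb' : Outer T u (x, y) := hb
    rcases hev with h1 | h1
    · exact ⟨(x, y, true, true), h1, hb'⟩
    · refine ⟨(x + 1, y, false, true), h1, ?_⟩
      have : fce ((x + 1, y, false, true) : Cor) = (x, y) := by simp [fce]
      rw [this]; exact hb'
  · have hb' : Outer T u (x, y) := hb
    rcases hev with h1 | h1
    · exact ⟨(x, y, true, true), h1, hb'⟩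
    · refine ⟨(x, y + 1, true, false), h1, ?_⟩
      have : fce ((x, y + 1, true, false) : Cor) = (x, y) := by simp [fce]
      rw [this]; exact hb'

theorem vtx_mem_OutV (hne : ∃ w ∈ clV T u, w ≠ u) {k : Cor} (h1 : vtx k ∈ clV T u)
    (h2 : Outer T u (fce k)) : vtx k ∈ OutV T u := by
  rw [clV_eq] at hne
  obtain ⟨i, -, hi⟩ := exists_rot_Oq hne (mem_Oc.2 ⟨h1, h2⟩)
  have hv : vtx (rot^[i] k) = vtx k := by
    clear hi
    induction i with
    | zero => rfl
    | succ i ih => rw [Function.iterate_succ_apply', vtx_rot, ih]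
  obtain ⟨hk, hq⟩ := hi
  obtain ⟨m1, m2⟩ := mem_Oc.1 hk
  refine mem_OutV_iff.2 ⟨h1, qry (rot^[i] k), hq.1, ?_, ?_⟩
  · rcases ends_qry (rot^[i] k) with ⟨h3, -⟩ | ⟨-, h3⟩
    · left; rw [← hv]; exact h3
    · right; rw [← hv]; exact h3
  · rcases fce_c_cases (k := rot^[i] k) with ⟨-, h3⟩ | ⟨-, h3⟩
    · exact ⟨false, by rw [side_false, ← h3]; exact m2⟩
    · exact ⟨true, by rw [side_true, ← h3]; exact m2⟩

theorem vtx_mem_trace (hT : T ⊆ boxE n) {k : Cor} (h1 : vtx k ∈ clV T u)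
    (h2 : Outer T u (fce k)) : toC (vtx k) / n ∈ ((outerLoop n T u).trace : Set ℂ) :=
  (mem_trace_iff hT).2 ⟨k, h1, h2, left_mem_segment _ _ _⟩

/-- The vertices of the outer boundary are on the curve. -/
theorem mem_trace_of_mem_OutV (hT : T ⊆ boxE n) {v : ℤ × ℤ} (h : v ∈ OutV T u) :
    toC v / n ∈ ((outerLoop n T u).trace : Set ℂ) := by
  obtain ⟨k, rfl, h2⟩ := exists_corner_of_mem_OutV h
  exact vtx_mem_trace hT (mem_OutV_iff.1 h).1 h2

theorem dist_toC_nxt (ω : Set Ed) (k : Cor) : dist (toC (vtx k)) (toC (vtx (nxt ω k))) ≤ 1 := by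
  by_cases h : qry k ∈ ω
  · rw [nxt_of_mem h]
    obtain ⟨x, y, _ | _, _ | _⟩ := k <;>
      simp [adv, vtx, toC, dist_eq_norm]
    all_goals (ring_nf; simp)
  · rw [nxt_of_notMem h, vtx_rot, dist_self]
    exact zero_le_one

/-- Every point of the curve is near a vertex of the outer boundary. -/
theorem exists_vtx_near (hT : T ⊆ boxE n) {z : ℂ}
    (hz : z ∈ ((outerLoop n T u).trace : Set ℂ)) :
    ∃ k : Cor, vtx k ∈ clV T u ∧ Outer T u (fce k) ∧ dist z (toC (vtx k) / n) ≤ 1 / n := by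
  obtain ⟨k, h1, h2, h3⟩ := (mem_trace_iff hT).1 hz
  refine ⟨k, h1, h2, ?_⟩
  rw [segment_eq_image'] at h3
  obtain ⟨s, ⟨hs0, hs1⟩, rfl⟩ := h3
  rw [dist_eq_norm, add_sub_cancel_left, norm_smul, Real.norm_of_nonneg hs0, ← sub_div, norm_div,
    ← dist_eq_norm, dist_comm, Complex.norm_natCast, ← mul_div_assoc]
  have h4 := dist_toC_nxt (T : Set Ed) k
  have h5 : 0 ≤ dist (toC (vtx k)) (toC (vtx (nxt (T : Set Ed) k))) := dist_nonneg
  gcongr
  nlinarith

theorem exists_OutV_near (hT : T ⊆ boxE n) (hne : ∃ w ∈ clV T u, w ≠ u) {z : ℂ}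
    (hz : z ∈ ((outerLoop n T u).trace : Set ℂ)) :
    ∃ v ∈ OutV T u, dist z (toC v / n) ≤ 1 / n := by
  obtain ⟨k, h1, h2, h3⟩ := exists_vtx_near hT hz
  exact ⟨vtx k, vtx_mem_OutV hne h1 h2, h3⟩

theorem exists_ne_of_diam_pos (h : 0 < Metric.diam (clS T u)) : ∃ w ∈ clV T u, w ≠ u := by
  rw [clV_eq]
  exact exists_ne_of_diam h

/-! ### Double points -/

/-- Two visits of a vertex by the outer interface, with far vertices on both arcs. -/
theorem outerLoop_mem_Dbl (hT : T ⊆ boxE n) {k : Cor} (h1 : vtx k ∈ clV T u)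
    (h2 : Outer T u (fce k)) {i a j b p : ℕ} (hia : i ≤ a) (haj : a ≤ j) (hjb : j ≤ b)
    (hbp : b ≤ i + p) (hmin : ∀ m, 0 < m → m < p → (nxt (T : Set Ed))^[m] k ≠ k)
    (hij : vtx ((nxt (T : Set Ed))^[i] k) = vtx ((nxt (T : Set Ed))^[j] k)) {ρ : ℝ}
    (ha : ρ ≤ dist (toC (vtx ((nxt (T : Set Ed))^[i] k))) (toC (vtx ((nxt (T : Set Ed))^[a] k))))
    (hb : ρ ≤ dist (toC (vtx ((nxt (T : Set Ed))^[i] k))) (toC (vtx ((nxt (T : Set Ed))^[b] k)))) :
    outerLoop n T u ∈ Loop.Dbl (ρ / n) := by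
  have hpos := minimalPeriod_pos hT h1
  have hle : (p : ℤ) ≤ Function.minimalPeriod (nxtE (T : Set Ed)) k := by
    have h3 : Function.IsPeriodicPt (nxtE (T : Set Ed))
        (Function.minimalPeriod (nxtE (T : Set Ed)) k) k :=
      Function.isPeriodicPt_minimalPeriod _ _
    by_contra hlt
    exact hmin _ hpos (by omega) h3
  have hk : cornerLoop n (T : Set Ed) k ∈ Loop.Dbl (ρ / n) := by
    have hv : ∀ j : ℕ, posC n (T : Set Ed) k j = toC (vtx ((nxt (T : Set Ed))^[j] k)) / n := by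
      intro j
      unfold posC
      rw [zpow_natCast, iterate_nxt]
    have hdist : ∀ z w : ℂ, dist (z / n) (w / n) = dist z w / n := by
      intro z w
      rw [dist_eq_norm, ← sub_div, norm_div, Complex.norm_natCast, dist_eq_norm]
    refine polyLoop_mem_Dbl (i := (i : ℤ)) (j := (j : ℤ)) (a := (a : ℤ)) (b := (b : ℤ)) hpos
      (by exact_mod_cast hia) (by exact_mod_cast haj) (by exact_mod_cast hjb) (by omega) ?_ ?_ ?_
    · rw [hv, hv, hij]
    · rw [hv, hv, hdist]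
      exact div_le_div_of_nonneg_right ha (Nat.cast_nonneg n)
    · rw [hv, hv, hdist]
      exact div_le_div_of_nonneg_right hb (Nat.cast_nonneg n)
  rw [← (Loop.isClosed_Dbl (ρ / n)).closure_eq, Metric.mem_closure_iff]
  intro ε hε
  exact ⟨_, hk, by rw [dist_outerLoop_cornerLoop hT h1 h2]; exact hε⟩

end Pool.Agent.PercD
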