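import Pool.Agent.Lib.MP_6bd702_percD.Targets

/-!
# Elementary sums, and rules for the uniform expectation
-/

set_option autoImplicit false

namespace Pool.Agent.Perc.PercD

open Finset

/-! ### sums of powers -/

theorem rpow_diff {q x : ℝ} (hq1 : q < 1) (hq0 : 0 ≤ q) (hx : 1 ≤ x) :
    (1 - q) * x ^ (-q) ≤ x ^ (1 - q) - (x - 1) ^ (1 - q) := by
  have hx0 : 0 < x := by linarith
  have h1 : (1 + (-(1 / x))) ^ (1 - q) ≤ 1 + (1 - q) * (-(1 / x)) := by
    apply rpow_one_add_le_one_add_mul_self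
    · have : 1 / x ≤ 1 := by rw [div_le_one hx0]; exact hx
      linarith
    · linarith
    · linarith
  have h2 : (x - 1) ^ (1 - q) = x ^ (1 - q) * (1 + (-(1 / x))) ^ (1 - q) := by
    rw [← Real.mul_rpow hx0.le]
    · congr 1; field_simp; ring
    · have : 1 / x ≤ 1 := by rw [div_le_one hx0]; exact hx
      linarith
  have h3 : x ^ (1 - q) * (1 / x) = x ^ (-q) := by
    rw [show (1 - q) = -q + 1 by ring, Real.rpow_add_one hx0.ne']
    field_simp
  rw [h2]
  have h4 : 0 ≤ x ^ (1 - q) := Real.rpow_nonneg hx0.le _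
  nlinarith [mul_le_mul_of_nonneg_left h1 h4]

theorem sum_range_rpow {q : ℝ} (hq1 : q < 1) (hq0 : 0 ≤ q) (N : ℕ) :
    ∑ i ∈ range N, ((i : ℝ) + 1) ^ (-q) ≤ (N : ℝ) ^ (1 - q) / (1 - q) := by
  have hq : 0 < 1 - q := by linarith
  induction N with
  | zero => simp [Real.zero_rpow hq.ne']
  | succ N ih =>
    rw [sum_range_succ]
    have h := rpow_diff hq1 hq0 (x := (N : ℝ) + 1) (by linarith [Nat.cast_nonneg (α := ℝ) N])
    rw [add_sub_cancel_right] at h
    have h2 : ((N : ℝ) + 1) ^ (-q) ≤ (((N : ℝ) + 1) ^ (1 - q) - (N : ℝ) ^ (1 - q)) / (1 - q) := by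
      rw [le_div_iff₀ hq]; linarith
    push_cast
    calc _ ≤ (N : ℝ) ^ (1 - q) / (1 - q) + (((N : ℝ) + 1) ^ (1 - q) - (N : ℝ) ^ (1 - q)) / (1 - q) :=
          add_le_add ih h2
      _ = _ := by ring

/-- The one dimensional sum. -/
theorem sum_abs_rpow {q : ℝ} (hq1 : q < 1) (hq0 : 0 ≤ q) {N : ℕ} (hN : 1 ≤ N) :
    ∑ a ∈ Icc (-(N : ℤ)) N, (max |(a : ℝ)| 1) ^ (-q) ≤ (1 + 2 / (1 - q)) * (N : ℝ) ^ (1 - q) := by
  have hq : 0 < 1 - q := by linarith
  have hsplit : Icc (-(N : ℤ)) N = insert 0 (((range N).image fun i : ℕ => ((i : ℤ) + 1)) ∪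
      ((range N).image fun i : ℕ => (-((i : ℤ) + 1)))) := by
    ext a
    simp only [mem_Icc, mem_insert, mem_union, mem_image, mem_range]
    constructor
    · rintro ⟨h1, h2⟩
      rcases lt_trichotomy a 0 with h | h | h
      · right; right; exact ⟨(-a - 1).toNat, by omega, by omega⟩
      · left; exact h
      · right; left; exact ⟨(a - 1).toNat, by omega, by omega⟩
    · rintro (rfl | ⟨i, hi, rfl⟩ | ⟨i, hi, rfl⟩) <;> omega
  have h0 : (0 : ℤ) ∉ (((range N).image fun i : ℕ => ((i : ℤ) + 1)) ∪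
      ((range N).image fun i : ℕ => (-((i : ℤ) + 1)))) := by
    simp only [mem_union, mem_image, mem_range]
    rintro (⟨i, _, h⟩ | ⟨i, _, h⟩) <;> omega
  have hdisj : Disjoint ((range N).image fun i : ℕ => ((i : ℤ) + 1))
      ((range N).image fun i : ℕ => (-((i : ℤ) + 1))) := by
    rw [disjoint_left]
    simp only [mem_image, mem_range]
    rintro a ⟨i, _, rfl⟩ ⟨j, _, h⟩
    omega
  rw [hsplit, sum_insert h0, sum_union hdisj, sum_image (by intro a _ b _ h; simpa using h),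
    sum_image (by intro a _ b _ h; simpa using h)]
  have e1 : ∀ i : ℕ, (max |(((i : ℤ) + 1 : ℤ) : ℝ)| 1) ^ (-q) = ((i : ℝ) + 1) ^ (-q) := by
    intro i
    push_cast
    rw [abs_of_nonneg (by positivity), max_eq_left (by linarith [Nat.cast_nonneg (α := ℝ) i])]
  have e2 : ∀ i : ℕ, (max |((-((i : ℤ) + 1) : ℤ) : ℝ)| 1) ^ (-q) = ((i : ℝ) + 1) ^ (-q) := by
    intro i
    push_cast
    rw [abs_of_nonpos (by linarith [Nat.cast_nonneg (α := ℝ) i]), neg_neg,
      max_eq_left (by linarith [Nat.cast_nonneg (α := ℝ) i])]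
  simp only [e1, e2]
  have h1 := sum_range_rpow hq1 hq0 N
  have h2 : (1 : ℝ) ≤ (N : ℝ) ^ (1 - q) := Real.one_le_rpow (by exact_mod_cast hN) hq.le
  have h3 : (max |((0 : ℤ) : ℝ)| 1) ^ (-q) = 1 := by simp
  rw [h3]
  calc _ ≤ (N : ℝ) ^ (1 - q) + ((N : ℝ) ^ (1 - q) / (1 - q) + (N : ℝ) ^ (1 - q) / (1 - q)) :=
        add_le_add h2 (add_le_add h1 h1)
    _ = _ := by ring

/-! ### expectations -/

variable {n : ℕ}

theorem exB_mono {g h : Finset Edg → ℝ} (H : ∀ T ⊆ boxE n, g T ≤ h T) : exB n g ≤ exB n h := by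
  unfold exB
  refine div_le_div_of_nonneg_right (sum_le_sum fun T hT => H T (mem_powerset.1 hT)) (by positivity)

theorem exB_nonneg {g : Finset Edg → ℝ} (H : ∀ T ⊆ boxE n, 0 ≤ g T) : 0 ≤ exB n g := by
  unfold exB
  exact div_nonneg (sum_nonneg fun T hT => H T (mem_powerset.1 hT)) (by positivity)

theorem exB_sum {ι : Type*} (I : Finset ι) (g : ι → Finset Edg → ℝ) :
    exB n (fun T => ∑ i ∈ I, g i T) = ∑ i ∈ I, exB n (g i) := by
  unfold exB
  rw [sum_comm, sum_div]

theorem exB_mul_left (c : ℝ) (g : Finset Edg → ℝ) : exB n (fun T => c * g T) = c * exB n g := by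
  unfold exB
  rw [← mul_sum, mul_div_assoc]

open Classical in
theorem prB_eq (A : Set (Finset Edg)) : prB n A = exB n (fun T => if T ∈ A then 1 else 0) := by
  unfold prB exB
  rw [sum_ite, sum_const_zero, add_zero, sum_const, nsmul_eq_mul, mul_one]

theorem prB_mono {A B : Set (Finset Edg)} (h : ∀ T ⊆ boxE n, T ∈ A → T ∈ B) :
    prB n A ≤ prB n B := by
  classical
  rw [prB_eq, prB_eq]
  refine exB_mono fun T hT => ?_
  by_cases hA : T ∈ A
  · simp [hA, h T hT hA]
  · simp only [hA, if_false]; split_ifs <;> norm_num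

theorem prB_nonneg (A : Set (Finset Edg)) : 0 ≤ prB n A := by
  unfold prB; positivity

theorem prB_union (A B C : Set (Finset Edg)) (h : ∀ T ⊆ boxE n, T ∈ C → T ∈ A ∨ T ∈ B) :
    prB n C ≤ prB n A + prB n B := by
  classical
  rw [prB_eq, prB_eq, prB_eq]
  have : exB n (fun T => if T ∈ A then (1 : ℝ) else 0) + exB n (fun T => if T ∈ B then (1 : ℝ) else 0)
      = exB n (fun T => (if T ∈ A then (1 : ℝ) else 0) + if T ∈ B then (1 : ℝ) else 0) := by
    unfold exB
    rw [← add_div, ← sum_add_distrib]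
  rw [this]
  refine exB_mono fun T hT => ?_
  by_cases hC : T ∈ C
  · rcases h T hT hC with h1 | h1
    · simp only [hC, h1, if_true]; split_ifs <;> norm_num
    · simp only [hC, h1, if_true]; split_ifs <;> norm_num
  · simp only [hC, if_false]; split_ifs <;> norm_num

theorem prB_le_one (A : Set (Finset Edg)) : prB n A ≤ 1 := by
  classical
  unfold prB
  rw [div_le_one (by positivity)]
  have h : (((boxE n).powerset.filter fun T => T ∈ A).card : ℝ) ≤ ((boxE n).powerset.card : ℝ) := by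
    exact_mod_cast card_le_card (filter_subset _ _)
  rw [card_powerset] at h
  exact_mod_cast h

/-- Markov inequality. -/
theorem prB_markov {g : Finset Edg → ℝ} (hg : ∀ T ⊆ boxE n, 0 ≤ g T) {t : ℝ} (ht : 0 < t)
    {A : Set (Finset Edg)} (hA : ∀ T ⊆ boxE n, T ∈ A → t ≤ g T) : prB n A ≤ exB n g / t := by
  classical
  rw [le_div_iff₀ ht, mul_comm, prB_eq, ← exB_mul_left]
  refine exB_mono fun T hT => ?_
  by_cases h : T ∈ A
  · simp only [h, if_true, mul_one]; exact hA T hT h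
  · simp only [h, if_false, mul_zero]; exact hg T hT

end Pool.Agent.Perc.PercD
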