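import Pool.Agent.Lib.MP_6bd702_percd.BoxA
import Pool.Agent.Lib.MP_6bd702_percw.Inner

/-!
# Arcs of an interface and components of the matching
-/

set_option autoImplicit false

namespace Pool.Agent.PercD

open Finset Pool.Agent.Perc
open Pool.Agent.MP_6bd702.H23 (Ed Conn Step)
open Pool.Agent.PercU (Cor vtx fce qry qryb nxt prv)
open Pool.Agent.PercO (sd)
open Pool.Agent.PercX60 (gV gF gB gT dB)
open Pool.Agent.PercW (kap ua_kap side_kap Mt_unique mt_nxt mt_prv Lay mem_Lay LayX LayY)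

namespace Strand

variable {T : Set Ed} {k k' : Cor} {r : ℤ} {v : ℤ × ℤ}

/-- The component of a unit edge in a box is contained in the arc between two exits. -/
theorem MM_sub_arc {a b c : ℕ} (hac : a < c) (hcb : c < b)
    (ha : ¬ InE v r (kap ((nxt T)^[a] k))) (hb : ¬ InE v r (kap ((nxt T)^[b] k))) {e : UE}
    (he : e ∈ MM (gT T) (BR v r) (kap ((nxt T)^[c] k))) :
    ∃ l, a < l ∧ l < b ∧ e = kap ((nxt T)^[l] k) := by
  induction he with
  | refl => exact ⟨c, hac, hcb, rfl⟩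
  | tail hprev hs ih =>
    obtain ⟨l, h1, h2, rfl⟩ := ih
    obtain ⟨f, hf, hm⟩ := hs
    have hin : InE v r _ := inE_of_side hf hm.right
    rcases side_kap hm.left with rfl | rfl
    · have h3 := Mt_unique (mt_nxt T ((nxt T)^[l] k)) hm
      rw [← Function.iterate_succ_apply' (f := nxt T)] at h3
      refine ⟨l + 1, by omega, ?_, h3.symm⟩
      rcases Nat.lt_or_ge (l + 1) b with h4 | h4
      · exact h4
      · have h5 : l + 1 = b := by omega
        rw [← h3, Nat.succ_eq_add_one, h5] at hin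
        exact absurd hin hb
    · obtain ⟨l', rfl⟩ : ∃ l', l = l' + 1 := ⟨l - 1, by omega⟩
      have h3 := Mt_unique (mt_prv T ((nxt T)^[l' + 1] k)) hm
      rw [Function.iterate_succ_apply', PercU.prv_nxt] at h3
      refine ⟨l', ?_, by omega, h3.symm⟩
      rcases Nat.lt_or_ge a l' with h4 | h4
      · exact h4
      · have h5 : l' = a := by omega
        rw [← h3, h5] at hin
        exact absurd hin ha

/-- If the interface leaves the box, the component reaches the boundary of the box. -/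
theorem Rch_of_exit {c b : ℕ} (hcb : c ≤ b) (hb : ¬ InE v r (kap ((nxt T)^[b] k)))
    (hc : InE v r (kap ((nxt T)^[c] k))) : gT T ∈ Rch v r (kap ((nxt T)^[c] k)) := by
  have key : ∀ j, kap ((nxt T)^[c + j] k) ∈ MM (gT T) (BR v r) (kap ((nxt T)^[c] k)) ∨
      gT T ∈ Rch v r (kap ((nxt T)^[c] k)) := by
    intro j
    induction j with
    | zero => exact Or.inl mem_MM_self
    | succ j ih =>
      rcases ih with ih | ih
      · by_cases hf : phiE (qry ((nxt T)^[c + j] k)) ∈ (BR v r : Set (ℤ × ℤ))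
        · left
          have := MM_step hf (mt_nxt T ((nxt T)^[c + j] k)) ih
          rw [← Function.iterate_succ_apply' (f := nxt T)] at this
          exact this
        · exact Or.inr ⟨_, ih, bd_of_side (MM_inE hc ih) (mt_nxt T _).left hf⟩
      · exact Or.inr ih
  rcases key (b - c) with h | h
  · rw [Nat.add_sub_cancel' hcb] at h
    exact absurd (MM_inE hc h) hb
  · exact h

/-- A corner far away is outside the box. -/
theorem not_inE_of_sd (h : r + 2 ≤ sd (vtx k') (vtx k)) : ¬ InE (ua (kap k)) r (kap k') := by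
  intro hin
  unfold sd at h
  obtain ⟨x, y, a, b⟩ := k
  obtain ⟨x', y', a', b'⟩ := k'
  have h1 := le_abs_self (x' - x)
  have h2 := neg_le_abs (x' - x)
  have h3 := le_abs_self (y' - y)
  have h4 := neg_le_abs (y' - y)
  have h5 : |x' - x| ≤ max (x' - x) (x - x') := by rw [abs_le]; constructor <;> omega
  have h6 : |y' - y| ≤ max (y' - y) (y - y') := by rw [abs_le]; constructor <;> omega
  simp only [vtx] at h
  have h7 : r + 2 ≤ max (max (x' - x) (x - x')) (max (y' - y) (y - y')) := h.trans (by omega)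
  clear h h1 h2 h3 h4 h5 h6
  rcases a with _ | _ <;> rcases b with _ | _ <;> rcases a' with _ | _ <;> rcases b' with _ | _ <;>
    simp [InE, InR, kap, ua, ub] at hin <;> omega

/-! ### Arcs which avoid the boundary layer -/

theorem sd_comm (u w : ℤ × ℤ) : sd u w = sd w u := by
  unfold sd
  rw [abs_sub_comm u.1, abs_sub_comm u.2]

theorem sd_tri (u w z : ℤ × ℤ) : sd u z ≤ sd u w + sd w z := by
  unfold sd
  have h1 := abs_sub_le u.1 w.1 z.1
  have h2 := abs_sub_le u.2 w.2 z.2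
  omega

theorem sd_self (u : ℤ × ℤ) : sd u u = 0 := by
  unfold sd
  simp

theorem sd_nxt (k : Cor) : sd (vtx (nxt T k)) (vtx k) ≤ 1 := by
  unfold sd
  by_cases h : qry k ∈ T
  · rw [PercU.nxt_of_mem h]
    obtain ⟨x, y, _ | _, _ | _⟩ := k <;> simp [PercU.adv, vtx]
  · rw [PercU.nxt_of_notMem h, PercU.vtx_rot]
    simp

theorem conn_range {R : Set (ℤ × ℤ)} {a : ℕ} (d : ℕ)
    (h : ∀ j, a ≤ j → j ≤ a + d → vtx ((nxt T)^[j] k) ∈ R) :
    Conn T R (vtx ((nxt T)^[a] k)) (vtx ((nxt T)^[a + d] k)) := by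
  induction d with
  | zero => exact .refl
  | succ d ih =>
    refine (ih fun j h1 h2 => h j h1 (by omega)).trans ?_
    have h1 := h (a + d) (by omega) (by omega)
    have h2 := h (a + (d + 1)) (by omega) le_rfl
    have h3 : (nxt T)^[a + (d + 1)] k = nxt T ((nxt T)^[a + d] k) := by
      rw [← add_assoc, Function.iterate_succ_apply']
    rw [h3] at h2 ⊢
    rcases PercU.step_vtx (ω := T) ((nxt T)^[a + d] k) with h4 | ⟨-, -, e, he, hh⟩
    · rw [h4]; exact .refl
    · exact .single ⟨h1, h2, e, he, hh⟩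

/-- The first time the distance from a vertex is at least `D`. -/
theorem exists_first {a b : ℕ} (hab : a ≤ b) {z : ℤ × ℤ} {D : ℤ}
    (h0 : sd (vtx ((nxt T)^[a] k)) z < D) (h1 : D ≤ sd (vtx ((nxt T)^[b] k)) z) :
    ∃ c, a < c ∧ c ≤ b ∧ sd (vtx ((nxt T)^[c] k)) z = D ∧
      ∀ j, a ≤ j → j < c → sd (vtx ((nxt T)^[j] k)) z < D := by
  classical
  have hex : ∃ c, a ≤ c ∧ D ≤ sd (vtx ((nxt T)^[c] k)) z := ⟨b, hab, h1⟩
  obtain ⟨c, hc, hmin⟩ : ∃ c, (a ≤ c ∧ D ≤ sd (vtx ((nxt T)^[c] k)) z) ∧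
      ∀ j < c, ¬ (a ≤ j ∧ D ≤ sd (vtx ((nxt T)^[j] k)) z) :=
    ⟨Nat.find hex, Nat.find_spec hex, fun j hj => Nat.find_min hex hj⟩
  have hac : a < c := by
    rcases hc.1.lt_or_eq with h | h
    · exact h
    · subst h
      omega
  refine ⟨c, hac, ?_, ?_, fun j hj1 hj2 => ?_⟩
  · by_contra hcon
    exact hmin b (by omega) ⟨hab, h1⟩
  · obtain ⟨c', rfl⟩ : ∃ c', c = c' + 1 := ⟨c - 1, by omega⟩
    have h2 : sd (vtx ((nxt T)^[c'] k)) z < D := by
      by_contra hcon
      exact hmin c' (Nat.lt_succ_self _) ⟨by omega, not_lt.1 hcon⟩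
    have h3 := sd_tri (vtx ((nxt T)^[c' + 1] k)) (vtx ((nxt T)^[c'] k)) z
    have h4 : sd (vtx ((nxt T)^[c' + 1] k)) (vtx ((nxt T)^[c'] k)) ≤ 1 := by
      rw [Function.iterate_succ_apply']
      exact sd_nxt _
    have h5 := hc.2
    omega
  · by_contra hcon
    exact hmin j hj2 ⟨hj1, not_lt.1 hcon⟩

/-- A long arc has a corner outside the boundary layer and far from its ends. -/
theorem exists_mid {n w E D : ℤ} {a b : ℕ} (hab : a ≤ b) (hE : 1 ≤ E) (hD : 1 ≤ D)
    (hlong : 2 * (D + E) ≤ sd (vtx ((nxt T)^[b] k)) (vtx ((nxt T)^[a] k)))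
    (hX : T ∉ LayX n w E) (hY : T ∉ LayY n w E) :
    ∃ c, a < c ∧ c < b ∧ vtx ((nxt T)^[c] k) ∉ Lay n w ∧
      D ≤ sd (vtx ((nxt T)^[a] k)) (vtx ((nxt T)^[c] k)) ∧
      D ≤ sd (vtx ((nxt T)^[b] k)) (vtx ((nxt T)^[c] k)) := by
  obtain ⟨p, hap, hpb, hp, -⟩ := exists_first (k := k) hab (z := vtx ((nxt T)^[a] k))
    (D := D + E) (by rw [sd_self]; omega) (by omega)
  have hpb' : D + E ≤ sd (vtx ((nxt T)^[b] k)) (vtx ((nxt T)^[p] k)) := by
    have := sd_tri (vtx ((nxt T)^[b] k)) (vtx ((nxt T)^[p] k)) (vtx ((nxt T)^[a] k))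
    omega
  obtain ⟨q, hpq, hqb, hq, hqmin⟩ := exists_first (k := k) hpb (z := vtx ((nxt T)^[p] k))
    (D := E) (by rw [sd_self]; omega) (by omega)
  have hex : ∃ c, p ≤ c ∧ c ≤ q ∧ vtx ((nxt T)^[c] k) ∉ Lay n w := by
    by_contra hcon
    push Not at hcon
    have hconn : Conn T (Lay n w) (vtx ((nxt T)^[p] k)) (vtx ((nxt T)^[q] k)) := by
      have := conn_range (T := T) (k := k) (R := Lay n w) (a := p) (q - p) fun j h1 h2 =>
        hcon j h1 (by omega)
      rwa [Nat.add_sub_cancel' hpq.le] at this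
    have hmp := hcon p le_rfl hpq.le
    have hmq := hcon q hpq.le le_rfl
    unfold sd at hq
    rcases le_total |(vtx ((nxt T)^[q] k)).2 - (vtx ((nxt T)^[p] k)).2|
      |(vtx ((nxt T)^[q] k)).1 - (vtx ((nxt T)^[p] k)).1| with h | h
    · rw [max_eq_left h] at hq
      rcases abs_cases ((vtx ((nxt T)^[q] k)).1 - (vtx ((nxt T)^[p] k)).1) with h1 | h1
      · exact hX ⟨_, _, hmp, hconn, by omega⟩
      · exact hX ⟨_, _, hmq, hconn.symm, by omega⟩
    · rw [max_eq_right h] at hq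
      rcases abs_cases ((vtx ((nxt T)^[q] k)).2 - (vtx ((nxt T)^[p] k)).2) with h1 | h1
      · exact hY ⟨_, _, hmp, hconn, by omega⟩
      · exact hY ⟨_, _, hmq, hconn.symm, by omega⟩
  obtain ⟨c, hpc, hcq, hc⟩ := hex
  have hcp : sd (vtx ((nxt T)^[c] k)) (vtx ((nxt T)^[p] k)) ≤ E := by
    rcases hcq.lt_or_eq with h | h
    · exact (hqmin c hpc h).le
    · rw [h, hq]
  have h1 : D ≤ sd (vtx ((nxt T)^[a] k)) (vtx ((nxt T)^[c] k)) := by
    have h2 := sd_tri (vtx ((nxt T)^[a] k)) (vtx ((nxt T)^[c] k)) (vtx ((nxt T)^[p] k))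
    rw [sd_comm (vtx ((nxt T)^[a] k)) (vtx ((nxt T)^[p] k))] at h2
    omega
  have h2 : D ≤ sd (vtx ((nxt T)^[b] k)) (vtx ((nxt T)^[c] k)) := by
    have h3 := sd_tri (vtx ((nxt T)^[b] k)) (vtx ((nxt T)^[c] k)) (vtx ((nxt T)^[p] k))
    omega
  refine ⟨c, by omega, ?_, hc, h1, h2⟩
  rcases (hcq.trans hqb).lt_or_eq with h | h
  · exact h
  · rw [h, sd_self] at h2
    omega

end Strand

end Pool.Agent.PercD
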