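import Pool.Agent.Lib.MP_6bd702_percD.Strand

/-!
# Many long arcs of an interface are unlikely
-/

set_option autoImplicit false

namespace Pool.Agent.PercD

open Finset Pool.Agent.Perc
open Pool.Agent.MP_6bd702.H23 (Ed)
open Pool.Agent.PercU (Cor vtx fce qry qryb nxt prv nxtE)
open Pool.Agent.PercO (sd)
open Pool.Agent.PercX60 (gV gF gB gT dB Sn)
open Pool.Agent.PercW (kap ua_kap Lay mem_Lay LayX LayY)

/-- Some interface has `m` consecutive arcs of extent at least `L`. -/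
def Chain (n : ℕ) (L : ℤ) (m : ℕ) : Set (Finset Edg) :=
  {T | ∃ k : Cor, vtx k ∈ Box n ∧ ∃ i : ℕ → ℕ, (∀ j < m, i j < i (j + 1)) ∧
    i m < Function.minimalPeriod (nxtE (T : Set Ed)) k ∧
    ∀ j < m, L ≤ sd (vtx ((nxt (T : Set Ed))^[i (j + 1)] k)) (vtx ((nxt (T : Set Ed))^[i j] k))}

namespace Tight

open Strand

open Classical in
/-- The unit edges of the corners of the box with a ball in the box. -/
noncomputable def II (n ρ : ℕ) : Finset UE :=
  ((PercX60.corB n).image kap).filter fun e => BR (ua e) ρ ⊆ Sn n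

theorem card_II (n ρ : ℕ) : ((II n ρ).card : ℝ) ≤ 4 * ((n : ℝ) + 1) ^ 2 := by
  classical
  rw [← PercX60.card_corB]
  exact_mod_cast (card_filter_le _ _).trans card_image_le

/-- Rounding to a multiple of `ρ`. -/
def rd (ρ : ℕ) (v : ℤ × ℤ) : ℤ × ℤ := ((ρ : ℤ) * v.1, (ρ : ℤ) * v.2)

open Classical in
/-- The indices of the grid. -/
noncomputable def GG (n ρ N : ℕ) : Finset (ℤ × ℤ) :=
  (Icc (-(N : ℤ)) N ×ˢ Icc (-(N : ℤ)) N).filter fun v => BR (rd ρ v) (2 * ρ) ⊆ Sn n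

theorem card_GG (n ρ N : ℕ) : ((GG n ρ N).card : ℝ) ≤ (2 * (N : ℝ) + 1) ^ 2 := by
  classical
  have h1 : (GG n ρ N).card ≤ (2 * N + 1) ^ 2 := by
    refine (card_filter_le _ _).trans ?_
    rw [card_product, Int.card_Icc]
    have : ((N : ℤ) + 1 - -(N : ℤ)).toNat = 2 * N + 1 := by omega
    rw [this, pow_two]
  exact_mod_cast h1

theorem div_bounds {ρ N : ℕ} (hρ : 1 ≤ ρ) {x : ℤ} (h1 : -((N : ℤ) * ρ) ≤ x) (h2 : x ≤ N * ρ) :
    -(N : ℤ) ≤ x / ρ ∧ x / ρ ≤ N ∧ (ρ : ℤ) * (x / ρ) ≤ x ∧ x < ρ * (x / ρ) + ρ := by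
  have hρ0 : (0 : ℤ) < ρ := by exact_mod_cast hρ
  refine ⟨?_, ?_, ?_, ?_⟩
  · rw [Int.le_ediv_iff_mul_le hρ0]
    linarith
  · have h3 : x / ρ ≤ (N * ρ : ℤ) / ρ := Int.ediv_le_ediv hρ0 h2
    rwa [Int.mul_ediv_cancel _ hρ0.ne'] at h3
  · have := Int.mul_ediv_self_le (x := x) hρ0.ne'
    exact this
  · have := Int.lt_mul_ediv_self_add (x := x) hρ0
    exact this

/-- Every unit edge of a corner far from the boundary is in a box of the grid. -/
theorem exists_grid {n ρ N : ℕ} (hρ : 1 ≤ ρ) (hN : 2 * n + 2 ≤ N * ρ) {k : Cor}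
    (hk : vtx k ∈ Box n) (hB : BR (ua (kap k)) (3 * ρ) ⊆ Sn n) :
    ∃ v ∈ GG n ρ N, InE (rd ρ v) ρ (kap k) := by
  classical
  have hbox := DictB.mem_Box.1 hk
  have hX : -((N : ℤ) * ρ) ≤ (ua (kap k)).1 ∧ (ua (kap k)).1 ≤ N * ρ ∧
      -((N : ℤ) * ρ) ≤ (ua (kap k)).2 ∧ (ua (kap k)).2 ≤ N * ρ := by
    have hN' : (2 * n + 2 : ℤ) ≤ N * ρ := by exact_mod_cast hN
    obtain ⟨x, y, _ | _, _ | _⟩ := k <;> simp [kap, ua, vtx] at * <;> omega
  obtain ⟨a1, a2, a3, a4⟩ := div_bounds hρ hX.1 hX.2.1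
  obtain ⟨b1, b2, b3, b4⟩ := div_bounds hρ hX.2.2.1 hX.2.2.2
  set A : ℤ := (ua (kap k)).1 / ρ with hA
  set B : ℤ := (ua (kap k)).2 / ρ with hBd
  refine ⟨(A, B), ?_, ?_⟩
  · unfold GG
    rw [mem_filter, mem_product, mem_Icc, mem_Icc]
    refine ⟨⟨⟨a1, a2⟩, b1, b2⟩, subset_trans (Sub.subset ?_) hB⟩
    unfold Sub rd
    simp only
    omega
  · generalize hP : (ρ : ℤ) * A = P at *
    generalize hQ : (ρ : ℤ) * B = Q at *
    have hr1 : (1 : ℤ) ≤ ρ := by exact_mod_cast hρ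
    have e1 : rd ρ (A, B) = (P, Q) := by
      unfold rd
      rw [hP, hQ]
    rw [e1]
    clear hX hA hBd e1 hP hQ
    unfold InE InR
    generalize kap k = e at *
    obtain ⟨x, y, _ | _⟩ := e
    · rw [ub_false]
      simp only [ua_mk] at *
      omega
    · rw [ub_true]
      simp only [ua_mk] at *
      omega

/-- The deterministic count. -/
theorem count_le {n ρ N m : ℕ} {w E : ℤ} {y : ℝ} {ω : Cfg} (hρ : 1 ≤ ρ) (hE : 1 ≤ E)
    (hw : 3 * (ρ : ℤ) + 1 ≤ w) (hN : 2 * n + 2 ≤ N * ρ)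
    (hX : (cfgE n ω : Set Ed) ∉ LayX n w E) (hY : (cfgE n ω : Set Ed) ∉ LayY n w E)
    (hbad : ∀ v ∈ GG n ρ N, ω ∉ Bad (rd ρ v) ρ y)
    (hch : cfgE n ω ∈ Chain n (2 * (3 * ρ + 2 + E)) m) :
    by classical exact (m : ℝ) * y ≤ (((II n ρ).filter fun e => ω ∈ Rch (ua e) ρ e).card : ℝ) := by
  classical
  obtain ⟨k, hk, i, hi, him, hlong⟩ := hch
  set T : Set Ed := (cfgE n ω : Set Ed) with hT
  have hTsub : cfgE n ω ⊆ boxE n := Finset.filter_subset _ _
  have hmono : ∀ {a b : ℕ}, a ≤ b → b ≤ m → i a ≤ i b := by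
    intro a b hab
    induction b, hab using Nat.le_induction with
    | base => intro _; exact le_rfl
    | succ b hab ih => intro hb; exact (ih (by omega)).trans (hi b (by omega)).le
  -- the vertices stay in the box
  have hbox : ∀ l, vtx ((nxt T)^[l] k) ∈ Box n := by
    intro l
    have h1 : vtx ((nxt T)^[l] k) ∈ clV (cfgE n ω) (vtx k) := by
      rw [PercO.clV_eq]
      exact PercO.vtx_iter_mem Relation.ReflTransGen.refl l
    exact BoxAux.clV_subset_box hTsub hk h1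
  -- the corners in the middle of the arcs
  have hmid : ∀ j < m, ∃ c, i j < c ∧ c < i (j + 1) ∧ vtx ((nxt T)^[c] k) ∉ Lay n w ∧
      3 * (ρ : ℤ) + 2 ≤ sd (vtx ((nxt T)^[i j] k)) (vtx ((nxt T)^[c] k)) ∧
      3 * (ρ : ℤ) + 2 ≤ sd (vtx ((nxt T)^[i (j + 1)] k)) (vtx ((nxt T)^[c] k)) := fun j hj =>
    exists_mid (hi j hj).le hE (by omega) (hlong j hj) hX hY
  have hmid' : ∀ j, ∃ c, j < m → i j < c ∧ c < i (j + 1) ∧ vtx ((nxt T)^[c] k) ∉ Lay n w ∧
      3 * (ρ : ℤ) + 2 ≤ sd (vtx ((nxt T)^[i j] k)) (vtx ((nxt T)^[c] k)) ∧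
      3 * (ρ : ℤ) + 2 ≤ sd (vtx ((nxt T)^[i (j + 1)] k)) (vtx ((nxt T)^[c] k)) := by
    intro j
    by_cases hj : j < m
    · obtain ⟨c, hc⟩ := hmid j hj
      exact ⟨c, fun _ => hc⟩
    · exact ⟨0, fun h => absurd h hj⟩
  choose c hc using hmid'
  -- the sets
  set e : ℕ → UE := fun j => kap ((nxt T)^[c j] k) with he
  have hball : ∀ j < m, BR (ua (e j)) (3 * ρ) ⊆ Sn n := by
    intro j hj
    refine BR_kap_sub ?_
    obtain ⟨-, -, h3, -, -⟩ := hc j hj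
    have h4 := DictB.mem_Box.1 (hbox (c j))
    rw [mem_Lay] at h3
    unfold dB
    by_contra hcon
    refine h3 ⟨by omega, fun h5 => hcon ?_⟩
    omega
  have hag : ∀ j < m, ∀ f ∈ (BR (ua (e j)) (3 * ρ) : Set (ℤ × ℤ)), gT T f = ω f := by
    intro j hj f hf
    obtain ⟨x, hx, rfl⟩ := Finset.mem_image.1 (hball j hj (Finset.mem_coe.1 hf))
    exact PercX60.gT_cfgE hx
  have harc : ∀ j < m, ∀ a ∈ MM ω (BR (ua (e j)) (3 * ρ)) (e j),
      ∃ l, i j < l ∧ l < i (j + 1) ∧ a = kap ((nxt T)^[l] k) := by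
    intro j hj a ha
    obtain ⟨h1, h2, -, h4, h5⟩ := hc j hj
    rw [← MM_congr' (ω := ω) (ω' := gT T) fun f hf => (hag j hj f hf).symm] at ha
    exact MM_sub_arc h1 h2 (not_inE_of_sd (k := (nxt T)^[c j] k) h4) (not_inE_of_sd h5) ha
  have hself : ∀ (e : UE) (r : ℕ), 1 ≤ r → InE (ua e) r e := fun e r hr =>
    LTail.inE_self e (by exact_mod_cast hr)
  have hρ3 : ((3 * ρ : ℕ) : ℤ) = 3 * (ρ : ℤ) := by push_cast; rfl
  have hR : ∀ j < m, ω ∈ Rch (ua (e j)) (3 * ρ) (e j) := by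
    intro j hj
    obtain ⟨h1, h2, -, h4, h5⟩ := hc j hj
    have h6 := Rch_of_exit (T := T) (k := k) (r := 3 * (ρ : ℤ)) (v := ua (e j)) h2.le
      (not_inE_of_sd h5) (by have := hself (e j) (3 * ρ) (by omega); rwa [hρ3] at this)
    exact (depOn_Rch (ua (e j)) (3 * ρ) (e j) (gT T) ω (hag j hj)).1 h6
  set A : ℕ → Set UE := fun j => MM ω (BR (ua (e j)) ρ) (e j) with hA
  have hAfin : ∀ j, (A j).Finite := fun j => MM_finite' ρ
  have hAsub : ∀ j, A j ⊆ MM ω (BR (ua (e j)) (3 * ρ)) (e j) := fun j =>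
    MM_sub (Finset.coe_subset.2 (Sub.refl' (by omega)).subset)
  have hAy : ∀ j < m, y < ((A j).ncard : ℝ) := by
    intro j hj
    by_contra hcon
    have hkb := hbox (c j)
    obtain ⟨v, hv, hin⟩ := exists_grid hρ hN hkb (hball j hj)
    refine hbad v hv ⟨e j, hin, ?_, not_lt.1 hcon⟩
    exact Rch_sub (Sub.refl' (by omega)) (hself (e j) ρ hρ) (hR j hj)
  have hAI : ∀ j < m, ∀ a ∈ A j, a ∈ (II n ρ).filter fun e => ω ∈ Rch (ua e) ρ e := by
    intro j hj a ha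
    have h1 : InE (ua (e j)) ρ a := MM_inE (hself (e j) ρ hρ) ha
    have h2 : Sub (ua a) ρ (ua (e j)) (3 * ρ) := by
      have := sub_two h1
      unfold Sub at this ⊢
      omega
    obtain ⟨l, -, -, rfl⟩ := harc j hj a (hAsub j ha)
    rw [mem_filter]
    refine ⟨?_, ?_⟩
    · unfold II
      rw [mem_filter]
      refine ⟨mem_image_of_mem _ (PercX60.mem_corB.2 (hbox l)), h2.subset.trans (hball j hj)⟩
    · refine Rch_sub h2 (hself _ ρ hρ) ?_
      exact (Rch_iff (hAsub j ha)).2 (hR j hj)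
  -- disjointness
  have hinj : ∀ l l' : ℕ, l < Function.minimalPeriod (nxtE T) k →
      l' < Function.minimalPeriod (nxtE T) k → kap ((nxt T)^[l] k) = kap ((nxt T)^[l'] k) →
      l = l' := by
    intro l l' hl hl' h
    have h1 := PercW.kap_injective h
    have h2 : (nxtE T)^[l] k = (nxtE T)^[l'] k := h1
    exact (Function.iterate_injOn_Iio_minimalPeriod (f := nxtE T) (x := k)) hl hl' h2
  have hdisj : ∀ j ∈ range m, ∀ j' ∈ range m, j ≠ j' →
      Disjoint (hAfin j).toFinset (hAfin j').toFinset := by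
    intro j hj j' hj' hne
    rw [mem_range] at hj hj'
    rw [Finset.disjoint_left]
    intro a ha ha'
    rw [Set.Finite.mem_toFinset] at ha ha'
    obtain ⟨l, h1, h2, h3⟩ := harc j hj a (hAsub j ha)
    obtain ⟨l', h1', h2', h3'⟩ := harc j' hj' a (hAsub j' ha')
    have hl : l < Function.minimalPeriod (nxtE T) k :=
      (h2.trans_le (hmono (by omega) le_rfl)).trans him
    have hl' : l' < Function.minimalPeriod (nxtE T) k :=
      (h2'.trans_le (hmono (by omega) le_rfl)).trans him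
    have hll := hinj l l' hl hl' (h3.symm.trans h3')
    rcases Nat.lt_or_gt_of_ne hne with h | h
    · have := hmono (show j + 1 ≤ j' from h) hj'.le
      omega
    · have := hmono (show j' + 1 ≤ j from h) hj.le
      omega
  have hcard : ∑ j ∈ range m, (A j).ncard ≤
      ((II n ρ).filter fun e => ω ∈ Rch (ua e) ρ e).card := by
    have h1 : ∑ j ∈ range m, (A j).ncard = ((range m).biUnion fun j => (hAfin j).toFinset).card := by
      rw [card_biUnion hdisj]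
      refine sum_congr rfl fun j _ => ?_
      exact Set.ncard_eq_toFinset_card _ (hAfin j)
    rw [h1]
    refine card_le_card fun a ha => ?_
    rw [mem_biUnion] at ha
    obtain ⟨j, hj, ha⟩ := ha
    rw [Set.Finite.mem_toFinset] at ha
    exact hAI j (mem_range.1 hj) a ha
  calc (m : ℝ) * y = ∑ _j ∈ range m, y := by rw [sum_const, card_range, nsmul_eq_mul]
    _ ≤ ∑ j ∈ range m, ((A j).ncard : ℝ) := sum_le_sum fun j hj => (hAy j (mem_range.1 hj)).le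
    _ ≤ _ := by exact_mod_cast hcard

/-- The probability of many long arcs. -/
theorem pr_chain_le {n ρ N m : ℕ} {w E : ℤ} {y η U : ℝ} (hρ : 1 ≤ ρ) (hE : 1 ≤ E)
    (hw : 3 * (ρ : ℤ) + 1 ≤ w) (hN : 2 * n + 2 ≤ N * ρ) (hm : 1 ≤ m) (hy : 0 < y)
    (hη : ∀ v, pr (BR v (2 * ρ)) (Bad v ρ y) ≤ η)
    (hU : ∀ e, pr (BR (ua e) ρ) (Rch (ua e) ρ e) ≤ U) :
    prB n (Chain n (2 * (3 * ρ + 2 + E)) m) ≤
      prB n {T | (T : Set Ed) ∈ LayX n w E ∨ (T : Set Ed) ∈ LayY n w E} +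
        (2 * (N : ℝ) + 1) ^ 2 * η + 4 * ((n : ℝ) + 1) ^ 2 * U / (m * y) := by
  classical
  have hη0 : 0 ≤ η := (pr_nonneg _ _).trans (hη 0)
  have hU0 : 0 ≤ U := (pr_nonneg _ _).trans (hU (0, 0, true))
  have hmy : 0 < (m : ℝ) * y := mul_pos (by exact_mod_cast hm) hy
  rw [← PercX60.pr_Sn, ← PercX60.pr_Sn]
  have h1 : pr (Sn n) {ω | cfgE n ω ∈ Chain n (2 * (3 * ρ + 2 + E)) m} ≤
      pr (Sn n) (({ω | cfgE n ω ∈ {T : Finset Edg | (T : Set Ed) ∈ LayX n w E ∨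
        (T : Set Ed) ∈ LayY n w E}} ∪ ⋃ v ∈ GG n ρ N, Bad (rd ρ v) ρ y) ∪
        {ω | (m : ℝ) * y ≤ (((II n ρ).filter fun e => ω ∈ Rch (ua e) ρ e).card : ℝ)}) := by
    refine pr_mono _ fun ω hω => ?_
    by_contra hcon
    simp only [Set.mem_union, not_or, Set.mem_iUnion, not_exists] at hcon
    obtain ⟨⟨h2, h3⟩, h4⟩ := hcon
    refine h4 ?_
    have h5 := count_le (y := y) hρ hE hw hN (fun h => h2 (Or.inl h)) (fun h => h2 (Or.inr h))
      (fun v hv hb => h3 v hv hb) hω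
    exact h5
  refine h1.trans ((pr_union_le _ _ _).trans (add_le_add ((pr_union_le _ _ _).trans
    (add_le_add le_rfl ?_)) ?_))
  · refine (pr_biUnion_le _ _ _).trans ?_
    calc ∑ v ∈ GG n ρ N, pr (Sn n) (Bad (rd ρ v) ρ y) ≤ ∑ _v ∈ GG n ρ N, η := by
          refine sum_le_sum fun v hv => ?_
          have h2 : BR (rd ρ v) (2 * ρ) ⊆ Sn n := (mem_filter.1 hv).2
          rw [pr_eq_of_depOn (depOn_Bad (rd ρ v) ρ y) h2]
          exact hη _
      _ = (GG n ρ N).card * η := by rw [sum_const, nsmul_eq_mul]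
      _ ≤ _ := mul_le_mul_of_nonneg_right (card_GG n ρ N) hη0
  · refine (pr_count_le (Sn n) (II n ρ) (fun e => Rch (ua e) ρ e) hmy).trans ?_
    refine div_le_div_of_nonneg_right ?_ hmy.le
    calc ∑ e ∈ II n ρ, pr (Sn n) (Rch (ua e) ρ e) ≤ ∑ _e ∈ II n ρ, U := by
          refine sum_le_sum fun e he => ?_
          have h2 : BR (ua e) ρ ⊆ Sn n := (mem_filter.1 he).2
          rw [pr_eq_of_depOn (depOn_Rch (ua e) ρ e) h2]
          exact hU _
      _ = (II n ρ).card * U := by rw [sum_const, nsmul_eq_mul]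
      _ ≤ _ := mul_le_mul_of_nonneg_right (card_II n ρ) hU0

end Tight

end Pool.Agent.PercD
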