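import Pool.Agent.Lib.MP_6bd702_percD.Sums
import Pool.Agent.Lib.MP_6bd702_percD.Topo
import Pool.Agent.Lib.MP_6bd702_percD.Limit

/-!
# The expected number of cells met by the outer perimeter
-/

set_option autoImplicit false

namespace Pool.Agent.Perc.PercD

open Finset Filter Topology Pool.Agent.PercD

/-- The one dimensional sum over the cell indices (left end). -/
theorem sum_idx_left {m : ℕ} : ∑ a ∈ Icc (-1 : ℤ) (2 ^ m + 1), (max (a : ℝ) 1) ^ (-(1 / 4) : ℝ) ≤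
    (1 + 2 / (1 - 1 / 4)) * ((2 : ℝ) ^ m * 2) ^ (1 - 1 / 4 : ℝ) := by
  have h1 := sum_abs_rpow (q := 1 / 4) (by norm_num) (by norm_num) (N := 2 ^ m + 1)
    (Nat.le_add_left 1 _)
  have h2 : ∑ a ∈ Icc (-1 : ℤ) (2 ^ m + 1), (max (a : ℝ) 1) ^ (-(1 / 4) : ℝ) ≤
      ∑ a ∈ Icc (-((2 ^ m + 1 : ℕ) : ℤ)) ((2 ^ m + 1 : ℕ) : ℤ), (max |(a : ℝ)| 1) ^ (-(1 / 4) : ℝ) := by
    calc ∑ a ∈ Icc (-1 : ℤ) (2 ^ m + 1), (max (a : ℝ) 1) ^ (-(1 / 4) : ℝ)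
        = ∑ a ∈ Icc (-1 : ℤ) (2 ^ m + 1), (max |(a : ℝ)| 1) ^ (-(1 / 4) : ℝ) := by
          refine sum_congr rfl fun a ha => ?_
          rw [mem_Icc] at ha
          rcases lt_or_ge a 0 with h | h
          · have : a = -1 := by omega
            subst this; norm_num
          · rw [abs_of_nonneg (by exact_mod_cast h)]
      _ ≤ _ := by
          refine sum_le_sum_of_subset_of_nonneg ?_ fun a _ _ =>
            Real.rpow_nonneg (le_trans zero_le_one (le_max_right _ _)) _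
          intro a ha
          rw [mem_Icc] at ha ⊢
          have : (0 : ℤ) < 2 ^ m := by positivity
          push_cast
          constructor <;> omega
  refine h2.trans (h1.trans ?_)
  refine mul_le_mul_of_nonneg_left ?_ (by norm_num)
  refine Real.rpow_le_rpow (by positivity) ?_ (by norm_num)
  push_cast
  have : (1 : ℝ) ≤ 2 ^ m := one_le_pow₀ (by norm_num)
  linarith

/-- The one dimensional sum over the cell indices (right end). -/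
theorem sum_idx_right {m : ℕ} :
    ∑ a ∈ Icc (-1 : ℤ) (2 ^ m + 1), (max ((2 : ℝ) ^ m - a) 1) ^ (-(1 / 4) : ℝ) ≤
    (1 + 2 / (1 - 1 / 4)) * ((2 : ℝ) ^ m * 2) ^ (1 - 1 / 4 : ℝ) := by
  refine le_trans (le_of_eq ?_) (sum_idx_left (m := m))
  refine sum_nbij' (fun a => 2 ^ m - a) (fun a => 2 ^ m - a) ?_ ?_ ?_ ?_ ?_
  · intro a ha; rw [mem_Icc] at ha ⊢; constructor <;> omega
  · intro a ha; rw [mem_Icc] at ha ⊢; constructor <;> omega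
  · intro a _; ring
  · intro a _; ring
  · intro a _; push_cast; rfl

/-- The weight of a cell. -/
noncomputable def wt (m : ℕ) (z : ℤ × ℤ) : ℝ :=
  ((max (z.1 : ℝ) 1) ^ (-(1 / 4) : ℝ) + (max ((2 : ℝ) ^ m - z.1) 1) ^ (-(1 / 4) : ℝ)) +
    ((max (z.2 : ℝ) 1) ^ (-(1 / 4) : ℝ) + (max ((2 : ℝ) ^ m - z.2) 1) ^ (-(1 / 4) : ℝ))

theorem sum_wt (m : ℕ) : ∑ z ∈ idx m, wt m z ≤ 128 * ((2 : ℝ) ^ m) ^ (7 / 4 : ℝ) := by
  unfold idx
  have hA := sum_idx_left (m := m)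
  have hB := sum_idx_right (m := m)
  set S₁ := ∑ a ∈ Icc (-1 : ℤ) (2 ^ m + 1), (max (a : ℝ) 1) ^ (-(1 / 4) : ℝ) with hS₁
  set S₂ := ∑ a ∈ Icc (-1 : ℤ) (2 ^ m + 1), (max ((2 : ℝ) ^ m - a) 1) ^ (-(1 / 4) : ℝ) with hS₂
  have hcard : ((Icc (-1 : ℤ) (2 ^ m + 1)).card : ℝ) ≤ 4 * 2 ^ m := by
    rw [Int.card_Icc]
    have h1 : ((2 : ℤ) ^ m + 1 + 1 - (-1)) = ((2 ^ m + 3 : ℕ) : ℤ) := by push_cast; ring
    rw [h1, Int.toNat_natCast]; push_cast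
    have : (1 : ℝ) ≤ 2 ^ m := one_le_pow₀ (by norm_num)
    linarith
  have h2 : ∑ z ∈ Icc (-1 : ℤ) (2 ^ m + 1) ×ˢ Icc (-1 : ℤ) (2 ^ m + 1), wt m z =
      ((Icc (-1 : ℤ) (2 ^ m + 1)).card : ℝ) * (S₁ + S₂) +
        ((Icc (-1 : ℤ) (2 ^ m + 1)).card : ℝ) * (S₁ + S₂) := by
    unfold wt
    rw [sum_add_distrib]
    congr 1
    · rw [sum_product]
      simp only [sum_const, nsmul_eq_mul]
      rw [← mul_sum, sum_add_distrib]
    · rw [sum_product]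
      simp only [sum_const, nsmul_eq_mul]
      rw [sum_add_distrib]
  rw [h2]
  have hp : (0 : ℝ) < 2 ^ m := by positivity
  have h3 : ((2 : ℝ) ^ m * 2) ^ (1 - 1 / 4 : ℝ) ≤ 2 * ((2 : ℝ) ^ m) ^ (3 / 4 : ℝ) := by
    rw [Real.mul_rpow hp.le (by norm_num), mul_comm]
    have e : (1 - 1 / 4 : ℝ) = 3 / 4 := by norm_num
    rw [e]
    refine mul_le_mul_of_nonneg_right ?_ (by positivity)
    calc (2 : ℝ) ^ (3 / 4 : ℝ) ≤ (2 : ℝ) ^ (1 : ℝ) :=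
          Real.rpow_le_rpow_of_exponent_le (by norm_num) (by norm_num)
      _ = 2 := Real.rpow_one 2
  have h4 : S₁ + S₂ ≤ 16 * ((2 : ℝ) ^ m) ^ (3 / 4 : ℝ) := by
    have h5 : (1 + 2 / (1 - 1 / 4 : ℝ)) * ((2 : ℝ) ^ m * 2) ^ (1 - 1 / 4 : ℝ) ≤
        8 * ((2 : ℝ) ^ m) ^ (3 / 4 : ℝ) := by
      calc _ ≤ (4 : ℝ) * (2 * ((2 : ℝ) ^ m) ^ (3 / 4 : ℝ)) := by
            refine mul_le_mul (by norm_num) h3 (by positivity) (by norm_num)
        _ = _ := by ring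
    linarith
  have hS0 : 0 ≤ S₁ + S₂ := by
    refine add_nonneg (sum_nonneg fun a _ => ?_) (sum_nonneg fun a _ => ?_) <;>
      exact Real.rpow_nonneg (le_trans zero_le_one (le_max_right _ _)) _
  have h6 : ((2 : ℝ) ^ m) ^ (7 / 4 : ℝ) = 2 ^ m * ((2 : ℝ) ^ m) ^ (3 / 4 : ℝ) := by
    rw [show (7 / 4 : ℝ) = 1 + 3 / 4 by norm_num, Real.rpow_add hp, Real.rpow_one]
  rw [h6]
  calc _ = 2 * (((Icc (-1 : ℤ) (2 ^ m + 1)).card : ℝ) * (S₁ + S₂)) := by ring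
    _ ≤ 2 * ((4 * 2 ^ m) * (16 * ((2 : ℝ) ^ m) ^ (3 / 4 : ℝ))) := by
        refine mul_le_mul_of_nonneg_left ?_ (by norm_num)
        exact mul_le_mul hcard h4 hS0 (by positivity)
    _ = _ := by ring

end Pool.Agent.Perc.PercD
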